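import Mathlib
import Pool.Agent.Q90.SM.All

/-! # A differential inequality on one circle, and its integration

For a zero free holomorphic function `F` on the unit disc whose logarithmic derivative
`(1 - s²) v F'(v) / F(v)` lies in the disc of centre `w` and radius `G` on the circle `|v| = s`. -/

set_option autoImplicit false
open Complex Filter Topology Set Metric MeasureTheory

namespace Pool.Agent.Run7.h506.MS

open Q90.SM (S1 S2)
open Pool.Agent.TH325.SI (mn em la cont_cm mn_nonneg cm_mem norm_cm)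

theorem S1_int {F : ℂ → ℂ} (hF : DifferentiableOn ℂ F (ball 0 1)) {s : ℝ} (hs : 0 < s) (hs1 : s < 1) :
    ∫ θ in (0:ℝ)..(2 * Real.pi), (starRingEnd ℂ) (F (circleMap 0 s θ)) *
      (circleMap 0 s θ * deriv F (circleMap 0 s θ)) = ((2 * Real.pi * S1 F s : ℝ) : ℂ) := by
  have hpi := Real.pi_pos
  have hS1 := Pool.Agent.Q216.SM.ana3 F hF s hs hs1
  have h11 : ((2 * Real.pi : ℝ) : ℂ) ≠ 0 := by exact_mod_cast (by positivity : 2 * Real.pi ≠ 0)
  have h12 : ((2 * Real.pi : ℝ) : ℂ) * ((S1 F s : ℝ) : ℂ) =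
      ∫ θ in (0:ℝ)..(2 * Real.pi), (starRingEnd ℂ) (F (circleMap 0 s θ)) *
      (circleMap 0 s θ * deriv F (circleMap 0 s θ)) := by
    rw [hS1, ← mul_assoc, mul_inv_cancel₀ h11, one_mul]
  rw [← h12]
  push_cast
  ring

theorem int_mn {F : ℂ → ℂ} {s : ℝ} :
    ∫ θ in (0:ℝ)..(2 * Real.pi), ‖F (circleMap 0 s θ)‖ ^ 2 = 2 * Real.pi * mn F s := by
  have hpi := Real.pi_pos
  unfold mn
  field_simp

/-- the differential inequality on one circle -/
theorem star1 {F D : ℂ → ℂ} (hF : DifferentiableOn ℂ F (ball 0 1)) {w : ℂ} {G s : ℝ} (hs : 0 < s)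
    (hs1 : s < 1) (hD : ∀ v : ℂ, ‖v‖ = s → v * deriv F v = D v * F v)
    (hG : ∀ v : ℂ, ‖v‖ = s → ‖((1 - s ^ 2 : ℝ) : ℂ) * D v - w‖ ≤ G) :
    (1 - s ^ 2) ^ 2 * S2 F s ≤ (G ^ 2 - ‖w‖ ^ 2) * mn F s + (1 - s ^ 2) * (2 * w.re) * S1 F s := by
  have hpi := Real.pi_pos
  have hx0 : 0 < 1 - s ^ 2 := by nlinarith
  set x : ℝ := 1 - s ^ 2 with hx
  obtain ⟨hS2, _, _⟩ := Pool.Agent.Q216.SM.ana2 F hF s hs hs1
  have hYi := S1_int hF hs hs1
  have hcF := cont_cm hF hs hs1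
  have hcF' := cont_cm (hF.deriv isOpen_ball) hs hs1
  set Y : ℝ → ℂ := fun θ => (starRingEnd ℂ) (F (circleMap 0 s θ)) *
    (circleMap 0 s θ * deriv F (circleMap 0 s θ)) with hY
  have hcY : Continuous Y :=
    (Complex.continuous_conj.comp hcF).mul ((continuous_circleMap 0 s).mul hcF')
  have hpt : ∀ θ : ℝ, x ^ 2 * (s ^ 2 * ‖deriv F (circleMap 0 s θ)‖ ^ 2) ≤
      (G ^ 2 - ‖w‖ ^ 2) * ‖F (circleMap 0 s θ)‖ ^ 2 +
        2 * x * ((starRingEnd ℂ) w * Y θ).re := by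
    intro θ
    have hn := norm_cm hs θ
    set v := circleMap 0 s θ with hvdef
    have h5 := hD v hn
    have h4 := hG v hn
    set W : ℂ := (x : ℂ) * D v with hW
    have h6 : ‖W - w‖ ^ 2 ≤ G ^ 2 := by gcongr
    have h7 : ‖W - w‖ ^ 2 = ‖W‖ ^ 2 - 2 * ((starRingEnd ℂ) w * W).re + ‖w‖ ^ 2 := by
      rw [← Complex.normSq_eq_norm_sq, ← Complex.normSq_eq_norm_sq, ← Complex.normSq_eq_norm_sq,
        Complex.normSq_sub]
      have : (W * (starRingEnd ℂ) w).re = ((starRingEnd ℂ) w * W).re := by rw [mul_comm]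
      rw [this]
      ring
    have h8 : ‖W‖ ^ 2 ≤ (G ^ 2 - ‖w‖ ^ 2) + 2 * ((starRingEnd ℂ) w * W).re := by linarith
    have e1 : x ^ 2 * (s ^ 2 * ‖deriv F v‖ ^ 2) = ‖F v‖ ^ 2 * ‖W‖ ^ 2 := by
      have : s ^ 2 * ‖deriv F v‖ ^ 2 = ‖D v * F v‖ ^ 2 := by
        rw [← h5, norm_mul, hn]
        ring
      rw [this, hW, norm_mul, norm_mul, Complex.norm_real, Real.norm_of_nonneg hx0.le]
      ring
    have e2 : x * ((starRingEnd ℂ) w * Y θ).re = ‖F v‖ ^ 2 * ((starRingEnd ℂ) w * W).re := by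
      have e3 : (x : ℂ) * ((starRingEnd ℂ) w * Y θ) =
          ((‖F v‖ ^ 2 : ℝ) : ℂ) * ((starRingEnd ℂ) w * W) := by
        simp only [hY]
        rw [← hvdef, h5, hW]
        have e5 : (starRingEnd ℂ) (F v) * F v = ((‖F v‖ ^ 2 : ℝ) : ℂ) := by
          rw [Complex.conj_mul']; push_cast; rfl
        rw [← e5]
        ring
      have e6 := congrArg Complex.re e3
      rw [Complex.re_ofReal_mul, Complex.re_ofReal_mul] at e6
      exact e6
    have h10 := mul_le_mul_of_nonneg_left h8 (by positivity : 0 ≤ ‖F v‖ ^ 2)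
    rw [e1]
    have e7 : 2 * x * ((starRingEnd ℂ) w * Y θ).re = 2 * (x * ((starRingEnd ℂ) w * Y θ).re) := by ring
    rw [e7, e2]
    linarith
  have hI1 : ∫ θ in (0:ℝ)..(2 * Real.pi), x ^ 2 * (s ^ 2 * ‖deriv F (circleMap 0 s θ)‖ ^ 2) ≤
      ∫ θ in (0:ℝ)..(2 * Real.pi), ((G ^ 2 - ‖w‖ ^ 2) * ‖F (circleMap 0 s θ)‖ ^ 2 +
        2 * x * ((starRingEnd ℂ) w * Y θ).re) := by
    apply intervalIntegral.integral_mono_on (by positivity)
    · exact (continuous_const.mul (continuous_const.mul (hcF'.norm.pow 2))).intervalIntegrable _ _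
    · exact ((continuous_const.mul (hcF.norm.pow 2)).add (continuous_const.mul
        (Complex.continuous_re.comp (continuous_const.mul hcY)))).intervalIntegrable _ _
    · intro θ _
      exact hpt θ
  have hI2 : ∫ θ in (0:ℝ)..(2 * Real.pi), ((G ^ 2 - ‖w‖ ^ 2) * ‖F (circleMap 0 s θ)‖ ^ 2 +
        2 * x * ((starRingEnd ℂ) w * Y θ).re) =
      (G ^ 2 - ‖w‖ ^ 2) * (∫ θ in (0:ℝ)..(2 * Real.pi), ‖F (circleMap 0 s θ)‖ ^ 2) +
        2 * x * ((starRingEnd ℂ) w * ∫ θ in (0:ℝ)..(2 * Real.pi), Y θ).re := by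
    rw [intervalIntegral.integral_add, intervalIntegral.integral_const_mul,
      intervalIntegral.integral_const_mul]
    · congr 2
      rw [← intervalIntegral.integral_const_mul]
      have := Complex.reCLM.intervalIntegral_comp_comm (μ := volume) (a := 0) (b := 2 * Real.pi)
        (f := fun θ => (starRingEnd ℂ) w * Y θ) ((continuous_const.mul hcY).intervalIntegrable _ _)
      exact this
    · exact (continuous_const.mul (hcF.norm.pow 2)).intervalIntegrable _ _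
    · exact (continuous_const.mul
        (Complex.continuous_re.comp (continuous_const.mul hcY))).intervalIntegrable _ _
  have hI3 : ∫ θ in (0:ℝ)..(2 * Real.pi), x ^ 2 * (s ^ 2 * ‖deriv F (circleMap 0 s θ)‖ ^ 2) =
      x ^ 2 * (s ^ 2 * ∫ θ in (0:ℝ)..(2 * Real.pi), ‖deriv F (circleMap 0 s θ)‖ ^ 2) := by
    rw [intervalIntegral.integral_const_mul, intervalIntegral.integral_const_mul]
  rw [hI3, hI2, hYi, Complex.re_mul_ofReal, Complex.conj_re, int_mn, int_mn] at hI1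
  rw [hS2]
  have h13 : (0:ℝ) < 2 * Real.pi := by positivity
  have h14 : (2 * Real.pi) * (x ^ 2 * (s ^ 2 * mn (deriv F) s)) ≤
      (2 * Real.pi) * ((G ^ 2 - ‖w‖ ^ 2) * mn F s + x * (2 * w.re) * S1 F s) := by
    nlinarith
  exact le_of_mul_le_mul_left h14 h13

/-- a bound for the initial slope -/
theorem slope {F D : ℂ → ℂ} (hF : DifferentiableOn ℂ F (ball 0 1)) {G s : ℝ} (hs : 0 < s)
    (hs1 : s < 1) (hD : ∀ v : ℂ, ‖v‖ = s → v * deriv F v = D v * F v)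
    (hG : ∀ v : ℂ, ‖v‖ = s → ‖((1 - s ^ 2 : ℝ) : ℂ) * D v‖ ≤ G) :
    (1 - s ^ 2) * S1 F s ≤ G * mn F s := by
  have hpi := Real.pi_pos
  have hx0 : 0 < 1 - s ^ 2 := by nlinarith
  have hYi := S1_int hF hs hs1
  have hcF := cont_cm hF hs hs1
  have hcF' := cont_cm (hF.deriv isOpen_ball) hs hs1
  have hcY : Continuous fun θ : ℝ => (starRingEnd ℂ) (F (circleMap 0 s θ)) *
    (circleMap 0 s θ * deriv F (circleMap 0 s θ)) :=
    (Complex.continuous_conj.comp hcF).mul ((continuous_circleMap 0 s).mul hcF')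
  have h1 : (1 - s ^ 2) * (2 * Real.pi * S1 F s) ≤
      ∫ θ in (0:ℝ)..(2 * Real.pi), G * ‖F (circleMap 0 s θ)‖ ^ 2 := by
    have h2 : (1 - s ^ 2) * (2 * Real.pi * S1 F s) ≤
        ‖∫ θ in (0:ℝ)..(2 * Real.pi), ((1 - s ^ 2 : ℝ) : ℂ) * ((starRingEnd ℂ) (F (circleMap 0 s θ)) *
      (circleMap 0 s θ * deriv F (circleMap 0 s θ)))‖ := by
      rw [intervalIntegral.integral_const_mul, hYi, norm_mul, Complex.norm_real, Complex.norm_real,
        Real.norm_of_nonneg hx0.le]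
      exact mul_le_mul_of_nonneg_left (le_abs_self _) hx0.le
    refine h2.trans ?_
    apply intervalIntegral.norm_integral_le_of_norm_le (by positivity)
    · refine Eventually.of_forall fun θ _ => ?_
      have hn := norm_cm hs θ
      rw [hD _ hn]
      have e : ((1 - s ^ 2 : ℝ) : ℂ) * ((starRingEnd ℂ) (F (circleMap 0 s θ)) *
          (D (circleMap 0 s θ) * F (circleMap 0 s θ))) =
          (starRingEnd ℂ) (F (circleMap 0 s θ)) * F (circleMap 0 s θ) *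
            (((1 - s ^ 2 : ℝ) : ℂ) * D (circleMap 0 s θ)) := by ring
      rw [e, norm_mul, norm_mul, Complex.norm_conj]
      have := mul_le_mul_of_nonneg_left (hG _ hn)
        (by positivity : 0 ≤ ‖F (circleMap 0 s θ)‖ * ‖F (circleMap 0 s θ)‖)
      refine this.trans (le_of_eq ?_)
      ring
    · exact (continuous_const.mul (hcF.norm.pow 2)).intervalIntegrable _ _
  rw [intervalIntegral.integral_const_mul, int_mn] at h1
  have h13 : (0:ℝ) < 2 * Real.pi := by positivity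
  have h14 : (2 * Real.pi) * ((1 - s ^ 2) * S1 F s) ≤ (2 * Real.pi) * (G * mn F s) := by linarith
  exact le_of_mul_le_mul_left h14 h13

/-- integration of the differential inequality -/
theorem ode1 {P N1 N2 : ℝ → ℝ} {s0 A B d γ : ℝ} (h0 : 0 < s0) (h01 : s0 < 1) (hA : 0 ≤ A)
    (hB : 0 ≤ B) (hd : |d| ≤ γ)
    (hP : ∀ s, s0 ≤ s → s < 1 → 0 < P s ∧ 0 ≤ N1 s ∧ HasDerivAt P (2 / s * N1 s) s ∧
      HasDerivAt N1 (2 / s * N2 s) s ∧ (1 - s ^ 2) ^ 2 * N2 s ≤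
        ((A + B * ((1 - s ^ 2) / (1 - s0 ^ 2))) ^ 2 - γ ^ 2) * P s + (1 - s ^ 2) * (2 * d) * N1 s)
    {s : ℝ} (hs : s0 ≤ s) (hs1 : s < 1) :
    s0 ^ 2 * Real.log (P s) ≤ s0 ^ 2 * Real.log (P s0) + (1 - s0 ^ 2) * N1 s0 / P s0 +
      (1 / s0 ^ 2) * (A ^ 2 * (la s - la s0) + 2 * A * B + B ^ 2 / 2) := by
  have hy0 : 0 < 1 - s0 ^ 2 := by nlinarith
  set f : ℝ → ℝ := fun s => s0 ^ 2 * Real.log (P s) + (1 - s ^ 2) * N1 s / P s -
    (1 / s0 ^ 2) * (A ^ 2 * la s - 2 * A * B * ((1 - s ^ 2) / (1 - s0 ^ 2)) -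
      B ^ 2 * ((1 - s ^ 2) / (1 - s0 ^ 2)) ^ 2 / 2) with hf
  have hder : ∀ s, s0 ≤ s → s < 1 → HasDerivAt f (s0 ^ 2 * ((2 / s * N1 s) / P s) +
      (((-(2 * s)) * N1 s + (1 - s ^ 2) * (2 / s * N2 s)) * P s -
        (1 - s ^ 2) * N1 s * (2 / s * N1 s)) / P s ^ 2 -
      (1 / s0 ^ 2) * (A ^ 2 * (2 * s / (1 - s ^ 2)) - 2 * A * B * (-(2 * s) / (1 - s0 ^ 2)) -
      B ^ 2 * (2 * ((1 - s ^ 2) / (1 - s0 ^ 2)) * (-(2 * s) / (1 - s0 ^ 2))) / 2)) s := by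
    intro s hs hs1
    obtain ⟨p1, p2, p3, p4, p5⟩ := hP s hs hs1
    have hs0 : 0 < s := lt_of_lt_of_le h0 hs
    have hx0 : 0 < 1 - s ^ 2 := by nlinarith
    have d1 : HasDerivAt (fun s : ℝ => 1 - s ^ 2) (-(2 * s)) s := by
      have := ((hasDerivAt_id s).pow 2).const_sub 1
      simpa using this
    have d2 : HasDerivAt la (2 * s / (1 - s ^ 2)) s := by
      have h3 := (d1.log hx0.ne').neg
      have e : -(-(2 * s) / (1 - s ^ 2)) = 2 * s / (1 - s ^ 2) := by ring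
      rw [e] at h3
      exact h3
    have d3 : HasDerivAt (fun s : ℝ => (1 - s ^ 2) / (1 - s0 ^ 2)) (-(2 * s) / (1 - s0 ^ 2)) s :=
      d1.div_const _
    have d4 := (p3.log p1.ne').const_mul (s0 ^ 2)
    have d5 := (d1.mul p4).div p3 p1.ne'
    have d6 : HasDerivAt (fun s : ℝ => ((1 - s ^ 2) / (1 - s0 ^ 2)) ^ 2)
        (2 * ((1 - s ^ 2) / (1 - s0 ^ 2)) * (-(2 * s) / (1 - s0 ^ 2))) s := by
      have h6 := d3.fun_pow 2
      refine h6.congr_deriv ?_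
      norm_num
    have d7 := (((d2.const_mul (A ^ 2)).sub (d3.const_mul (2 * A * B))).sub
      ((d6.const_mul (B ^ 2)).div_const 2)).const_mul (1 / s0 ^ 2)
    exact (d4.add d5).sub d7
  have hanti : AntitoneOn f (Ico s0 1) := by
    apply antitoneOn_of_deriv_nonpos (convex_Ico _ _)
    · intro s hs
      exact (hder s hs.1 hs.2).continuousAt.continuousWithinAt
    · intro s hs
      rw [interior_Ico] at hs
      exact (hder s hs.1.le hs.2).differentiableAt.differentiableWithinAt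
    · intro s hs
      rw [interior_Ico] at hs
      rw [(hder s hs.1.le hs.2).deriv]
      obtain ⟨p1, p2, p3, p4, p5⟩ := hP s hs.1.le hs.2
      have hs0 : 0 < s := lt_trans h0 hs.1
      have hx0 : 0 < 1 - s ^ 2 := by nlinarith [hs.2]
      obtain ⟨x, hx⟩ : ∃ x, x = (1 - s ^ 2) * N1 s / P s := ⟨_, rfl⟩
      obtain ⟨n2, hn2⟩ : ∃ n2, n2 = (1 - s ^ 2) ^ 2 * N2 s / P s := ⟨_, rfl⟩
      obtain ⟨σ, hσ⟩ : ∃ σ, σ = (1 - s ^ 2) / (1 - s0 ^ 2) := ⟨_, rfl⟩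
      have hx1 : 0 ≤ x := by rw [hx]; positivity
      have hG : n2 ≤ (A + B * σ) ^ 2 - γ ^ 2 + 2 * d * x := by
        rw [hn2, div_le_iff₀ p1, hσ, hx]
        refine p5.trans (le_of_eq ?_)
        field_simp
      have e1 : s0 ^ 2 * ((2 / s * N1 s) / P s) +
          (((-(2 * s)) * N1 s + (1 - s ^ 2) * (2 / s * N2 s)) * P s -
          (1 - s ^ 2) * N1 s * (2 / s * N1 s)) / P s ^ 2 -
          (1 / s0 ^ 2) * (A ^ 2 * (2 * s / (1 - s ^ 2)) - 2 * A * B * (-(2 * s) / (1 - s0 ^ 2)) -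
          B ^ 2 * (2 * ((1 - s ^ 2) / (1 - s0 ^ 2)) * (-(2 * s) / (1 - s0 ^ 2))) / 2) =
          (2 / (s * (1 - s ^ 2))) * ((s0 ^ 2 - s ^ 2) * x + (n2 - x ^ 2) -
            (s ^ 2 / s0 ^ 2) * (A + B * σ) ^ 2) := by
        rw [hx, hn2, hσ]
        field_simp
        ring
      rw [e1]
      apply mul_nonpos_of_nonneg_of_nonpos (by positivity)
      have h1 : (s0 ^ 2 - s ^ 2) * x ≤ 0 :=
        mul_nonpos_of_nonpos_of_nonneg (by nlinarith [hs.1]) hx1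
      have h2 : 1 ≤ s ^ 2 / s0 ^ 2 := by
        rw [one_le_div (by positivity)]
        nlinarith [hs.1]
      have h3 : (A + B * σ) ^ 2 ≤ (s ^ 2 / s0 ^ 2) * (A + B * σ) ^ 2 :=
        le_mul_of_one_le_left (sq_nonneg _) h2
      have h4 : d ^ 2 ≤ γ ^ 2 := by
        have := abs_le.1 hd
        nlinarith
      nlinarith [sq_nonneg (x - d)]
  have h1 := hanti ⟨le_rfl, h01⟩ ⟨hs, hs1⟩ hs
  simp only [hf] at h1
  obtain ⟨p1, p2, -⟩ := hP s hs hs1
  have hs0 : 0 < s := lt_of_lt_of_le h0 hs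
  have hx0 : 0 < 1 - s ^ 2 := by nlinarith
  have h2 : 0 ≤ (1 - s ^ 2) * N1 s / P s := by positivity
  have h3 : (1 - s0 ^ 2) / (1 - s0 ^ 2) = 1 := div_self hy0.ne'
  rw [h3] at h1
  have h4 : 0 ≤ (1 - s ^ 2) / (1 - s0 ^ 2) := by positivity
  have h5 : 0 ≤ (1 / s0 ^ 2) * (2 * A * B * ((1 - s ^ 2) / (1 - s0 ^ 2)) +
      B ^ 2 * ((1 - s ^ 2) / (1 - s0 ^ 2)) ^ 2 / 2) := by positivity
  have e1 : (1 / s0 ^ 2) * (A ^ 2 * (la s - la s0) + 2 * A * B + B ^ 2 / 2) =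
      (1 / s0 ^ 2) * (A ^ 2 * la s - 2 * A * B * ((1 - s ^ 2) / (1 - s0 ^ 2)) -
      B ^ 2 * ((1 - s ^ 2) / (1 - s0 ^ 2)) ^ 2 / 2) -
      (1 / s0 ^ 2) * (A ^ 2 * la s0 - 2 * A * B * 1 - B ^ 2 * 1 ^ 2 / 2) +
      (1 / s0 ^ 2) * (2 * A * B * ((1 - s ^ 2) / (1 - s0 ^ 2)) +
      B ^ 2 * ((1 - s ^ 2) / (1 - s0 ^ 2)) ^ 2 / 2) := by ring
  rw [e1]
  linarith

end Pool.Agent.Run7.h506.MS
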