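import Mathlib
import Pool.Agent.Run7.h506.MS.A

/-! # The Gaussian average with a weight -/

set_option autoImplicit false
open Complex Filter Topology Set Metric MeasureTheory

namespace Pool.Agent.Run7.h506.MS

open Q90.SM (lint_eq gauss)

theorem gavgW {W : ℝ → ℝ} {X : ℝ → ℂ} (hW : Continuous W) (hW0 : ∀ θ, 0 ≤ W θ) (hX : Continuous X)
    {K D b : ℝ} (hK : 0 ≤ K) (hDb : D < b) (hb : 0 < b)
    (hexp : ∀ t : ℂ, ∫ θ in (0:ℝ)..(2 * Real.pi), W θ * Real.exp (t * X θ).re ≤
      K * Real.exp (D * ‖t‖ ^ 2)) :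
    ∫ θ in (0:ℝ)..(2 * Real.pi), W θ * Real.exp (1 / (4 * b) * ‖X θ‖ ^ 2) ≤ K * b / (b - D) := by
  have hpi := Real.pi_pos
  have hbD : 0 < b - D := by linarith
  have hct : ∀ t : ℂ, Continuous fun θ : ℝ => W θ * Real.exp (t * X θ).re := fun t =>
    hW.mul (Real.continuous_exp.comp (Complex.continuous_re.comp (continuous_const.mul hX)))
  have e2 : ∀ t : ℂ, ∫⁻ θ in Ioc 0 (2 * Real.pi), ENNReal.ofReal (W θ * Real.exp (t * X θ).re) =
      ENNReal.ofReal (∫ θ in (0:ℝ)..(2 * Real.pi), W θ * Real.exp (t * X θ).re) := by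
    intro t
    rw [lint_eq (hct t) (fun θ => mul_nonneg (hW0 θ) (Real.exp_pos _).le)]
  -- Gaussian identity
  have e3 : ∀ θ : ℝ, ENNReal.ofReal (W θ * Real.exp (1 / (4 * b) * ‖X θ‖ ^ 2)) =
      ENNReal.ofReal (b / Real.pi) * ∫⁻ t : ℂ,
        ENNReal.ofReal (W θ * Real.exp ((t * X θ).re - b * ‖t‖ ^ 2)) := by
    intro θ
    have h1 : ∫⁻ t : ℂ, ENNReal.ofReal (W θ * Real.exp ((t * X θ).re - b * ‖t‖ ^ 2)) =
        ENNReal.ofReal (W θ) * ∫⁻ t : ℂ, ENNReal.ofReal (Real.exp ((t * X θ).re - b * ‖t‖ ^ 2)) := by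
      rw [← lintegral_const_mul]
      · congr 1
        funext t
        rw [ENNReal.ofReal_mul (hW0 θ)]
      · apply Measurable.ennreal_ofReal
        apply Continuous.measurable
        fun_prop
    rw [h1, gauss (X θ) b hb, ← ENNReal.ofReal_mul (hW0 θ), ← ENNReal.ofReal_mul (by positivity)]
    congr 1
    field_simp
  have hmeas : Measurable (Function.uncurry fun (θ : ℝ) (t : ℂ) =>
      ENNReal.ofReal (W θ * Real.exp ((t * X θ).re - b * ‖t‖ ^ 2))) := by
    apply Measurable.ennreal_ofReal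
    apply Continuous.measurable
    apply (hW.comp continuous_fst).mul
    apply Real.continuous_exp.comp
    apply Continuous.sub
    · exact Complex.continuous_re.comp (continuous_snd.mul (hX.comp continuous_fst))
    · exact continuous_const.mul (continuous_snd.norm.pow 2)
  have hcE : Continuous fun θ : ℝ => W θ * Real.exp (1 / (4 * b) * ‖X θ‖ ^ 2) :=
    hW.mul (Real.continuous_exp.comp (continuous_const.mul (hX.norm.pow 2)))
  have h1 : ENNReal.ofReal (∫ θ in (0:ℝ)..(2 * Real.pi), W θ * Real.exp (1 / (4 * b) * ‖X θ‖ ^ 2)) =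
      ENNReal.ofReal (b / Real.pi) * ∫⁻ t : ℂ, ENNReal.ofReal (Real.exp (-(b * ‖t‖ ^ 2))) *
        ENNReal.ofReal (∫ θ in (0:ℝ)..(2 * Real.pi), W θ * Real.exp (t * X θ).re) := by
    rw [← lint_eq hcE (fun θ => mul_nonneg (hW0 θ) (Real.exp_pos _).le)]
    simp only [e3]
    rw [lintegral_const_mul]
    · congr 1
      rw [lintegral_lintegral_swap hmeas.aemeasurable]
      congr 1
      funext t
      rw [← e2 t, ← lintegral_const_mul]
      · congr 1
        funext θ
        rw [← ENNReal.ofReal_mul (Real.exp_pos _).le]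
        congr 1
        rw [Real.exp_sub, Real.exp_neg]
        field_simp
      · exact (hct t).measurable.ennreal_ofReal
    · exact hmeas.lintegral_prod_right'
  have h2 : ∫⁻ t : ℂ, ENNReal.ofReal (Real.exp (-(b * ‖t‖ ^ 2))) *
        ENNReal.ofReal (∫ θ in (0:ℝ)..(2 * Real.pi), W θ * Real.exp (t * X θ).re) ≤
      ENNReal.ofReal K * ∫⁻ t : ℂ, ENNReal.ofReal (Real.exp ((t * 0).re - (b - D) * ‖t‖ ^ 2)) := by
    rw [← lintegral_const_mul]
    · apply lintegral_mono
      intro t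
      simp only
      rw [← ENNReal.ofReal_mul (Real.exp_pos _).le, ← ENNReal.ofReal_mul hK]
      apply ENNReal.ofReal_le_ofReal
      calc Real.exp (-(b * ‖t‖ ^ 2)) * (∫ θ in (0:ℝ)..(2 * Real.pi), W θ * Real.exp (t * X θ).re)
          ≤ Real.exp (-(b * ‖t‖ ^ 2)) * (K * Real.exp (D * ‖t‖ ^ 2)) := by
            gcongr
            exact hexp t
        _ = K * (Real.exp (-(b * ‖t‖ ^ 2)) * Real.exp (D * ‖t‖ ^ 2)) := by ring
        _ = _ := by
            rw [← Real.exp_add]
            congr 2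
            simp
            ring
    · apply Measurable.ennreal_ofReal
      apply Continuous.measurable
      fun_prop
  rw [gauss 0 (b - D) hbD] at h2
  have h3 : ENNReal.ofReal (∫ θ in (0:ℝ)..(2 * Real.pi), W θ * Real.exp (1 / (4 * b) * ‖X θ‖ ^ 2)) ≤
      ENNReal.ofReal (K * b / (b - D)) := by
    rw [h1]
    calc ENNReal.ofReal (b / Real.pi) * ∫⁻ t : ℂ, ENNReal.ofReal (Real.exp (-(b * ‖t‖ ^ 2))) *
        ENNReal.ofReal (∫ θ in (0:ℝ)..(2 * Real.pi), W θ * Real.exp (t * X θ).re)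
        ≤ ENNReal.ofReal (b / Real.pi) * (ENNReal.ofReal K *
            ENNReal.ofReal (Real.pi / (b - D) * Real.exp (‖(0:ℂ)‖ ^ 2 / (4 * (b - D))))) := by
          gcongr
      _ = _ := by
          rw [← ENNReal.ofReal_mul (by positivity), ← ENNReal.ofReal_mul (by positivity)]
          congr 1
          simp
          field_simp
  rwa [ENNReal.ofReal_le_ofReal_iff (by positivity)] at h3

end Pool.Agent.Run7.h506.MS
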