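import Mathlib
import Pool.Agent.Run7.h506.MS.B
import Pool.Agent.W677.MarF3

/-! # The local Gaussian estimate at the scale `1 - ρ` -/

set_option autoImplicit false
open Complex Filter Topology Set Metric MeasureTheory

namespace Pool.Agent.Run7.h506.MS

open Q90.SM (S1 S2 Hyp)
open Pool.Agent.TH325.SI (mn em la la_nonneg la_pos cont_cm mn_nonneg cm_mem norm_cm)
open Pool.Agent.W677.Mar (pt strip_bloch re_exp_ge cos_pos' norm_pt)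

theorem hypB (c : ℂ) (M E : ℝ) : ∃ ε : ℝ, 0 ≤ ε ∧ ∀ H : ℂ → ℂ, Hyp c M E H →
    ∀ w ∈ ball (0 : ℂ) 1, ‖deriv H w‖ * (1 - ‖w‖) ≤ ε := by
  obtain ⟨B, hB, hb⟩ := Q90.SM.hp c M E (1 / 2) (by norm_num) (by norm_num)
  refine ⟨B + 2 * (‖c‖ + |M| + |E|), by positivity, ?_⟩
  intro H hH w hw
  have hn : ‖w‖ < 1 := mem_ball_zero_iff.1 hw
  have hn0 := norm_nonneg w
  have hd0 := norm_nonneg (deriv H w)
  rcases le_or_gt ‖w‖ (1 / 2) with h | h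
  · have h1 := hb H hH w h
    have h2 : ‖deriv H w‖ * (1 - ‖w‖) ≤ ‖deriv H w‖ * 1 :=
      mul_le_mul_of_nonneg_left (by linarith) hd0
    have : 0 ≤ 2 * (‖c‖ + |M| + |E|) := by positivity
    linarith
  · have h1 := hH.2.2 w hw
    have hx : 0 < 1 - ‖w‖ ^ 2 := by nlinarith
    have h2 : ‖((1 - ‖w‖ ^ 2 : ℝ) : ℂ) * (w * deriv H w)‖ ≤
        ‖((1 - ‖w‖ ^ 2 : ℝ) : ℂ) * (w * deriv H w) - c‖ + ‖c‖ := by
      have := norm_add_le (((1 - ‖w‖ ^ 2 : ℝ) : ℂ) * (w * deriv H w) - c) c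
      rwa [sub_add_cancel] at this
    rw [norm_mul, norm_mul, Complex.norm_real, Real.norm_of_nonneg hx.le] at h2
    have h3 : E * (1 - ‖w‖ ^ 2) ≤ |E| := by
      calc E * (1 - ‖w‖ ^ 2) ≤ |E| * (1 - ‖w‖ ^ 2) := by
            apply mul_le_mul_of_nonneg_right (le_abs_self E) hx.le
        _ ≤ |E| * 1 := by
            apply mul_le_mul_of_nonneg_left (by nlinarith) (abs_nonneg E)
        _ = |E| := mul_one _
    have h4 : M ≤ |M| := le_abs_self M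
    have h5 : (1 / 2) * (‖deriv H w‖ * (1 - ‖w‖)) ≤ (1 - ‖w‖ ^ 2) * (‖w‖ * ‖deriv H w‖) := by
      have e : (1 - ‖w‖ ^ 2) * (‖w‖ * ‖deriv H w‖) =
          ((1 + ‖w‖) * ‖w‖) * (‖deriv H w‖ * (1 - ‖w‖)) := by ring
      rw [e]
      apply mul_le_mul_of_nonneg_right _ (mul_nonneg hd0 (by linarith))
      nlinarith
    linarith

theorem ebd_par {u : ℝ} (h0 : 0 ≤ u) (h1 : u < 1) : ∃ q ρ₁ : ℝ, 1 < q ∧ q ≤ 2 ∧ q * u < 1 ∧
    0 < ρ₁ ∧ ρ₁ < 1 ∧ ∀ ρ : ℝ, ρ₁ ≤ ρ → 1 / ρ ^ 4 ≤ q := by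
  obtain ⟨q, hq⟩ : ∃ q, q = 1 + (1 - u) / 2 := ⟨_, rfl⟩
  have hq1 : 1 < q := by rw [hq]; linarith
  have hqi : 1 / q < 1 := by rw [div_lt_one (by linarith)]; exact hq1
  have hqi0 : 0 < 1 / q := by positivity
  obtain ⟨η, hη⟩ : ∃ η, η = (1 - 1 / q) / 4 := ⟨_, rfl⟩
  have hη0 : 0 < η := by rw [hη]; linarith
  have hη1 : η < 1 / 4 := by rw [hη]; linarith
  refine ⟨q, 1 - η, hq1, by rw [hq]; linarith, ?_, by linarith, by linarith, ?_⟩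
  · rw [hq]; nlinarith
  · intro ρ hρ
    have h2 : (1 - η) ^ 4 ≤ ρ ^ 4 := pow_le_pow_left₀ (by linarith) hρ 4
    have h3 : 1 - 4 * η ≤ (1 - η) ^ 4 := by
      have : (1 - η) ^ 4 - (1 - 4 * η) = η ^ 2 * (6 - 4 * η + η ^ 2) := by ring
      have h4 : 0 ≤ η ^ 2 * (6 - 4 * η + η ^ 2) := by
        apply mul_nonneg (by positivity)
        nlinarith [sq_nonneg η]
      linarith
    have h5 : 1 / q ≤ ρ ^ 4 := by
      have : 1 - 4 * η = 1 / q := by rw [hη]; ring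
      linarith
    have h6 : 0 < ρ ^ 4 := lt_of_lt_of_le hqi0 h5
    rw [div_le_iff₀ h6]
    rw [div_le_iff₀ (by linarith)] at h5
    linarith

section

variable {c : ℂ} {M E : ℝ} {e g : ℂ → ℂ}

/-- the logarithm of the test function -/
noncomputable def Lf (e g : ℂ → ℂ) (p ρ : ℝ) (t : ℂ) (v : ℂ) : ℂ :=
  p * g (ρ * v) + t * (e v - e (ρ * v))

noncomputable def Tf (e g : ℂ → ℂ) (p ρ : ℝ) (t : ℂ) (v : ℂ) : ℂ := Complex.exp (Lf e g p ρ t v / 2)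

noncomputable def Df (e g : ℂ → ℂ) (p ρ : ℝ) (t : ℂ) (v : ℂ) : ℂ :=
  (1 / 2) * (p * (ρ * v * deriv g (ρ * v)) + t * (v * deriv e v - ρ * v * deriv e (ρ * v)))

theorem mulmem {ρ : ℝ} (h0 : 0 ≤ ρ) (h1 : ρ ≤ 1) {v : ℂ} (hv : v ∈ ball (0 : ℂ) 1) :
    (ρ : ℂ) * v ∈ ball (0 : ℂ) 1 := by
  rw [mem_ball_zero_iff] at hv ⊢
  rw [norm_mul, Complex.norm_real, Real.norm_of_nonneg h0]
  nlinarith [norm_nonneg v]

theorem Lf_der (he : DifferentiableOn ℂ e (ball 0 1)) (hg : DifferentiableOn ℂ g (ball 0 1))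
    (p : ℝ) {ρ : ℝ} (h0 : 0 ≤ ρ) (h1 : ρ ≤ 1) (t : ℂ) {v : ℂ} (hv : v ∈ ball (0 : ℂ) 1) :
    HasDerivAt (Lf e g p ρ t)
      (p * (ρ * deriv g (ρ * v)) + t * (deriv e v - ρ * deriv e (ρ * v))) v := by
  have hm := mulmem h0 h1 hv
  have d0 : HasDerivAt (fun v : ℂ => (ρ : ℂ) * v) (ρ : ℂ) v := by
    simpa using (hasDerivAt_id v).const_mul (ρ : ℂ)
  have d1 : HasDerivAt (fun v : ℂ => g (ρ * v)) (deriv g (ρ * v) * ρ) v :=
    ((hg.differentiableAt (isOpen_ball.mem_nhds hm)).hasDerivAt).comp v d0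
  have d2 : HasDerivAt (fun v : ℂ => e (ρ * v)) (deriv e (ρ * v) * ρ) v :=
    ((he.differentiableAt (isOpen_ball.mem_nhds hm)).hasDerivAt).comp v d0
  have d3 : HasDerivAt e (deriv e v) v := (he.differentiableAt (isOpen_ball.mem_nhds hv)).hasDerivAt
  have d4 := (d1.const_mul (p : ℂ)).add ((d3.sub d2).const_mul t)
  refine d4.congr_deriv ?_
  ring

theorem Tf_der (he : DifferentiableOn ℂ e (ball 0 1)) (hg : DifferentiableOn ℂ g (ball 0 1))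
    (p : ℝ) {ρ : ℝ} (h0 : 0 ≤ ρ) (h1 : ρ ≤ 1) (t : ℂ) {v : ℂ} (hv : v ∈ ball (0 : ℂ) 1) :
    HasDerivAt (Tf e g p ρ t) (Tf e g p ρ t v *
      ((p * (ρ * deriv g (ρ * v)) + t * (deriv e v - ρ * deriv e (ρ * v))) / 2)) v :=
  ((Lf_der he hg p h0 h1 t hv).div_const 2).cexp

theorem Tf_diff (he : DifferentiableOn ℂ e (ball 0 1)) (hg : DifferentiableOn ℂ g (ball 0 1))
    (p : ℝ) {ρ : ℝ} (h0 : 0 ≤ ρ) (h1 : ρ ≤ 1) (t : ℂ) :
    DifferentiableOn ℂ (Tf e g p ρ t) (ball 0 1) :=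
  fun _ hv => (Tf_der he hg p h0 h1 t hv).differentiableAt.differentiableWithinAt

theorem Tf_D (he : DifferentiableOn ℂ e (ball 0 1)) (hg : DifferentiableOn ℂ g (ball 0 1))
    (p : ℝ) {ρ : ℝ} (h0 : 0 ≤ ρ) (h1 : ρ ≤ 1) (t : ℂ) {v : ℂ} (hv : v ∈ ball (0 : ℂ) 1) :
    v * deriv (Tf e g p ρ t) v = Df e g p ρ t v * Tf e g p ρ t v := by
  rw [(Tf_der he hg p h0 h1 t hv).deriv]
  unfold Df
  ring

/-- the logarithmic derivative of the test function -/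
theorem Df_bd (hE : 0 ≤ E) (hM : 0 ≤ M) (H : Hyp c M E e) (hg : DifferentiableOn ℂ g (ball 0 1))
    (him : ∀ z ∈ ball (0 : ℂ) 1, |(g z).im| ≤ Real.pi / 2) {p : ℝ} (hp0 : 0 ≤ p) (hp1 : p < 1)
    {ρ s : ℝ} (hρ0 : 0 < ρ) (hρ1 : ρ < 1) (hs : ρ ≤ s) (hs1 : s < 1) (t : ℂ) {v : ℂ}
    (hv : ‖v‖ = s) :
    ‖((1 - s ^ 2 : ℝ) : ℂ) * Df e g p ρ t v - t * c / 2‖ ≤
      ‖t‖ * M / 2 + (12 + ‖c‖ + M + E) * (1 + ‖t‖) * ((1 - s ^ 2) / (1 - ρ ^ 2)) := by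
  have hs0 : 0 < s := lt_of_lt_of_le hρ0 hs
  have hx0 : 0 < 1 - s ^ 2 := by nlinarith
  have hρ2 : 0 < 1 - ρ ^ 2 := by nlinarith
  have hvb : v ∈ ball (0 : ℂ) 1 := by rw [mem_ball_zero_iff, hv]; exact hs1
  have hm := mulmem hρ0.le hρ1.le hvb
  have hmn : ‖(ρ : ℂ) * v‖ = ρ * s := by
    rw [norm_mul, Complex.norm_real, Real.norm_of_nonneg hρ0.le, hv]
  obtain ⟨σ, hσ⟩ : ∃ σ, σ = (1 - s ^ 2) / (1 - ρ ^ 2) := ⟨_, rfl⟩
  have hσ0 : 0 ≤ σ := by rw [hσ]; positivity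
  have hxσ : 1 - s ^ 2 = σ * (1 - ρ ^ 2) := by rw [hσ]; field_simp
  have hxσ' : 1 - s ^ 2 ≤ σ := by rw [hxσ]; nlinarith [sq_nonneg ρ]
  rw [← hσ]
  have hρs : ρ * s < 1 := by nlinarith
  have hρs0 : 0 < ρ * s := by positivity
  -- the three terms
  have t1 : ‖((1 - s ^ 2 : ℝ) : ℂ) * ((1 / 2) * (p * (ρ * v * deriv g (ρ * v))))‖ ≤ 12 * σ := by
    have h1 := strip_bloch hg him hm
    rw [hmn] at h1
    rw [norm_mul, norm_mul, norm_mul, norm_mul, hmn, Complex.norm_real, Complex.norm_real,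
      Real.norm_of_nonneg hx0.le, Real.norm_of_nonneg hp0]
    have e : ‖(1 / 2 : ℂ)‖ = 1 / 2 := by norm_num
    rw [e]
    have hd0 := norm_nonneg (deriv g (ρ * v))
    have h2 : (1 - s ^ 2) * ‖deriv g (ρ * v)‖ ≤ 24 * σ := by
      have h3 : 1 - ρ ≤ 1 - ρ * s := by nlinarith
      have h4 : ‖deriv g (ρ * v)‖ * (1 - ρ) ≤ 12 :=
        (mul_le_mul_of_nonneg_left h3 hd0).trans h1
      rw [hxσ]
      have h5 : σ * (1 - ρ ^ 2) * ‖deriv g (ρ * v)‖ =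
          (σ * (1 + ρ)) * (‖deriv g (ρ * v)‖ * (1 - ρ)) := by ring
      rw [h5]
      have h6 : σ * (1 + ρ) ≤ σ * 2 := mul_le_mul_of_nonneg_left (by linarith) hσ0
      calc (σ * (1 + ρ)) * (‖deriv g (ρ * v)‖ * (1 - ρ)) ≤ (σ * 2) * 12 := by
            apply mul_le_mul h6 h4 _ (by positivity)
            exact mul_nonneg hd0 (by linarith)
        _ = 24 * σ := by ring
    have h7 : p * (ρ * s) ≤ 1 := by nlinarith
    have h8 : 0 ≤ (1 - s ^ 2) * ‖deriv g (ρ * v)‖ := by positivity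
    have e2 : (1 - s ^ 2) * (1 / 2 * (p * (ρ * s * ‖deriv g (ρ * v)‖))) =
        (1 / 2) * ((p * (ρ * s)) * ((1 - s ^ 2) * ‖deriv g (ρ * v)‖)) := by ring
    rw [e2]
    have h9 := mul_le_mul_of_nonneg_right h7 h8
    linarith
  have t2 : ‖t / 2 * (((1 - s ^ 2 : ℝ) : ℂ) * (v * deriv e v) - c)‖ ≤
      ‖t‖ / 2 * (M + E * σ) := by
    have h1 := H.2.2 v hvb
    rw [hv] at h1
    rw [norm_mul, norm_div]
    have e : ‖(2 : ℂ)‖ = 2 := by norm_num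
    rw [e]
    apply mul_le_mul_of_nonneg_left _ (by positivity)
    have := mul_le_mul_of_nonneg_left hxσ' hE
    linarith
  have t3 : ‖((1 - s ^ 2 : ℝ) : ℂ) * (t / 2 * (ρ * v * deriv e (ρ * v)))‖ ≤
      ‖t‖ / 2 * ((‖c‖ + M + E) * σ) := by
    have h1 := H.2.2 _ hm
    rw [hmn] at h1
    have hy0 : 0 < 1 - (ρ * s) ^ 2 := by nlinarith
    have h2 : ‖((1 - (ρ * s) ^ 2 : ℝ) : ℂ) * (ρ * v * deriv e (ρ * v))‖ ≤
        ‖((1 - (ρ * s) ^ 2 : ℝ) : ℂ) * (ρ * v * deriv e (ρ * v)) - c‖ + ‖c‖ := by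
      have := norm_add_le (((1 - (ρ * s) ^ 2 : ℝ) : ℂ) * (ρ * v * deriv e (ρ * v)) - c) c
      rwa [sub_add_cancel] at this
    rw [norm_mul, Complex.norm_real, Real.norm_of_nonneg hy0.le] at h2
    have h3 : E * (1 - (ρ * s) ^ 2) ≤ E := by nlinarith [sq_nonneg (ρ * s)]
    have h4 : (1 - (ρ * s) ^ 2) * ‖ρ * v * deriv e (ρ * v)‖ ≤ ‖c‖ + M + E := by linarith
    have h5 : 1 - ρ ^ 2 ≤ 1 - (ρ * s) ^ 2 := by
      have : (ρ * s) ^ 2 ≤ ρ ^ 2 := by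
        have : ρ * s ≤ ρ := by nlinarith
        exact pow_le_pow_left₀ hρs0.le this 2
      linarith
    have h6 : (1 - ρ ^ 2) * ‖ρ * v * deriv e (ρ * v)‖ ≤ ‖c‖ + M + E :=
      (mul_le_mul_of_nonneg_right h5 (norm_nonneg _)).trans h4
    rw [norm_mul, norm_mul, norm_div, Complex.norm_real, Real.norm_of_nonneg hx0.le]
    have e0 : ‖(2 : ℂ)‖ = 2 := by norm_num
    rw [e0, hxσ]
    have e2 : σ * (1 - ρ ^ 2) * (‖t‖ / 2 * ‖ρ * v * deriv e (ρ * v)‖) =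
        ‖t‖ / 2 * (((1 - ρ ^ 2) * ‖ρ * v * deriv e (ρ * v)‖) * σ) := by ring
    rw [e2]
    apply mul_le_mul_of_nonneg_left _ (by positivity)
    exact mul_le_mul_of_nonneg_right h6 hσ0
  have e1 : ((1 - s ^ 2 : ℝ) : ℂ) * Df e g p ρ t v - t * c / 2 =
      ((1 - s ^ 2 : ℝ) : ℂ) * ((1 / 2) * (p * (ρ * v * deriv g (ρ * v)))) +
      t / 2 * (((1 - s ^ 2 : ℝ) : ℂ) * (v * deriv e v) - c) -
      ((1 - s ^ 2 : ℝ) : ℂ) * (t / 2 * (ρ * v * deriv e (ρ * v))) := by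
    unfold Df
    ring
  rw [e1]
  refine (norm_sub_le _ _).trans ?_
  have n1 := norm_add_le (((1 - s ^ 2 : ℝ) : ℂ) * ((1 / 2) * (p * (ρ * v * deriv g (ρ * v)))))
    (t / 2 * (((1 - s ^ 2 : ℝ) : ℂ) * (v * deriv e v) - c))
  have hc0 := norm_nonneg c
  have ht0 := norm_nonneg t
  have hfin : 12 * σ + ‖t‖ / 2 * (M + E * σ) + ‖t‖ / 2 * ((‖c‖ + M + E) * σ) ≤
      ‖t‖ * M / 2 + (12 + ‖c‖ + M + E) * (1 + ‖t‖) * σ := by
    have : ‖t‖ * M / 2 + (12 + ‖c‖ + M + E) * (1 + ‖t‖) * σ -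
        (12 * σ + ‖t‖ / 2 * (M + E * σ) + ‖t‖ / 2 * ((‖c‖ + M + E) * σ)) =
        (‖c‖ + M + E) * σ + 12 * ‖t‖ * σ + ‖t‖ / 2 * ((‖c‖ + M) * σ) := by ring
    have h2 : 0 ≤ (‖c‖ + M + E) * σ + 12 * ‖t‖ * σ + ‖t‖ / 2 * ((‖c‖ + M) * σ) := by positivity
    linarith
  linarith

/-- the square of the absolute value of the test function -/
theorem Tf_sq (p ρ : ℝ) (t v : ℂ) : ‖Tf e g p ρ t v‖ ^ 2 =
    Real.exp (p * (g (ρ * v)).re) * Real.exp (t * (e v - e (ρ * v))).re := by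
  unfold Tf Lf
  rw [Complex.norm_exp, ← Real.exp_nat_mul, ← Real.exp_add]
  congr 1
  have : ((2:ℕ):ℝ) * ((p * g (ρ * v) + t * (e v - e (ρ * v))) / 2).re =
      (((2:ℝ):ℂ) * ((p * g (ρ * v) + t * (e v - e (ρ * v))) / 2)).re := by
    rw [Complex.re_ofReal_mul]
    norm_num
  rw [this]
  have e2 : ((2:ℝ):ℂ) * ((p * g (ρ * v) + t * (e v - e (ρ * v))) / 2) =
      (p : ℂ) * g (ρ * v) + t * (e v - e (ρ * v)) := by
    push_cast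
    ring
  rw [e2, Complex.add_re, Complex.re_ofReal_mul]

end

end Pool.Agent.Run7.h506.MS
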