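import Mathlib
import Pool.Agent.Run7.h506.MS.C

/-! # The local Gaussian estimate at the scale `1 - ρ`, continued -/

set_option autoImplicit false
open Complex Filter Topology Set Metric MeasureTheory

namespace Pool.Agent.Run7.h506.MS

open Q90.SM (S1 S2 Hyp)
open Pool.Agent.TH325.SI (mn em la la_nonneg la_pos cont_cm mn_nonneg cm_mem norm_cm)
open Pool.Agent.W677.Mar (pt strip_bloch re_exp_ge cos_pos' norm_pt)

section

variable {c : ℂ} {M E : ℝ} {e g : ℂ → ℂ}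

theorem Tf_pos (he : DifferentiableOn ℂ e (ball 0 1)) (hg : DifferentiableOn ℂ g (ball 0 1))
    (p : ℝ) {ρ : ℝ} (h0 : 0 ≤ ρ) (h1 : ρ ≤ 1) (t : ℂ) {s : ℝ} (hs : 0 < s) (hs1 : s < 1) :
    0 < mn (Tf e g p ρ t) s := by
  unfold mn
  have hpi := Real.pi_pos
  apply mul_pos (by positivity)
  apply intervalIntegral.intervalIntegral_pos_of_pos
  · exact ((cont_cm (Tf_diff he hg p h0 h1 t) hs hs1).norm.pow 2).intervalIntegrable _ _
  · intro θ
    have : Tf e g p ρ t (circleMap 0 s θ) ≠ 0 := Complex.exp_ne_zero _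
    positivity
  · positivity

/-- the starting value -/
theorem Tf_start (he : DifferentiableOn ℂ e (ball 0 1)) (hg : DifferentiableOn ℂ g (ball 0 1))
    (him : ∀ z ∈ ball (0 : ℂ) 1, |(g z).im| ≤ Real.pi / 2) {p : ℝ} (hp0 : 0 ≤ p) (hp1 : p < 1)
    {ε : ℝ} (hε : ∀ w ∈ ball (0 : ℂ) 1, ‖deriv e w‖ * (1 - ‖w‖) ≤ ε)
    {ρ : ℝ} (hρ0 : 0 < ρ) (hρ1 : ρ < 1) (t : ℂ) :
    mn (Tf e g p ρ t) ρ ≤ Real.exp (p * (g 0).re) / Real.cos (p * (Real.pi / 2)) *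
      Real.exp (‖t‖ * ε) := by
  have hpi := Real.pi_pos
  obtain ⟨κ, hκ⟩ : ∃ κ, κ = Real.cos (p * (Real.pi / 2)) := ⟨_, rfl⟩
  have hκ0 : 0 < κ := hκ ▸ cos_pos' hp0 hp1
  rw [← hκ]
  -- the function `exp (p g (ρ v))`
  set f : ℂ → ℂ := fun v => Complex.exp (((1 * p : ℝ) : ℂ) * g (ρ * v)) with hf
  have hfd : DifferentiableOn ℂ f (ball 0 1) := by
    apply DifferentiableOn.cexp
    apply DifferentiableOn.const_mul
    exact hg.comp (differentiableOn_id.const_mul _) (fun v hv => mulmem hρ0.le hρ1.le hv)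
  have hmean : ∫ θ in (0:ℝ)..(2 * Real.pi), (f (circleMap 0 ρ θ) - f 0) = 0 := by
    apply Q90.SM.mean_zero (H := fun v => f v - f 0) (hfd.sub_const _) (by simp) hρ0 hρ1
  have hcf := cont_cm hfd hρ0 hρ1
  have hmean2 : ∫ θ in (0:ℝ)..(2 * Real.pi), (f (circleMap 0 ρ θ)).re = 2 * Real.pi * (f 0).re := by
    rw [intervalIntegral.integral_sub (hcf.intervalIntegrable _ _) (by simp)] at hmean
    have h1 := congrArg Complex.re hmean
    have h2 := Complex.reCLM.intervalIntegral_comp_comm (μ := volume) (a := 0) (b := 2 * Real.pi)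
      (f := fun θ => f (circleMap 0 ρ θ)) (hcf.intervalIntegrable _ _)
    simp only [Complex.reCLM_apply] at h2
    rw [h2]
    simp at h1
    linarith
  have hf0 : (f 0).re ≤ Real.exp (p * (g 0).re) := by
    refine (Complex.re_le_norm _).trans (le_of_eq ?_)
    simp only [hf]
    rw [Complex.norm_exp, Complex.re_ofReal_mul, mul_zero, one_mul]
  have hpt : ∀ θ : ℝ, ‖Tf e g p ρ t (circleMap 0 ρ θ)‖ ^ 2 ≤
      (Real.exp (‖t‖ * ε) / κ) * (f (circleMap 0 ρ θ)).re := by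
    intro θ
    have hn := norm_cm hρ0 θ
    have hvb := cm_mem hρ0 hρ1 θ
    set v := circleMap 0 ρ θ with hv
    have hm := mulmem hρ0.le hρ1.le hvb
    rw [Tf_sq]
    have h1 := re_exp_ge hp0 hp1 (ε := 1) (by simp) (him _ hm)
    rw [← hκ] at h1
    have h2 : ‖e v - e (ρ * v)‖ ≤ ε := by
      have h3 : ∀ x ∈ closedBall (0:ℂ) ρ, DifferentiableAt ℂ e x := by
        intro x hx
        apply he.differentiableAt
        apply isOpen_ball.mem_nhds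
        rw [mem_ball_zero_iff]
        rw [mem_closedBall_zero_iff] at hx
        linarith
      have h4 : ∀ x ∈ closedBall (0:ℂ) ρ, ‖deriv e x‖ ≤ ε / (1 - ρ) := by
        intro x hx
        rw [mem_closedBall_zero_iff] at hx
        have h5 := hε x (by rw [mem_ball_zero_iff]; linarith)
        rw [le_div_iff₀ (by linarith)]
        exact (mul_le_mul_of_nonneg_left (by linarith) (norm_nonneg _)).trans h5
      have h6 := Convex.norm_image_sub_le_of_norm_deriv_le (f := e) (s := closedBall (0:ℂ) ρ)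
        (x := ρ * v) (y := v) (C := ε / (1 - ρ)) h3 h4 (convex_closedBall 0 ρ)
        (by
          rw [mem_closedBall_zero_iff, norm_mul, Complex.norm_real, Real.norm_of_nonneg hρ0.le, hn]
          nlinarith) (by rw [mem_closedBall_zero_iff, hn])
      refine h6.trans ?_
      have h7 : ‖v - ρ * v‖ = (1 - ρ) * ρ := by
        have : v - ρ * v = ((1 - ρ : ℝ) : ℂ) * v := by push_cast; ring
        rw [this, norm_mul, Complex.norm_real, Real.norm_of_nonneg (by linarith), hn]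
      rw [h7]
      have hε0 : 0 ≤ ε := by
        have := hε 0 (mem_ball_self one_pos)
        rw [norm_zero, sub_zero, mul_one] at this
        exact (norm_nonneg _).trans this
      have : ε / (1 - ρ) * ((1 - ρ) * ρ) = ε * ρ := by
        have : 1 - ρ ≠ 0 := by linarith
        field_simp
      rw [this]
      nlinarith
    have h3 : Real.exp (t * (e v - e (ρ * v))).re ≤ Real.exp (‖t‖ * ε) := by
      apply Real.exp_le_exp.2
      refine (Complex.re_le_norm _).trans ?_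
      rw [norm_mul]
      exact mul_le_mul_of_nonneg_left h2 (norm_nonneg _)
    have h4 : Real.exp (p * (g (ρ * v)).re) ≤ (f v).re / κ := by
      rw [le_div_iff₀ hκ0, mul_comm]
      simp only [hf]
      simp only [one_mul] at h1 ⊢
      exact h1
    have h5 : 0 ≤ (f v).re / κ := (Real.exp_pos _).le.trans h4
    calc Real.exp (p * (g (ρ * v)).re) * Real.exp (t * (e v - e (ρ * v))).re
        ≤ ((f v).re / κ) * Real.exp (‖t‖ * ε) := mul_le_mul h4 h3 (Real.exp_pos _).le h5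
      _ = _ := by ring
  have hc := cont_cm (Tf_diff he hg p hρ0.le hρ1.le t) hρ0 hρ1
  have hint : ∫ θ in (0:ℝ)..(2 * Real.pi), ‖Tf e g p ρ t (circleMap 0 ρ θ)‖ ^ 2 ≤
      ∫ θ in (0:ℝ)..(2 * Real.pi), (Real.exp (‖t‖ * ε) / κ) * (f (circleMap 0 ρ θ)).re := by
    apply intervalIntegral.integral_mono_on (by positivity)
    · exact (hc.norm.pow 2).intervalIntegrable _ _
    · exact (continuous_const.mul (Complex.continuous_re.comp hcf)).intervalIntegrable _ _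
    · intro θ _
      exact hpt θ
  rw [intervalIntegral.integral_const_mul, hmean2, int_mn] at hint
  have h6 : (2 * Real.pi) * mn (Tf e g p ρ t) ρ ≤
      (2 * Real.pi) * (Real.exp (p * (g 0).re) / κ * Real.exp (‖t‖ * ε)) := by
    refine hint.trans ?_
    have h7 : Real.exp (‖t‖ * ε) / κ * (2 * Real.pi * (f 0).re) ≤
        Real.exp (‖t‖ * ε) / κ * (2 * Real.pi * Real.exp (p * (g 0).re)) := by
      apply mul_le_mul_of_nonneg_left _ (by positivity)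
      exact mul_le_mul_of_nonneg_left hf0 (by positivity)
    refine h7.trans (le_of_eq ?_)
    ring
  exact le_of_mul_le_mul_left h6 (by positivity)

/-- growth of the mean -/
theorem Tf_growth (hE : 0 ≤ E) (hM : 0 ≤ M) (H : Hyp c M E e)
    (hg : DifferentiableOn ℂ g (ball 0 1))
    (him : ∀ z ∈ ball (0 : ℂ) 1, |(g z).im| ≤ Real.pi / 2) {p : ℝ} (hp0 : 0 ≤ p) (hp1 : p < 1)
    {ε : ℝ} (hε : ∀ w ∈ ball (0 : ℂ) 1, ‖deriv e w‖ * (1 - ‖w‖) ≤ ε) {κ q : ℝ}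
    (hκ : κ = 12 + ‖c‖ + M + E) (hq1 : 1 ≤ q) (hq2 : q ≤ 2)
    {ρ r : ℝ} (hρ0 : 0 < ρ) (hρ1 : ρ < 1) (hρq : 1 / ρ ^ 4 ≤ q) (hr : ρ ≤ r) (hr1 : r < 1) (t : ℂ) :
    mn (Tf e g p ρ t) r ≤ Real.exp (p * (g 0).re) / Real.cos (p * (Real.pi / 2)) *
      Real.exp (q * (M ^ 2 / 4) * ‖t‖ ^ 2 * (la r - la ρ) +
        (8 * κ + 6 * κ ^ 2 + ε) * (1 + ‖t‖ ^ 2)) := by
  have hpi := Real.pi_pos
  have he := H.1
  have hc0 := norm_nonneg c
  have hκ12 : 12 ≤ κ := by rw [hκ]; linarith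
  have hε0 : 0 ≤ ε := by
    have := hε 0 (mem_ball_self one_pos)
    rw [norm_zero, sub_zero, mul_one] at this
    exact (norm_nonneg _).trans this
  obtain ⟨T, hT⟩ : ∃ T, T = ‖t‖ := ⟨_, rfl⟩
  have hT0 : 0 ≤ T := hT ▸ norm_nonneg t
  obtain ⟨A, hA⟩ : ∃ A, A = T * M / 2 := ⟨_, rfl⟩
  obtain ⟨B, hB⟩ : ∃ B, B = κ * (1 + T) := ⟨_, rfl⟩
  have hA0 : 0 ≤ A := by rw [hA]; positivity
  have hB0 : 0 ≤ B := by rw [hB]; positivity
  obtain ⟨w, hw⟩ : ∃ w : ℂ, w = t * c / 2 := ⟨_, rfl⟩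
  have hwn : ‖w‖ = T * ‖c‖ / 2 := by
    rw [hw, norm_div, norm_mul, hT]
    norm_num
  have hFd := Tf_diff he hg p hρ0.le hρ1.le t
  have hbd : ∀ s, ρ ≤ s → s < 1 → ∀ v : ℂ, ‖v‖ = s →
      ‖((1 - s ^ 2 : ℝ) : ℂ) * Df e g p ρ t v - w‖ ≤ A + B * ((1 - s ^ 2) / (1 - ρ ^ 2)) := by
    intro s hs hs1 v hv
    have := Df_bd hE hM H hg him hp0 hp1 hρ0 hρ1 hs hs1 t hv
    rw [← hκ, ← hw, ← hT] at this
    rw [hA, hB]
    exact this
  have hD : ∀ s, s < 1 → ∀ v : ℂ, ‖v‖ = s →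
      v * deriv (Tf e g p ρ t) v = Df e g p ρ t v * Tf e g p ρ t v := by
    intro s hs1 v hv
    exact Tf_D he hg p hρ0.le hρ1.le t (by rw [mem_ball_zero_iff, hv]; exact hs1)
  have hρ2 : 0 < 1 - ρ ^ 2 := by nlinarith
  have hode := ode1 (P := mn (Tf e g p ρ t)) (N1 := S1 (Tf e g p ρ t)) (N2 := S2 (Tf e g p ρ t))
    (s0 := ρ) (A := A) (B := B) (d := w.re) (γ := ‖w‖) hρ0 hρ1 hA0 hB0 (Complex.abs_re_le_norm w)
    (by
      intro s hs hs1
      have hs0 : 0 < s := lt_of_lt_of_le hρ0 hs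
      obtain ⟨a1, a2⟩ := Q275.SM.ana1 (Tf e g p ρ t) hFd s hs0 hs1
      obtain ⟨-, b2, -⟩ := Pool.Agent.Q216.SM.ana2 (Tf e g p ρ t) hFd s hs0 hs1
      exact ⟨Tf_pos he hg p hρ0.le hρ1.le t hs0 hs1, b2, a1, a2,
        star1 hFd hs0 hs1 (hD s hs1) (hbd s hs hs1)⟩) hr hr1
  have hslope := slope hFd hρ0 hρ1 (G := ‖w‖ + (A + B)) (hD ρ hρ1) (by
    intro v hv
    have h1 := hbd ρ le_rfl hρ1 v hv
    rw [div_self hρ2.ne', mul_one] at h1
    have h2 := norm_add_le (((1 - ρ ^ 2 : ℝ) : ℂ) * Df e g p ρ t v - w) w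
    rw [sub_add_cancel] at h2
    linarith)
  have hP0 := Tf_pos he hg p hρ0.le hρ1.le t hρ0 hρ1
  have hPr := Tf_pos he hg p hρ0.le hρ1.le t (lt_of_lt_of_le hρ0 hr) hr1
  have hstart := Tf_start he hg him hp0 hp1 hε hρ0 hρ1 t
  obtain ⟨P0, hP0d⟩ : ∃ P0, P0 = mn (Tf e g p ρ t) ρ := ⟨_, rfl⟩
  obtain ⟨Pr, hPrd⟩ : ∃ Pr, Pr = mn (Tf e g p ρ t) r := ⟨_, rfl⟩
  obtain ⟨N, hN⟩ : ∃ N, N = S1 (Tf e g p ρ t) ρ := ⟨_, rfl⟩
  obtain ⟨K0, hK0⟩ : ∃ K0, K0 = Real.exp (p * (g 0).re) / Real.cos (p * (Real.pi / 2)) := ⟨_, rfl⟩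
  rw [← hP0d, ← hN, ← hPrd] at hode
  rw [← hP0d, ← hN] at hslope
  rw [← hP0d] at hP0 hstart
  rw [← hPrd] at hPr ⊢
  rw [← hK0, ← hT] at hstart ⊢
  have hla : 0 ≤ la r - la ρ := by
    unfold la
    have : Real.log (1 - r ^ 2) ≤ Real.log (1 - ρ ^ 2) := by
      apply Real.log_le_log (by nlinarith)
      nlinarith
    linarith
  obtain ⟨y, hy⟩ : ∃ y, y = la r - la ρ := ⟨_, rfl⟩
  rw [← hy] at hode hla ⊢
  -- divide by `ρ ^ 2`
  have hX : (1 - ρ ^ 2) * N / P0 ≤ ‖w‖ + (A + B) := by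
    rw [div_le_iff₀ hP0]
    exact hslope
  have hρ2' : 0 < ρ ^ 2 := by positivity
  have hY0 : 0 ≤ A ^ 2 * y + 2 * A * B + B ^ 2 / 2 := by positivity
  have hlog : Real.log Pr ≤ Real.log P0 + q * (‖w‖ + (A + B)) +
      q * (A ^ 2 * y + 2 * A * B + B ^ 2 / 2) := by
    have h1 : Real.log Pr ≤ Real.log P0 + (1 / ρ ^ 2) * (‖w‖ + (A + B)) +
        (1 / ρ ^ 4) * (A ^ 2 * y + 2 * A * B + B ^ 2 / 2) := by
      have h2 : ρ ^ 2 * Real.log Pr ≤ ρ ^ 2 * (Real.log P0 + (1 / ρ ^ 2) * (‖w‖ + (A + B)) +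
        (1 / ρ ^ 4) * (A ^ 2 * y + 2 * A * B + B ^ 2 / 2)) := by
        have e1 : ρ ^ 2 * (Real.log P0 + (1 / ρ ^ 2) * (‖w‖ + (A + B)) +
          (1 / ρ ^ 4) * (A ^ 2 * y + 2 * A * B + B ^ 2 / 2)) =
          ρ ^ 2 * Real.log P0 + (‖w‖ + (A + B)) +
          (1 / ρ ^ 2) * (A ^ 2 * y + 2 * A * B + B ^ 2 / 2) := by
          field_simp
        rw [e1]
        linarith
      exact le_of_mul_le_mul_left h2 hρ2'
    have h3 : 1 / ρ ^ 2 ≤ q := by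
      refine le_trans ?_ hρq
      rw [div_le_div_iff₀ hρ2' (by positivity)]
      have : ρ ^ 4 = ρ ^ 2 * ρ ^ 2 := by ring
      nlinarith
    have h4 := mul_le_mul_of_nonneg_right h3 (by positivity : 0 ≤ ‖w‖ + (A + B))
    have h5 := mul_le_mul_of_nonneg_right hρq hY0
    linarith
  have hK0p : 0 < K0 := by
    rw [hK0]
    have := cos_pos' hp0 hp1
    positivity
  have hlog0 : Real.log P0 ≤ Real.log K0 + T * ε := by
    have h1 := Real.log_le_log hP0 hstart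
    rw [Real.log_mul hK0p.ne' (Real.exp_pos _).ne', Real.log_exp] at h1
    exact h1
  -- constants
  have hkey : q * (‖w‖ + (A + B)) + q * (A ^ 2 * y + 2 * A * B + B ^ 2 / 2) + T * ε ≤
      q * (M ^ 2 / 4) * T ^ 2 * y + (8 * κ + 6 * κ ^ 2 + ε) * (1 + T ^ 2) := by
    have hM1 : M + ‖c‖ ≤ κ := by rw [hκ]; linarith
    have h1 : ‖w‖ + (A + B) ≤ 2 * κ * (1 + T) := by
      rw [hwn, hA, hB]
      have : T * (M + ‖c‖) ≤ T * κ := mul_le_mul_of_nonneg_left hM1 hT0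
      have h2 : T * κ ≤ κ * (1 + T) := by nlinarith
      linarith
    have h2 : 2 * A * B + B ^ 2 / 2 ≤ 3 / 2 * (κ ^ 2 * (1 + T) ^ 2) := by
      have h3 : A ≤ κ * (1 + T) / 2 := by
        rw [hA]
        have : T * M ≤ T * κ := mul_le_mul_of_nonneg_left (by linarith) hT0
        nlinarith
      have h4 : 2 * A * B ≤ κ * (1 + T) * B := by
        have := mul_le_mul_of_nonneg_right h3 hB0
        linarith
      rw [hB] at h4 ⊢
      have e1 : κ * (1 + T) * (κ * (1 + T)) = κ ^ 2 * (1 + T) ^ 2 := by ring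
      have e2 : (κ * (1 + T)) ^ 2 = κ ^ 2 * (1 + T) ^ 2 := by ring
      rw [e2]
      linarith
    have h3 : (1 + T) ≤ 2 * (1 + T ^ 2) := by nlinarith [sq_nonneg (T - 1)]
    have h4 : (1 + T) ^ 2 ≤ 2 * (1 + T ^ 2) := by nlinarith [sq_nonneg (T - 1)]
    have h5 : T ≤ 1 + T ^ 2 := by nlinarith [sq_nonneg (T - 1)]
    have h6 : q * (‖w‖ + (A + B)) ≤ 2 * (2 * κ * (2 * (1 + T ^ 2))) := by
      have h7 : ‖w‖ + (A + B) ≤ 2 * κ * (2 * (1 + T ^ 2)) :=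
        h1.trans (mul_le_mul_of_nonneg_left h3 (by positivity))
      have h8 : 0 ≤ 2 * κ * (2 * (1 + T ^ 2)) := by positivity
      calc q * (‖w‖ + (A + B)) ≤ q * (2 * κ * (2 * (1 + T ^ 2))) :=
            mul_le_mul_of_nonneg_left h7 (by linarith)
        _ ≤ _ := mul_le_mul_of_nonneg_right hq2 h8
    have h7 : q * (2 * A * B + B ^ 2 / 2) ≤ 2 * (3 / 2 * (κ ^ 2 * (2 * (1 + T ^ 2)))) := by
      have h8 : 2 * A * B + B ^ 2 / 2 ≤ 3 / 2 * (κ ^ 2 * (2 * (1 + T ^ 2))) := by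
        refine h2.trans ?_
        apply mul_le_mul_of_nonneg_left _ (by norm_num)
        exact mul_le_mul_of_nonneg_left h4 (by positivity)
      have h9 : 0 ≤ 3 / 2 * (κ ^ 2 * (2 * (1 + T ^ 2))) := by positivity
      calc q * (2 * A * B + B ^ 2 / 2) ≤ q * (3 / 2 * (κ ^ 2 * (2 * (1 + T ^ 2)))) :=
            mul_le_mul_of_nonneg_left h8 (by linarith)
        _ ≤ _ := mul_le_mul_of_nonneg_right hq2 h9
    have h8 : q * (A ^ 2 * y) = q * (M ^ 2 / 4) * T ^ 2 * y := by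
      rw [hA]
      ring
    have h9 : T * ε ≤ ε * (1 + T ^ 2) := by
      rw [mul_comm]
      exact mul_le_mul_of_nonneg_left h5 hε0
    have e1 : q * (A ^ 2 * y + 2 * A * B + B ^ 2 / 2) =
        q * (A ^ 2 * y) + q * (2 * A * B + B ^ 2 / 2) := by ring
    rw [e1, h8]
    have e2 : (8 * κ + 6 * κ ^ 2 + ε) * (1 + T ^ 2) = 2 * (2 * κ * (2 * (1 + T ^ 2))) +
        2 * (3 / 2 * (κ ^ 2 * (2 * (1 + T ^ 2)))) + ε * (1 + T ^ 2) := by ring
    rw [e2]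
    linarith
  have h1 : Real.log Pr ≤ Real.log K0 + (q * (M ^ 2 / 4) * T ^ 2 * y +
      (8 * κ + 6 * κ ^ 2 + ε) * (1 + T ^ 2)) := by linarith
  have h2 := Real.exp_le_exp.2 h1
  rw [Real.exp_log hPr, Real.exp_add, Real.exp_log hK0p] at h2
  exact h2

end

/-- **the local Gaussian estimate** -/
theorem ebd (c : ℂ) (M E p c₂ : ℝ) (hM : 0 ≤ M) (hE : 0 ≤ E) (hp0 : 0 ≤ p) (hp1 : p < 1)
    (hc₂ : 0 < c₂) (hcM : c₂ * M ^ 2 < 1) : ∃ ρ₁ Λ₀ C : ℝ, 0 < ρ₁ ∧ ρ₁ < 1 ∧ 0 < Λ₀ ∧ 0 ≤ C ∧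
    ∀ (e g : ℂ → ℂ), Hyp c M E e → DifferentiableOn ℂ g (ball 0 1) →
      (∀ z ∈ ball (0 : ℂ) 1, |(g z).im| ≤ Real.pi / 2) → ∀ ρ r L' : ℝ, ρ₁ ≤ ρ → ρ ≤ r → r < 1 →
      Λ₀ ≤ L' → la r - la ρ ≤ L' + 2 →
      ∫ θ in (0:ℝ)..(2 * Real.pi), Real.exp (p * (g (ρ * circleMap 0 r θ)).re) *
        Real.exp (c₂ / L' * ‖e (circleMap 0 r θ) - e (ρ * circleMap 0 r θ)‖ ^ 2) ≤
        C * Real.exp (p * (g 0).re) := by
  have hpi := Real.pi_pos
  obtain ⟨q, ρ₁, hq1, hq2, hqu, hρ₁0, hρ₁1, hρq⟩ := ebd_par (u := c₂ * M ^ 2) (by positivity) hcM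
  obtain ⟨ε, hε0, hε⟩ := hypB c M E
  obtain ⟨κ, hκ⟩ : ∃ κ, κ = 12 + ‖c‖ + M + E := ⟨_, rfl⟩
  obtain ⟨κ₅, hκ₅⟩ : ∃ κ₅, κ₅ = 8 * κ + 6 * κ ^ 2 + ε := ⟨_, rfl⟩
  have hκ12 : 12 ≤ κ := by rw [hκ]; linarith [norm_nonneg c]
  have hκ₅0 : 0 < κ₅ := by rw [hκ₅]; positivity
  obtain ⟨κ₆, hκ₆⟩ : ∃ κ₆, κ₆ = q * M ^ 2 / 2 + κ₅ := ⟨_, rfl⟩
  have hκ₆0 : 0 < κ₆ := by rw [hκ₆]; positivity
  obtain ⟨ω, hω⟩ : ∃ ω, ω = 1 - q * (c₂ * M ^ 2) := ⟨_, rfl⟩
  have hω0 : 0 < ω := by rw [hω]; linarith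
  have hcos := cos_pos' hp0 hp1
  refine ⟨ρ₁, 8 * c₂ * κ₆ / ω, (2 * Real.pi * Real.exp κ₅ / Real.cos (p * (Real.pi / 2))) * (2 / ω),
    hρ₁0, hρ₁1, by positivity, by positivity, ?_⟩
  intro e g H hg him ρ r L' hρ hr hr1 hL' hla
  have he := H.1
  have hρ0 : 0 < ρ := lt_of_lt_of_le hρ₁0 hρ
  have hρ1 : ρ < 1 := lt_of_le_of_lt hr hr1
  have hr0 : 0 < r := lt_of_lt_of_le hρ0 hr
  have hL0 : 0 < L' := lt_of_lt_of_le (by positivity) hL'
  have hge : DifferentiableOn ℂ (fun v => g (ρ * v)) (ball 0 1) :=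
    hg.comp (differentiableOn_id.const_mul _) (fun v hv => mulmem hρ0.le hρ1.le hv)
  have hee : DifferentiableOn ℂ (fun v => e v - e (ρ * v)) (ball 0 1) :=
    he.sub (he.comp (differentiableOn_id.const_mul _) (fun v hv => mulmem hρ0.le hρ1.le hv))
  have hcg := cont_cm hge hr0 hr1
  have hce := cont_cm hee hr0 hr1
  have hcW : Continuous fun θ : ℝ => Real.exp (p * (g (ρ * circleMap 0 r θ)).re) :=
    Real.continuous_exp.comp (continuous_const.mul (Complex.continuous_re.comp hcg))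
  have hexp : ∀ t : ℂ, ∫ θ in (0:ℝ)..(2 * Real.pi), Real.exp (p * (g (ρ * circleMap 0 r θ)).re) *
      Real.exp (t * (e (circleMap 0 r θ) - e (ρ * circleMap 0 r θ))).re ≤
      (2 * Real.pi * Real.exp κ₅ / Real.cos (p * (Real.pi / 2)) * Real.exp (p * (g 0).re)) *
        Real.exp ((q * (M ^ 2 / 4) * (L' + 2) + κ₅) * ‖t‖ ^ 2) := by
    intro t
    have h1 := Tf_growth hE hM H hg him hp0 hp1 (hε e H) hκ hq1.le hq2 hρ0 hρ1 (hρq ρ hρ) hr hr1 t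
    have h2 : ∫ θ in (0:ℝ)..(2 * Real.pi), Real.exp (p * (g (ρ * circleMap 0 r θ)).re) *
        Real.exp (t * (e (circleMap 0 r θ) - e (ρ * circleMap 0 r θ))).re =
        2 * Real.pi * mn (Tf e g p ρ t) r := by
      rw [← int_mn]
      apply intervalIntegral.integral_congr
      intro θ _
      simp only
      rw [Tf_sq]
    rw [h2]
    have h3 : Real.exp (q * (M ^ 2 / 4) * ‖t‖ ^ 2 * (la r - la ρ) +
        (8 * κ + 6 * κ ^ 2 + ε) * (1 + ‖t‖ ^ 2)) ≤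
        Real.exp κ₅ * Real.exp ((q * (M ^ 2 / 4) * (L' + 2) + κ₅) * ‖t‖ ^ 2) := by
      rw [← Real.exp_add, ← hκ₅]
      apply Real.exp_le_exp.2
      have h4 : q * (M ^ 2 / 4) * ‖t‖ ^ 2 * (la r - la ρ) ≤
          q * (M ^ 2 / 4) * ‖t‖ ^ 2 * (L' + 2) :=
        mul_le_mul_of_nonneg_left hla (by positivity)
      have e1 : κ₅ + (q * (M ^ 2 / 4) * (L' + 2) + κ₅) * ‖t‖ ^ 2 =
          q * (M ^ 2 / 4) * ‖t‖ ^ 2 * (L' + 2) + κ₅ * (1 + ‖t‖ ^ 2) := by ring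
      rw [e1]
      linarith
    have h5 := h1.trans (mul_le_mul_of_nonneg_left h3 (by positivity))
    have h6 := mul_le_mul_of_nonneg_left h5 (by positivity : (0:ℝ) ≤ 2 * Real.pi)
    refine h6.trans (le_of_eq ?_)
    ring
  obtain ⟨b, hb⟩ : ∃ b, b = L' / (4 * c₂) := ⟨_, rfl⟩
  have hb0 : 0 < b := by rw [hb]; positivity
  have hbD : b * ω / 2 ≤ b - (q * (M ^ 2 / 4) * (L' + 2) + κ₅) := by
    have h1 : q * (M ^ 2 / 4) * (L' + 2) + κ₅ = b * (q * (c₂ * M ^ 2)) + κ₆ := by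
      rw [hκ₆, hb]
      field_simp
      ring
    have h2 : κ₆ ≤ b * ω / 2 := by
      rw [div_le_iff₀ hω0] at hL'
      rw [hb]
      have e1 : L' / (4 * c₂) * ω / 2 = (L' * ω) / (8 * c₂) := by
        field_simp
        ring
      rw [e1, le_div_iff₀ (by positivity)]
      linarith
    have h3 : b * (q * (c₂ * M ^ 2)) = b - b * ω := by rw [hω]; ring
    rw [h1, h3]
    linarith
  have hDb : q * (M ^ 2 / 4) * (L' + 2) + κ₅ < b := by
    have : 0 < b * ω / 2 := by positivity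
    linarith
  have hfin := gavgW hcW (fun θ => (Real.exp_pos _).le) hce (K := 2 * Real.pi * Real.exp κ₅ /
    Real.cos (p * (Real.pi / 2)) * Real.exp (p * (g 0).re)) (by positivity) hDb hb0 hexp
  have e1 : 1 / (4 * b) = c₂ / L' := by
    rw [hb]
    field_simp
  rw [e1] at hfin
  refine hfin.trans ?_
  obtain ⟨K, hK⟩ : ∃ K, K = 2 * Real.pi * Real.exp κ₅ /
    Real.cos (p * (Real.pi / 2)) * Real.exp (p * (g 0).re) := ⟨_, rfl⟩
  have hK0 : 0 ≤ K := by rw [hK]; positivity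
  rw [← hK]
  have h4 : K * b / (b - (q * (M ^ 2 / 4) * (L' + 2) + κ₅)) ≤ K * b / (b * ω / 2) := by
    apply div_le_div_of_nonneg_left (by positivity) (by positivity) hbD
  refine h4.trans (le_of_eq ?_)
  rw [hK]
  field_simp

end Pool.Agent.Run7.h506.MS
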