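import Mathlib
import Pool.Agent.Run7.h506.MS.D

/-! # The dilated data, differences along the rays, and the pointwise estimates -/

set_option autoImplicit false

namespace Pool.Agent.Run7.h506.MS

open Complex Metric Set Filter Topology MeasureTheory
open Pool.Agent.W677.Mar

/-- bound for `Q` -/
theorem Q_bloch' {K A ε : ℝ} {Y H Q P g b e : ℂ → ℂ} {u : ℂ} (S : Sg Y H)
    (D : DC K A ε H Q P g b e u) {w : ℂ}
    (hw : w ∈ ball (0 : ℂ) 1) : ‖Q w‖ * (1 - ‖w‖) ≤ 18 + ε + 2 * A := by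
  have hn : ‖w‖ < 1 := mem_ball_zero_iff.1 hw
  have h1 := H_bloch S hw
  have h2 := strip_bloch D.dg D.sg hw
  have h3 := cauchy_half D.db hw (M := A) (by
    intro x hx
    apply D.bb
    apply ball_sub' hw
    rw [mem_ball_iff_norm]
    linarith)
  have h4 := D.be w hw
  have e1 : Q w = w * (u * deriv g w + deriv b w + deriv e w - deriv H w) := by
    have := D.eq w hw
    linear_combination this
  have h5 : ‖u * deriv g w + deriv b w + deriv e w - deriv H w‖ ≤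
      ‖deriv g w‖ + ‖deriv b w‖ + ‖deriv e w‖ + ‖deriv H w‖ := by
    have n1 := norm_sub_le (u * deriv g w + deriv b w + deriv e w) (deriv H w)
    have n2 := norm_add_le (u * deriv g w + deriv b w) (deriv e w)
    have n3 := norm_add_le (u * deriv g w) (deriv b w)
    have n4 : ‖u * deriv g w‖ ≤ ‖deriv g w‖ := by
      rw [norm_mul]
      have := mul_le_mul_of_nonneg_right D.u1 (norm_nonneg (deriv g w))
      linarith
    linarith
  have h6 : ‖Q w‖ ≤ ‖deriv g w‖ + ‖deriv b w‖ + ‖deriv e w‖ + ‖deriv H w‖ := by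
    rw [e1, norm_mul]
    have := mul_le_mul_of_nonneg_right hn.le
      (norm_nonneg (u * deriv g w + deriv b w + deriv e w - deriv H w))
    linarith
  have h7 := mul_le_mul_of_nonneg_right h6 (by linarith : 0 ≤ 1 - ‖w‖)
  have h8 : (‖deriv g w‖ + ‖deriv b w‖ + ‖deriv e w‖ + ‖deriv H w‖) * (1 - ‖w‖) =
    ‖deriv g w‖ * (1 - ‖w‖) + ‖deriv b w‖ * (1 - ‖w‖) + ‖deriv e w‖ * (1 - ‖w‖) +
      ‖deriv H w‖ * (1 - ‖w‖) := by ring
  linarith

/-- the dilated data -/
theorem toDA' {K A ε r : ℝ} {Y H Q P g b e : ℂ → ℂ} {u : ℂ} (S : Sg Y H)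
    (D : DC K A ε H Q P g b e u) (hε0 : 0 ≤ ε) (hr0 : 0 < r) (hr1 : r < 1) :
    DA K (1 + 2 * ε) (18 + ε + 2 * A) A (1 / r) (fun w => H (r * w) - e (r * w))
      (fun w => Q (r * w)) (fun w => P (r * w)) (fun w => g (r * w)) (fun w => b (r * w)) u := by
  have hR : 1 < 1 / r := by rw [lt_div_iff₀ hr0]; linarith
  have hsub : ball (0 : ℂ) 1 ⊆ ball 0 (1 / r) := ball_subset_ball hR.le
  have hrw : ∀ w ∈ ball (0 : ℂ) 1, ‖(r : ℂ) * w‖ ≤ ‖w‖ := by
    intro w _
    rw [dil_norm hr0]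
    have := mul_le_mul_of_nonneg_right hr1.le (norm_nonneg w)
    linarith
  refine ⟨hR, (dil_diff S.dH hr0).sub (dil_diff D.de hr0), dil_diff D.dQ hr0, dil_diff D.dP hr0,
    dil_diff D.dg hr0, dil_diff D.db hr0, ?_, ?_, ?_, ?_, ?_, D.u1, ?_, ?_, ?_⟩
  · intro w hw
    have hm := dil_mem hr0 (hsub hw)
    have h1 := goluzin_le S hm
    have h2 := bloch_growth D.de D.e0 D.be hm
    have hn : ‖w‖ < 1 := mem_ball_zero_iff.1 hw
    have h3 : -Real.log (1 - ‖(r : ℂ) * w‖) ≤ -Real.log (1 - ‖w‖) := by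
      apply neg_le_neg
      apply Real.log_le_log (by linarith)
      have := hrw w hw
      linarith
    have h4 : 0 ≤ -Real.log (1 - ‖w‖) := by
      have := Real.log_nonpos (by linarith : 0 ≤ 1 - ‖w‖) (by linarith [norm_nonneg w])
      linarith
    have h5 := norm_sub_le (H ((r : ℂ) * w)) (e ((r : ℂ) * w))
    have h6 : ε * -Real.log (1 - ‖(r : ℂ) * w‖) ≤ ε * -Real.log (1 - ‖w‖) :=
      mul_le_mul_of_nonneg_left h3 hε0
    have h7 : 0 ≤ ε * -Real.log (1 - ‖w‖) := mul_nonneg hε0 h4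
    show ‖H ((r : ℂ) * w) - e ((r : ℂ) * w)‖ ≤ (1 + 2 * ε) * -Real.log (1 - ‖w‖)
    linarith
  · intro w hw
    exact D.pP _ (dil_mem hr0 hw)
  · show ‖P ((r : ℂ) * 0)‖ ≤ K
    rw [mul_zero]
    exact D.P0
  · intro w hw
    have hm := dil_mem hr0 (hsub hw)
    have h1 := Q_bloch' S D hm
    have h2 := hrw w hw
    have h3 := mul_le_mul_of_nonneg_left (by linarith : 1 - ‖w‖ ≤ 1 - ‖(r : ℂ) * w‖)
      (norm_nonneg (Q ((r : ℂ) * w)))
    exact h3.trans h1
  · intro w hw x hx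
    have hm := dil_mem hr0 (hsub hw)
    apply D.oQ _ hm
    have e1 : (r : ℂ) * x - r * w = r * (x - w) := by ring
    rw [e1, dil_norm hr0, dil_norm hr0]
    have := mul_le_mul_of_nonneg_left hx hr0.le
    nlinarith [norm_nonneg w]
  · intro w hw
    exact D.sg _ (dil_mem hr0 hw)
  · intro w hw
    exact D.bb _ (dil_mem hr0 hw)
  · intro w hw
    have hm := dil_mem hr0 hw
    have d1 := ((dil_deriv S.dH hr0 hw).sub (dil_deriv D.de hr0 hw)).deriv
    have d2 := (dil_deriv D.dg hr0 hw).deriv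
    have d3 := (dil_deriv D.db hr0 hw).deriv
    have d1' : deriv (fun w => H ((r : ℂ) * w) - e ((r : ℂ) * w)) w =
        (r : ℂ) * deriv H ((r : ℂ) * w) - (r : ℂ) * deriv e ((r : ℂ) * w) := d1
    rw [d1', d2, d3]
    have := D.eq _ hm
    linear_combination this

/-- the pointwise estimate for differences -/
theorem ptwD {K Λ B A R₁ : ℝ} {H Q P g b : ℂ → ℂ} {u : ℂ} (D : DA K Λ B A R₁ H Q P g b u)
    (θ : ℝ) {j : ℕ} (hj : 1 ≤ j)
    (hsm : ∀ i, j < i → (1 / 2) ^ i * (P (pt (rr i) θ)).re ≤ cc i) :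
    ‖H (pt 1 θ) - H (pt (rr j) θ)‖ ≤
      ‖u‖ * ‖g (pt 1 θ) - g (pt (rr j) θ)‖ + (4 * B + 4 + 2 * A) := by
  have h0 := rr_nonneg j
  have h1 := rr_lt j
  have hmj : pt (rr j) θ ∈ ball (0 : ℂ) 1 := by rw [mem_ball_zero_iff, norm_pt _ θ h0]; exact h1
  have hsub : ball (0 : ℂ) 1 ⊆ ball 0 R₁ := ball_subset_ball D.R.le
  obtain ⟨-, -, hs3⟩ := shell D θ hj
  -- difference of FF
  have hF : ∀ n, j + 1 ≤ n → ‖FF H g b u θ (rr n) - FF H g b u θ (rr j)‖ ≤ 4 * B + 4 := by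
    intro n hn
    have a1 := tele D θ (by omega : 1 ≤ j + 1) n hn
    have a2 : 2 * (1 / 2) ^ (j + 1) * ‖Q (pt (rr (j + 1)) θ)‖ ≤ 2 * B := by
      have := D.bQ (pt (rr (j + 1)) θ) (by
        rw [mem_ball_zero_iff, norm_pt _ θ (rr_nonneg _)]
        exact rr_lt _)
      rw [norm_pt _ θ (rr_nonneg _), one_sub_rr] at this
      linarith
    have a3 : ∑ i ∈ Finset.Ico (j + 1) n, (1 / 2) ^ i * (P (pt (rr i) θ)).re ≤ 1 := by
      have b2 : ∑ i ∈ Finset.Ico (j + 1) n, (1 / 2) ^ i * (P (pt (rr i) θ)).re ≤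
          ∑ i ∈ Finset.Ico (j + 1) n, cc i := by
        apply Finset.sum_le_sum
        intro i hi
        exact hsm i (Finset.mem_Ico.1 hi).1
      exact b2.trans (sum_cc (j + 1) n (by omega) hn)
    have a4 : 0 ≤ 2 * (1 / 2) ^ n * ‖Q (pt (rr n) θ)‖ := by positivity
    have a5 : ‖FF H g b u θ (rr n) - FF H g b u θ (rr j)‖ ≤
        ‖FF H g b u θ (rr n) - FF H g b u θ (rr (j + 1))‖ +
        ‖FF H g b u θ (rr (j + 1)) - FF H g b u θ (rr j)‖ := norm_sub_le_norm_sub_add_norm_sub _ _ _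
    linarith
  have hcont : ContinuousAt (FF H g b u θ) 1 := (hasDerivAt_FF D θ one_pos le_rfl).continuousAt
  have hlim : Tendsto (fun n => ‖FF H g b u θ (rr n) - FF H g b u θ (rr j)‖) atTop
      (𝓝 ‖FF H g b u θ 1 - FF H g b u θ (rr j)‖) :=
    ((hcont.tendsto.comp tendsto_rr).sub_const _).norm
  have hF1 : ‖FF H g b u θ 1 - FF H g b u θ (rr j)‖ ≤ 4 * B + 4 := by
    apply le_of_tendsto hlim
    filter_upwards [eventually_ge_atTop (j + 1)] with n hn
    exact hF n hn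
  have e : H (pt 1 θ) - H (pt (rr j) θ) = (FF H g b u θ 1 - FF H g b u θ (rr j)) +
      u * (g (pt 1 θ) - g (pt (rr j) θ)) + (b (pt 1 θ) - b (pt (rr j) θ)) := by
    unfold FF
    ring
  rw [e]
  have n1 := norm_add_le ((FF H g b u θ 1 - FF H g b u θ (rr j)) +
      u * (g (pt 1 θ) - g (pt (rr j) θ))) (b (pt 1 θ) - b (pt (rr j) θ))
  have n2 := norm_add_le (FF H g b u θ 1 - FF H g b u θ (rr j))
      (u * (g (pt 1 θ) - g (pt (rr j) θ)))
  have n4 := norm_sub_le (b (pt 1 θ)) (b (pt (rr j) θ))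
  have n5 := D.bb _ (mem_R D zero_le_one le_rfl θ)
  have n6 := D.bb _ (hsub hmj)
  rw [norm_mul] at n2
  linarith

/-- the pointwise estimate in one shell -/
theorem shellpt {a a₂ c₂ : ℝ} (ha0 : 0 < a) (ha₂ : 0 < a₂) (hc₂ : 0 < c₂)
    (hq : Real.sqrt (a / c₂) + a / a₂ ≤ 1) {L l Z T G : ℝ} (hl0 : 0 ≤ l) (hl : l < L) (hZ0 : 0 ≤ Z)
    (hZL : Z ≤ L) (_hT : 0 ≤ T) (hG : 0 ≤ G) (h : Z ≤ l + T + G) :
    Real.exp (a * Z ^ 2 / L) ≤
      Real.exp (a * l) * (Real.exp (c₂ / (L - l) * T ^ 2) + Real.exp (a₂ * G)) := by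
  have hL0 : 0 < L := lt_of_le_of_lt hl0 hl
  have hL' : 0 < L - l := by linarith
  have hTe : 1 ≤ Real.exp (c₂ / (L - l) * T ^ 2) := by
    rw [← Real.exp_zero]
    apply Real.exp_le_exp.2
    positivity
  have hGe : 1 ≤ Real.exp (a₂ * G) := by
    rw [← Real.exp_zero]
    apply Real.exp_le_exp.2
    positivity
  rcases le_or_gt Z l with hZl | hZl
  · have h1 : a * Z ^ 2 / L ≤ a * l := by
      rw [div_le_iff₀ hL0]
      have : Z ^ 2 ≤ l * L := by nlinarith
      nlinarith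
    have h2 := Real.exp_le_exp.2 h1
    have h3 := Real.exp_pos (a * l)
    nlinarith
  · obtain ⟨z, hz⟩ : ∃ z, z = Z - l := ⟨_, rfl⟩
    have hz0 : 0 < z := by rw [hz]; linarith
    have hzL : z ≤ L - l := by rw [hz]; linarith
    have h1 : a * Z ^ 2 / L ≤ a * l + a * z ^ 2 / (L - l) := by
      have h2 : Z ^ 2 / L ≤ l + z ^ 2 / (L - l) := by
        rw [div_le_iff₀ hL0]
        have e1 : (l + z ^ 2 / (L - l)) * L - Z ^ 2 = l * (z - (L - l)) ^ 2 / (L - l) := by
          rw [hz]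
          field_simp
          ring
        have h3 : 0 ≤ l * (z - (L - l)) ^ 2 / (L - l) := by positivity
        linarith
      have h3 := mul_le_mul_of_nonneg_left h2 ha0.le
      have e2 : a * (Z ^ 2 / L) = a * Z ^ 2 / L := by ring
      have e3 : a * (l + z ^ 2 / (L - l)) = a * l + a * z ^ 2 / (L - l) := by ring
      rw [e2, e3] at h3
      exact h3
    have h4 := Real.exp_le_exp.2 h1
    rw [Real.exp_add] at h4
    refine h4.trans (mul_le_mul_of_nonneg_left ?_ (Real.exp_pos _).le)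
    rcases le_or_gt (Real.sqrt (a / c₂) * z) T with hTz | hTz
    · have h5 : a * z ^ 2 ≤ c₂ * T ^ 2 := by
        have h6 : (Real.sqrt (a / c₂) * z) ^ 2 ≤ T ^ 2 := pow_le_pow_left₀ (by positivity) hTz 2
        rw [mul_pow, Real.sq_sqrt (by positivity)] at h6
        have h7 := mul_le_mul_of_nonneg_left h6 hc₂.le
        have e1 : c₂ * (a / c₂ * z ^ 2) = a * z ^ 2 := by field_simp
        rw [e1] at h7
        exact h7
      have h6 : a * z ^ 2 / (L - l) ≤ c₂ / (L - l) * T ^ 2 := by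
        have e1 : c₂ / (L - l) * T ^ 2 = c₂ * T ^ 2 / (L - l) := by ring
        rw [e1]
        exact div_le_div_of_nonneg_right h5 hL'.le
      have := Real.exp_le_exp.2 h6
      linarith
    · have h5 : z * (a / a₂) ≤ G := by
        have h6 : z ≤ T + G := by rw [hz]; linarith
        have h7 : z * (a / a₂) ≤ z * (1 - Real.sqrt (a / c₂)) :=
          mul_le_mul_of_nonneg_left (by linarith) hz0.le
        linarith
      have h6 : a * z ^ 2 / (L - l) ≤ a₂ * G := by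
        rw [div_le_iff₀ hL']
        have h7 := mul_le_mul_of_nonneg_left h5 ha₂.le
        have e1 : a₂ * (z * (a / a₂)) = a * z := by field_simp
        rw [e1] at h7
        have h8 : a * z * z ≤ a₂ * G * (L - l) :=
          mul_le_mul h7 hzL hz0.le (by positivity)
        linarith
      have := Real.exp_le_exp.2 h6
      linarith

end Pool.Agent.Run7.h506.MS
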