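import Mathlib
import Pool.Agent.Run7.h506.MS.E

/-! # Lemmas for the core estimate -/

set_option autoImplicit false

namespace Pool.Agent.Run7.h506.MS

open Complex Metric Set Filter Topology MeasureTheory
open Pool.Agent.W677.Mar
open Pool.Agent.TH325.SI (la la_nonneg la_pos)
open Q90.SM (Hyp)

theorem cc_le_one {j : ℕ} (hj : 1 ≤ j) : cc j ≤ 1 := by
  have : (1 : ℝ) ≤ j := by exact_mod_cast hj
  unfold cc
  rw [div_le_one (by positivity)]
  nlinarith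

theorem bad1 {a a'' l x G k w m F : ℝ} (hl : 0 ≤ l) (haa : a ≤ a'') (hx : 0 < x) (hG : 0 < G)
    (hk : 0 < k) (hw : k ≤ w) (hm : k ≤ m) (h : F ≤ Real.exp (a * l) * (x + G)) :
    F ≤ Real.exp (a'' * l) / k * (w * x + m * (G + 1)) := by
  have h3 : Real.exp (a * l) ≤ Real.exp (a'' * l) :=
    Real.exp_le_exp.2 (mul_le_mul_of_nonneg_right haa hl)
  have hE := Real.exp_pos (a'' * l)
  have h4 : x + G ≤ (w * x + m * (G + 1)) / k := by
    rw [le_div_iff₀ hk]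
    have h5 : k * x ≤ w * x := mul_le_mul_of_nonneg_right hw hx.le
    have h6 : k * (G + 1) ≤ m * (G + 1) := mul_le_mul_of_nonneg_right hm (by linarith)
    nlinarith
  calc F ≤ Real.exp (a * l) * (x + G) := h
    _ ≤ Real.exp (a'' * l) * (x + G) := mul_le_mul_of_nonneg_right h3 (by linarith)
    _ ≤ Real.exp (a'' * l) * ((w * x + m * (G + 1)) / k) := mul_le_mul_of_nonneg_left h4 hE.le
    _ = Real.exp (a'' * l) / k * (w * x + m * (G + 1)) := by ring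

theorem bad2 {a a'' η L Z l G k m : ℝ} (ha0 : 0 < a) (hη1 : η < 1) (ha'' : a'' = a / (1 - η))
    (hL : 0 < L) (hZ0 : 0 ≤ Z) (hZ : Z ≤ L) (hl : (1 - η) * L < l) (hG : 0 < G) (hk : 0 < k)
    (hm : k ≤ m) : Real.exp (a * Z ^ 2 / L) ≤ Real.exp (a'' * l) / k * (0 + m * (G + 1)) := by
  have hη' : 0 < 1 - η := by linarith
  have ha''0 : 0 < a'' := by rw [ha'']; positivity
  have h2 : a * Z ^ 2 / L ≤ a'' * l := by
    have h3 : a * Z ^ 2 / L ≤ a * L := by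
      rw [div_le_iff₀ hL]
      have : Z ^ 2 ≤ L * L := by nlinarith
      nlinarith
    have h4 : a * L = a'' * ((1 - η) * L) := by
      rw [ha'']
      field_simp
    have h5 := mul_le_mul_of_nonneg_left hl.le ha''0.le
    linarith
  have h3 := Real.exp_le_exp.2 h2
  have hE := Real.exp_pos (a'' * l)
  have h4 : 1 ≤ (m * (G + 1)) / k := by
    rw [one_le_div hk]
    nlinarith
  calc Real.exp (a * Z ^ 2 / L) ≤ Real.exp (a'' * l) * 1 := by rw [mul_one]; exact h3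
    _ ≤ Real.exp (a'' * l) * ((m * (G + 1)) / k) := mul_le_mul_of_nonneg_left h4 hE.le
    _ = _ := by ring

theorem wbig {z : ℂ} {p k : ℝ} {j : ℕ} (_hz : 0 < z.re) (hp0 : 0 ≤ p) (hp1 : p ≤ 1) (hk : 0 < k)
    (hk1 : k ≤ 1) (h : k ≤ (1 / 2) ^ j * z.re) :
    k ≤ Real.exp (-(p * (j * Real.log 2))) * Real.exp (p * Real.log ‖z‖) := by
  have h5 : (1 / 2 : ℝ) ^ j * 2 ^ j = 1 := by
    rw [← mul_pow]; norm_num
  have h3 : k * 2 ^ j ≤ z.re := by
    have h6 := mul_le_mul_of_nonneg_right h (by positivity : (0 : ℝ) ≤ 2 ^ j)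
    have h7 : (1 / 2) ^ j * z.re * 2 ^ j = z.re := by
      calc (1 / 2) ^ j * z.re * 2 ^ j = ((1 / 2 : ℝ) ^ j * 2 ^ j) * z.re := by ring
        _ = z.re := by rw [h5, one_mul]
    linarith
  have h4 : z.re ≤ ‖z‖ := re_le_norm _
  have h5 : Real.log k + j * Real.log 2 ≤ Real.log ‖z‖ := by
    have := Real.log_le_log (by positivity) (h3.trans h4)
    rw [Real.log_mul hk.ne' (by positivity), Real.log_pow] at this
    exact this
  have h6 : Real.log k ≤ 0 := Real.log_nonpos hk.le hk1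
  have h7 : Real.log k ≤ -(p * (j * Real.log 2)) + p * Real.log ‖z‖ := by
    have h8 := mul_le_mul_of_nonneg_left h5 hp0
    have h9 : Real.log k ≤ p * Real.log k := by nlinarith
    have h10 : p * (Real.log k + j * Real.log 2) = p * Real.log k + p * (j * Real.log 2) := by ring
    linarith
  rw [← Real.exp_add]
  calc k = Real.exp (Real.log k) := (Real.exp_log hk).symm
    _ ≤ _ := Real.exp_le_exp.2 h7

theorem goodpt {a a₀ a₂ c₂ t : ℝ} (ha0 : 0 < a) (ha₂ : 0 < a₂) (hc₂ : 0 < c₂)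
    (hq : Real.sqrt (a / c₂) + a / a₂ ≤ 1) (ht : 0 < t) (ha₀ : 0 ≤ a₀) (haa : a₀ * (1 + t) ^ 2 ≤ a)
    {L Z s T G : ℝ} (hL : 0 < L) (hZ0 : 0 ≤ Z) (hZL : Z ≤ L) (hs : 0 ≤ s) (hT : 0 ≤ T) (hG : 0 ≤ G)
    (h : Z ≤ s + T + G) :
    Real.exp (a₀ * Z ^ 2 / L) ≤ Real.exp ((1 + 1 / t) ^ 2 * (a₀ * s ^ 2 / L)) +
      (Real.exp (c₂ / L * T ^ 2) + Real.exp (a₂ * G)) := by
  have ht1 : 1 ≤ (1 + 1 / t) ^ 2 := by
    have : 0 < 1 / t := by positivity
    nlinarith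
  have hX := Real.exp_pos (c₂ / L * T ^ 2)
  have hGG := Real.exp_pos (a₂ * G)
  rcases le_or_gt Z s with hZs | hZs
  · have h1 : a₀ * Z ^ 2 / L ≤ (1 + 1 / t) ^ 2 * (a₀ * s ^ 2 / L) := by
      have h2 : a₀ * Z ^ 2 / L ≤ a₀ * s ^ 2 / L := by
        rw [div_le_div_iff_of_pos_right hL]
        have : Z ^ 2 ≤ s ^ 2 := pow_le_pow_left₀ hZ0 hZs 2
        exact mul_le_mul_of_nonneg_left this ha₀
      have h3 : a₀ * s ^ 2 / L ≤ (1 + 1 / t) ^ 2 * (a₀ * s ^ 2 / L) :=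
        le_mul_of_one_le_left (by positivity) ht1
      linarith
    have h2 := Real.exp_le_exp.2 h1
    linarith
  · obtain ⟨z, hz⟩ : ∃ z, z = Z - s := ⟨_, rfl⟩
    have hz0 : 0 < z := by rw [hz]; linarith
    have hzL : z ≤ L := by rw [hz]; linarith
    have h2 := shellpt ha0 ha₂ hc₂ hq (l := 0) (L := L) (Z := z) (T := T) (G := G) le_rfl hL hz0.le
      hzL hT hG (by rw [hz]; linarith)
    rw [mul_zero, Real.exp_zero, one_mul, sub_zero] at h2
    have h4 : a₀ * Z ^ 2 / L ≤ (1 + 1 / t) * (a₀ * s ^ 2 / L) + (1 + t) * (a₀ * z ^ 2 / L) := by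
      have h5 : Z ^ 2 ≤ (1 + 1 / t) * s ^ 2 + (1 + t) * z ^ 2 := by
        have e3 : Z = s + z := by rw [hz]; ring
        have h6 : (1 + 1 / t) * s ^ 2 + (1 + t) * z ^ 2 = (s + z) ^ 2 + (s - t * z) ^ 2 / t := by
          field_simp
          ring
        rw [h6, e3]
        have : 0 ≤ (s - t * z) ^ 2 / t := by positivity
        linarith
      have h6 : (1 + 1 / t) * (a₀ * s ^ 2 / L) + (1 + t) * (a₀ * z ^ 2 / L) =
          a₀ * ((1 + 1 / t) * s ^ 2 + (1 + t) * z ^ 2) / L := by ring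
      rw [h6, div_le_div_iff_of_pos_right hL]
      exact mul_le_mul_of_nonneg_left h5 ha₀
    have h5 := (Real.exp_le_exp.2 h4).trans (young _ _ ht)
    have h6 : Real.exp ((1 + t) * ((1 + t) * (a₀ * z ^ 2 / L))) ≤ Real.exp (a * z ^ 2 / L) := by
      apply Real.exp_le_exp.2
      have e3 : (1 + t) * ((1 + t) * (a₀ * z ^ 2 / L)) = (a₀ * (1 + t) ^ 2) * z ^ 2 / L := by
        ring
      rw [e3, div_le_div_iff_of_pos_right hL]
      exact mul_le_mul_of_nonneg_right haa (by positivity)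
    have e4 : (1 + 1 / t) * ((1 + 1 / t) * (a₀ * s ^ 2 / L)) =
        (1 + 1 / t) ^ 2 * (a₀ * s ^ 2 / L) := by ring
    rw [e4] at h5
    linarith

/-- the setting: parameters, data, and the radius -/
structure Set1 (c : ℂ) (M E A ε μ : ℝ) (Y H Q P g b e : ℂ → ℂ) (u : ℂ) (K r : ℝ) : Prop where
  S : Sg Y H
  D : DC K A ε H Q P g b e u
  He : Hyp c M E e
  hu : ‖u‖ ≤ μ
  hr0 : 0 < r
  hr1 : r < 1
  hK : 1 ≤ K
  hε0 : 0 ≤ ε
  hA : 0 ≤ A

section

variable {c : ℂ} {M E A ε μ : ℝ} {Y H Q P g b e : ℂ → ℂ} {u : ℂ} {K r : ℝ}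

theorem n1 (V : Set1 c M E A ε μ Y H Q P g b e u K r) (θ : ℝ) : ‖(r : ℂ) * pt 1 θ‖ = r := by
  rw [dil_norm V.hr0, norm_pt _ _ zero_le_one, mul_one]

theorem nj (V : Set1 c M E A ε μ Y H Q P g b e u K r) (j : ℕ) (θ : ℝ) :
    ‖(r : ℂ) * pt (rr j) θ‖ ≤ rr j := by
  rw [dil_norm V.hr0, norm_pt _ θ (rr_nonneg j)]
  have := mul_le_mul_of_nonneg_right V.hr1.le (rr_nonneg j)
  linarith

theorem b1 (V : Set1 c M E A ε μ Y H Q P g b e u K r) (θ : ℝ) :
    (r : ℂ) * pt 1 θ ∈ ball (0 : ℂ) 1 := by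
  rw [mem_ball_zero_iff, n1 V]
  exact V.hr1

theorem bj (V : Set1 c M E A ε μ Y H Q P g b e u K r) (j : ℕ) (θ : ℝ) :
    (r : ℂ) * pt (rr j) θ ∈ ball (0 : ℂ) 1 := by
  rw [mem_ball_zero_iff]
  exact (nj V j θ).trans_lt (rr_lt j)

theorem c1 (V : Set1 c M E A ε μ Y H Q P g b e u K r) {f : ℂ → ℂ}
    (hf : DifferentiableOn ℂ f (ball 0 1)) : Continuous fun θ : ℝ => f ((r : ℂ) * pt 1 θ) :=
  hf.continuousOn.comp_continuous (continuous_const.mul (continuous_pt 1)) (b1 V)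

theorem cj (V : Set1 c M E A ε μ Y H Q P g b e u K r) {f : ℂ → ℂ}
    (hf : DifferentiableOn ℂ f (ball 0 1)) (j : ℕ) :
    Continuous fun θ : ℝ => f ((r : ℂ) * pt (rr j) θ) :=
  hf.continuousOn.comp_continuous (continuous_const.mul (continuous_pt _)) (bj V j)

theorem ZL (V : Set1 c M E A ε μ Y H Q P g b e u K r) (θ : ℝ) : ‖H (r * pt 1 θ)‖ ≤ la r := by
  have := goluzin V.S (b1 V θ)
  rw [n1 V] at this
  exact this

theorem Sj (V : Set1 c M E A ε μ Y H Q P g b e u K r) (j : ℕ) (θ : ℝ) :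
    ‖H (r * pt (rr j) θ)‖ ≤ j * Real.log 2 := by
  refine (goluzin_le V.S (bj V j θ)).trans ?_
  rw [← neg_log_rr]
  apply neg_le_neg
  apply Real.log_le_log (by linarith [rr_lt j])
  linarith [nj V j θ]

theorem df (V : Set1 c M E A ε μ Y H Q P g b e u K r) (j : ℕ) (θ : ℝ) (hj : 1 ≤ j)
    (hgr : ∀ i, j < i → (1 / 2) ^ i * (P (r * pt (rr i) θ)).re ≤ cc i) :
    ‖H (r * pt 1 θ)‖ ≤ ‖H (r * pt (rr j) θ)‖ + ‖e (r * pt 1 θ) - e (r * pt (rr j) θ)‖ +
      (μ * ‖g (r * pt 1 θ) - g (r * pt (rr j) θ)‖ + (4 * (18 + ε + 2 * A) + 4 + 2 * A)) := by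
  have h1 := ptwD (toDA' V.S V.D V.hε0 V.hr0 V.hr1) θ hj hgr
  have h2 : ‖u‖ * ‖g (r * pt 1 θ) - g (r * pt (rr j) θ)‖ ≤
      μ * ‖g (r * pt 1 θ) - g (r * pt (rr j) θ)‖ :=
    mul_le_mul_of_nonneg_right V.hu (norm_nonneg _)
  have e1 : H (r * pt 1 θ) = H (r * pt (rr j) θ) + (e (r * pt 1 θ) - e (r * pt (rr j) θ)) +
      ((H (r * pt 1 θ) - e (r * pt 1 θ)) - (H (r * pt (rr j) θ) - e (r * pt (rr j) θ))) := by ring
  have h3 := norm_add_le (H (r * pt (rr j) θ) + (e (r * pt 1 θ) - e (r * pt (rr j) θ)))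
    ((H (r * pt 1 θ) - e (r * pt 1 θ)) - (H (r * pt (rr j) θ) - e (r * pt (rr j) θ)))
  have h4 := norm_add_le (H (r * pt (rr j) θ)) (e (r * pt 1 θ) - e (r * pt (rr j) θ))
  rw [← e1] at h3
  linarith

theorem Pne (V : Set1 c M E A ε μ Y H Q P g b e u K r) {z : ℂ} (hz : z ∈ ball (0 : ℂ) 1) :
    P z ≠ 0 := by
  intro h0
  have := V.D.pP z hz
  rw [h0] at this
  simp at this

/-- the weight with the Gaussian factor -/
theorem intWX (V : Set1 c M E A ε μ Y H Q P g b e u K r) {p c₂ ρ₁ Λ₀ C₅ η : ℝ} (hp0 : 0 ≤ p)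
    (hp1 : p < 1) (hC₅ : 0 ≤ C₅) (hη0 : 0 < η)
    (hebd : ∀ (e g : ℂ → ℂ), Hyp c M E e → DifferentiableOn ℂ g (ball 0 1) →
      (∀ z ∈ ball (0 : ℂ) 1, |(g z).im| ≤ Real.pi / 2) → ∀ ρ r L' : ℝ, ρ₁ ≤ ρ → ρ ≤ r → r < 1 →
      Λ₀ ≤ L' → la r - la ρ ≤ L' + 2 →
      ∫ θ in (0:ℝ)..(2 * Real.pi), Real.exp (p * (g (ρ * circleMap 0 r θ)).re) *
        Real.exp (c₂ / L' * ‖e (circleMap 0 r θ) - e (ρ * circleMap 0 r θ)‖ ^ 2) ≤
        C₅ * Real.exp (p * (g 0).re))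
    {j : ℕ} (hj : 1 ≤ j) (hρ : ρ₁ ≤ rr j) (hηL : Λ₀ ≤ η * la r)
    (hcond : (j : ℝ) * Real.log 2 ≤ (1 - η) * la r) :
    ∫ θ in (0:ℝ)..(2 * Real.pi), Real.exp (p * Real.log ‖P (r * pt (rr j) θ)‖) *
      Real.exp (c₂ / (la r - j * Real.log 2) * ‖e (r * pt 1 θ) - e (r * pt (rr j) θ)‖ ^ 2) ≤
      C₅ * K ∧
    ∫ θ in (0:ℝ)..(2 * Real.pi),
      Real.exp (c₂ / (la r - j * Real.log 2) * ‖e (r * pt 1 θ) - e (r * pt (rr j) θ)‖ ^ 2) ≤
      C₅ := by
  have hpi := Real.pi_pos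
  have hlog2 : 0 < Real.log 2 := Real.log_pos (by norm_num)
  have hr0 := V.hr0
  have hr1 := V.hr1
  have hL0 := la_pos hr0 hr1
  have hr2 : 0 < 1 - r ^ 2 := by nlinarith
  have hexpL : Real.exp (-la r) = 1 - r ^ 2 := by
    rw [la, neg_neg, Real.exp_log hr2]
  have hcm : ∀ θ, circleMap 0 r θ = (r : ℂ) * pt 1 θ := fun θ => pt_eq r θ
  have hcm2 : ∀ (θ : ℝ), ((rr j : ℝ) : ℂ) * circleMap 0 r θ = (r : ℂ) * pt (rr j) θ := by
    intro θ
    rw [hcm, pt_eq (rr j)]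
    ring
  have hjr : rr j ≤ r := by
    have h1 : (1 / 2 : ℝ) ^ j = Real.exp (-(j * Real.log 2)) := by
      rw [Real.exp_neg, Real.exp_nat_mul, Real.exp_log (by norm_num), one_div, inv_pow]
    have h2 : Real.exp (-la r) ≤ Real.exp (-(j * Real.log 2)) := by
      apply Real.exp_le_exp.2
      nlinarith
    rw [hexpL, ← h1] at h2
    unfold rr
    nlinarith
  have hL' : Λ₀ ≤ la r - j * Real.log 2 := by linarith
  have hrj0 : 0 < rr j := lt_of_lt_of_le (by norm_num) (rr_half hj)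
  have hla : la r - la (rr j) ≤ (la r - j * Real.log 2) + 2 := by
    have h1 : (j : ℝ) * Real.log 2 - Real.log 2 ≤ la (rr j) := by
      rw [← neg_log_rr, la]
      have e1 : 1 - rr j ^ 2 = (1 - rr j) * (1 + rr j) := by ring
      rw [e1, Real.log_mul (by linarith [rr_lt j]) (by linarith)]
      have := Real.log_le_log (by linarith : 0 < 1 + rr j) (by linarith [rr_lt j] : 1 + rr j ≤ 2)
      linarith
    have h2 : Real.log 2 < 1 := by
      have := Real.log_two_lt_d9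
      linarith
    linarith
  constructor
  · have hgd : DifferentiableOn ℂ (fun z => Complex.log (P z)) (ball 0 1) := fun w hw =>
      (V.D.dP w hw).clog (Or.inl (V.D.pP w hw))
    have hgi : ∀ z ∈ ball (0 : ℂ) 1, |(Complex.log (P z)).im| ≤ Real.pi / 2 := by
      intro z hz
      rw [Complex.log_im]
      exact (Complex.abs_arg_lt_pi_div_two_iff.2 (Or.inl (V.D.pP z hz))).le
    have h1 := hebd e _ V.He hgd hgi (rr j) r (la r - j * Real.log 2) hρ hjr hr1 hL' hla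
    simp only [Complex.log_re] at h1
    have h2 : Real.exp (p * Real.log ‖P 0‖) ≤ K := by
      have h3 : 0 < ‖P 0‖ := norm_pos_iff.2 (Pne V (mem_ball_self one_pos))
      have h4 : Real.log ‖P 0‖ ≤ Real.log K := Real.log_le_log h3 V.D.P0
      have h5 : 0 ≤ Real.log K := Real.log_nonneg V.hK
      have h6 : p * Real.log ‖P 0‖ ≤ Real.log K := by
        calc p * Real.log ‖P 0‖ ≤ p * Real.log K := mul_le_mul_of_nonneg_left h4 hp0
          _ ≤ 1 * Real.log K := mul_le_mul_of_nonneg_right hp1.le h5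
          _ = _ := one_mul _
      have h7 : 0 < K := by linarith [V.hK]
      calc Real.exp (p * Real.log ‖P 0‖) ≤ Real.exp (Real.log K) := Real.exp_le_exp.2 h6
        _ = K := Real.exp_log h7
    refine le_trans (le_of_eq ?_) (h1.trans (mul_le_mul_of_nonneg_left h2 hC₅))
    apply intervalIntegral.integral_congr
    intro θ _
    simp only
    rw [hcm2, hcm]
  · have h1 := hebd e (fun _ => 0) V.He (differentiableOn_const _) (by
      intro z hz
      simp only [Complex.zero_im, abs_zero]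
      positivity) (rr j) r (la r - j * Real.log 2) hρ hjr hr1 hL' hla
    simp only [Complex.zero_re, mul_zero, Real.exp_zero, one_mul, mul_one] at h1
    refine le_trans (le_of_eq ?_) h1
    apply intervalIntegral.integral_congr
    intro θ _
    simp only
    rw [hcm2, hcm]

/-- the weight with the strip factor -/
theorem intMG (V : Set1 c M E A ε μ Y H Q P g b e u K r) {a₃ : ℝ} (ha₃0 : 0 ≤ a₃) (ha₃ : a₃ < 1)
    (j : ℕ) :
    ∫ θ in (0:ℝ)..(2 * Real.pi), (P (r * pt (rr j) θ)).re *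
      Real.exp (a₃ * ‖g (r * pt 1 θ) - g (r * pt (rr j) θ)‖) ≤
      Real.exp (a₃ * Real.pi) * (81 * Real.pi / Real.cos (a₃ * (Real.pi / 2)) ^ 2) *
        (2 * Real.pi * K) ∧
    ∫ θ in (0:ℝ)..(2 * Real.pi), (P (r * pt (rr j) θ)).re ≤ 2 * Real.pi * K ∧
    ∫ θ in (0:ℝ)..(2 * Real.pi), Real.exp (a₃ * ‖g (r * pt 1 θ) - g (r * pt (rr j) θ)‖) ≤
      Real.exp (a₃ * Real.pi) * (81 * Real.pi / Real.cos (a₃ * (Real.pi / 2)) ^ 2) *
        (2 * Real.pi) := by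
  have hpi := Real.pi_pos
  have DD := toDA' V.S V.D V.hε0 V.hr0 V.hr1
  have hsub : ball (0 : ℂ) 1 ⊆ ball 0 (1 / r) := ball_subset_ball DD.R.le
  have hcos := cos_pos' ha₃0 ha₃
  have hmean : ∫ θ in (0:ℝ)..(2 * Real.pi), (P (r * pt (rr j) θ)).re ≤ 2 * Real.pi * K := by
    have h1 := mean_re DD.R DD.dP (rr_nonneg j) (rr_lt j).le
    have h2 : (P (r * 0)).re ≤ K := (re_le_norm _).trans DD.P0
    calc ∫ θ in (0:ℝ)..(2 * Real.pi), (P (r * pt (rr j) θ)).re = 2 * Real.pi * (P (r * 0)).re := h1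
      _ ≤ _ := mul_le_mul_of_nonneg_left h2 (by positivity)
  refine ⟨?_, hmean, ?_⟩
  · have h1 := strip DD.R DD.dg DD.sg ha₃0 ha₃ (rr_nonneg j) (rr_lt j)
      (W := fun θ => (P (r * pt (rr j) θ)).re)
      (continuous_re.comp (cont_pt DD.R DD.dP (rr_nonneg j) (rr_lt j).le))
      (fun θ => (DD.pP _ (mem_R DD (rr_nonneg j) (rr_lt j).le θ)).le)
      (by
        intro θ
        simp only [pt_periodic (rr j) θ])
      (fun θ φ h => slow (DD.dP.mono hsub) (fun x hx => DD.pP x (hsub hx)) (rr_nonneg j) (rr_lt j) h)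
    exact h1.trans (mul_le_mul_of_nonneg_left hmean (by positivity))
  · have h1 := strip DD.R DD.dg DD.sg ha₃0 ha₃ (rr_nonneg j) (rr_lt j)
      (W := fun _ => 1) continuous_const (fun θ => zero_le_one) (fun θ => rfl)
      (fun θ φ h => by norm_num)
    simp only [one_mul, intervalIntegral.integral_const, sub_zero, smul_eq_mul, mul_one] at h1
    exact h1

end

end Pool.Agent.Run7.h506.MS
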