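import Mathlib
import Pool.Agent.Run7.h506.MS.F1

/-! # The core estimate -/

set_option autoImplicit false

namespace Pool.Agent.Run7.h506.MS

open Complex Metric Set Filter Topology MeasureTheory
open Pool.Agent.W677.Mar
open Pool.Agent.TH325.SI (la la_nonneg la_pos)
open Q90.SM (Hyp)

section

variable {c : ℂ} {M E A ε μ : ℝ} {Y H Q P g b e : ℂ → ℂ} {u : ℂ} {K r : ℝ}

/-- the factor of the strip part -/
noncomputable def Gg (g : ℂ → ℂ) (r a₃ : ℝ) (j : ℕ) (θ : ℝ) : ℝ :=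
  Real.exp (a₃ * ‖g (r * pt 1 θ) - g (r * pt (rr j) θ)‖)

/-- the Gaussian factor -/
noncomputable def Xx (e : ℂ → ℂ) (r c₂ : ℝ) (j : ℕ) (θ : ℝ) : ℝ :=
  Real.exp (c₂ / (la r - j * Real.log 2) * ‖e (r * pt 1 θ) - e (r * pt (rr j) θ)‖ ^ 2)

/-- the terms of the sum over the shells -/
noncomputable def Tt (P g e : ℂ → ℂ) (r a'' a₃ c₂ p η Cg : ℝ) (j : ℕ) (θ : ℝ) : ℝ :=
  Real.exp (a'' * (j * Real.log 2)) / cc j *
    ((if (j : ℝ) * Real.log 2 ≤ (1 - η) * la r then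
      (Real.exp (-(p * (j * Real.log 2))) * Real.exp (p * Real.log ‖P (r * pt (rr j) θ)‖)) *
        Xx e r c₂ j θ else 0) +
      (1 / 2) ^ j * (P (r * pt (rr j) θ)).re * (Cg * Gg g r a₃ j θ + 1))

theorem ptall (V : Set1 c M E A ε μ Y H Q P g b e u K r) {a a'' a₀ a₂ c₂ p η t : ℝ} {j₀ J : ℕ}
    (ha0 : 0 < a) (hη0 : 0 < η) (hη1 : η < 1) (ha'' : a'' = a / (1 - η)) (hp0 : 0 ≤ p) (hp1 : p ≤ 1)
    (ha₂ : 0 < a₂) (hc₂ : 0 < c₂) (hμ0 : 0 ≤ μ)
    (hq : Real.sqrt (a / c₂) + a / a₂ ≤ 1) (ht : 0 < t) (ha₀ : 0 ≤ a₀) (haa : a₀ * (1 + t) ^ 2 ≤ a)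
    (hj₀1 : 1 ≤ j₀) (hj₀L : j₀ * Real.log 2 ≤ (1 - η) * la r)
    (hJ : ∀ i, J ≤ i → ∀ θ : ℝ, (1 / 2) ^ i * (P (r * pt (rr i) θ)).re ≤ cc i) (θ : ℝ) :
    Real.exp (a₀ * ‖H (r * pt 1 θ)‖ ^ 2 / la r) ≤
      (Real.exp ((1 + 1 / t) ^ 2 * (a₀ * ‖H (r * pt (rr j₀) θ)‖ ^ 2 / la r)) +
        (Xx e r c₂ j₀ θ + Real.exp (a₂ * (4 * (18 + ε + 2 * A) + 4 + 2 * A)) *
          Gg g r (a₂ * μ) j₀ θ)) +
      ∑ j ∈ Finset.Ico j₀ J, Tt P g e r a'' (a₂ * μ) c₂ p η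
        (Real.exp (a₂ * (4 * (18 + ε + 2 * A) + 4 + 2 * A))) j θ := by
  have hlog2 : 0 < Real.log 2 := Real.log_pos (by norm_num)
  have hε0 := V.hε0
  have hA := V.hA
  have hL0 := la_pos V.hr0 V.hr1
  have haa'' : a ≤ a'' := by
    rw [ha'', le_div_iff₀ (by linarith)]
    nlinarith
  obtain ⟨C₀, hC₀⟩ : ∃ C₀, C₀ = 4 * (18 + ε + 2 * A) + 4 + 2 * A := ⟨_, rfl⟩
  have hC₀0 : 0 ≤ C₀ := by rw [hC₀]; positivity
  rw [← hC₀]
  have hPp : ∀ j, 0 < (P (r * pt (rr j) θ)).re := fun j => V.D.pP _ (bj V j θ)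
  have hG0 : ∀ j, 0 < Real.exp (a₂ * C₀) * Gg g r (a₂ * μ) j θ :=
    fun j => mul_pos (Real.exp_pos _) (Real.exp_pos _)
  have hT0 : ∀ j ∈ Finset.Ico j₀ J, 0 ≤ Tt P g e r a'' (a₂ * μ) c₂ p η (Real.exp (a₂ * C₀)) j θ := by
    intro j hj
    have hj1 : 1 ≤ j := hj₀1.trans (Finset.mem_Ico.1 hj).1
    have h1 := cc_pos hj1
    have h2 := hPp j
    have h3 := hG0 j
    unfold Tt
    apply mul_nonneg (by positivity)
    apply add_nonneg
    · split_ifs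
      · exact mul_nonneg (by positivity) (Real.exp_pos _).le
      · exact le_rfl
    · positivity
  have hGe : ∀ j, Real.exp (a₂ * (μ * ‖g (r * pt 1 θ) - g (r * pt (rr j) θ)‖ + C₀)) =
      Real.exp (a₂ * C₀) * Gg g r (a₂ * μ) j θ := by
    intro j
    unfold Gg
    rw [← Real.exp_add]
    congr 1
    ring
  have hZ0 := norm_nonneg (H (r * pt 1 θ))
  have hZL := ZL V θ
  have hX0 : ∀ j, 0 < Xx e r c₂ j θ := fun j => Real.exp_pos _
  by_cases hex : ∃ j, j ≤ J ∧ (j₀ ≤ j ∧ cc j < (1 / 2) ^ j * (P (r * pt (rr j) θ)).re)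
  · classical
    obtain ⟨j₂, hj₂, hp₂⟩ := hex
    obtain ⟨j, hjdef⟩ : ∃ j, j = Nat.findGreatest
      (fun j => j₀ ≤ j ∧ cc j < (1 / 2) ^ j * (P (r * pt (rr j) θ)).re) J := ⟨_, rfl⟩
    have hspec : j₀ ≤ j ∧ cc j < (1 / 2) ^ j * (P (r * pt (rr j) θ)).re := by
      rw [hjdef]
      exact Nat.findGreatest_spec
        (P := fun j => j₀ ≤ j ∧ cc j < (1 / 2) ^ j * (P (r * pt (rr j) θ)).re) hj₂ hp₂
    have hgr : ∀ i, j < i → (1 / 2) ^ i * (P (r * pt (rr i) θ)).re ≤ cc i := by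
      intro i hi
      rcases le_or_gt i J with h | h
      · rw [hjdef] at hi
        have := Nat.findGreatest_is_greatest
          (P := fun j => j₀ ≤ j ∧ cc j < (1 / 2) ^ j * (P (r * pt (rr j) θ)).re) hi h
        by_contra hcon
        rw [← hjdef] at hi
        exact this ⟨by omega, not_le.1 hcon⟩
      · exact hJ i h.le θ
    have hjJ : j < J := by
      by_contra hcon
      exact absurd (hJ j (not_lt.1 hcon) θ) (not_le.2 hspec.2)
    have hj1 : 1 ≤ j := hj₀1.trans hspec.1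
    have hccp := cc_pos hj1
    have hcc1 := cc_le_one hj1
    have hmain : Real.exp (a₀ * ‖H (r * pt 1 θ)‖ ^ 2 / la r) ≤
        Tt P g e r a'' (a₂ * μ) c₂ p η (Real.exp (a₂ * C₀)) j θ := by
      have ha₀a' : a₀ ≤ a := by
        refine le_trans ?_ haa
        have : 1 ≤ (1 + t) ^ 2 := by nlinarith
        nlinarith
      have h1 : a₀ * ‖H (r * pt 1 θ)‖ ^ 2 / la r ≤ a * ‖H (r * pt 1 θ)‖ ^ 2 / la r := by
        rw [div_le_div_iff_of_pos_right hL0]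
        exact mul_le_mul_of_nonneg_right ha₀a' (by positivity)
      refine (Real.exp_le_exp.2 h1).trans ?_
      unfold Tt
      by_cases hcond : (j : ℝ) * Real.log 2 ≤ (1 - η) * la r
      · rw [if_pos hcond]
        have hlt : (j : ℝ) * Real.log 2 < la r := by nlinarith
        apply bad1 (a := a) (by positivity) haa'' (hX0 j) (hG0 j) hccp
          (wbig (hPp j) hp0 hp1 hccp hcc1 hspec.2.le) hspec.2.le
        have h2 := shellpt ha0 ha₂ hc₂ hq (l := j * Real.log 2) (L := la r) (Z := ‖H (r * pt 1 θ)‖)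
          (T := ‖e (r * pt 1 θ) - e (r * pt (rr j) θ)‖)
          (G := μ * ‖g (r * pt 1 θ) - g (r * pt (rr j) θ)‖ + C₀) (by positivity) hlt hZ0 hZL
          (norm_nonneg _) (by positivity) (by
            have h3 := df V j θ hj1 hgr
            have h4 := Sj V j θ
            rw [← hC₀] at h3
            linarith)
        rw [hGe] at h2
        exact h2
      · rw [if_neg hcond]
        push Not at hcond
        exact bad2 ha0 hη1 ha'' hL0 hZ0 hZL hcond (hG0 j) hccp hspec.2.le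
    have h3 : Tt P g e r a'' (a₂ * μ) c₂ p η (Real.exp (a₂ * C₀)) j θ ≤
        ∑ j ∈ Finset.Ico j₀ J, Tt P g e r a'' (a₂ * μ) c₂ p η (Real.exp (a₂ * C₀)) j θ :=
      Finset.single_le_sum (f := fun j => Tt P g e r a'' (a₂ * μ) c₂ p η (Real.exp (a₂ * C₀)) j θ)
        hT0 (Finset.mem_Ico.2 ⟨hspec.1, hjJ⟩)
    have h4 := Real.exp_pos ((1 + 1 / t) ^ 2 * (a₀ * ‖H (r * pt (rr j₀) θ)‖ ^ 2 / la r))
    have h5 := hX0 j₀
    have h6 := hG0 j₀
    linarith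
  · push Not at hex
    have hgr : ∀ i, j₀ < i → (1 / 2) ^ i * (P (r * pt (rr i) θ)).re ≤ cc i := by
      intro i hi
      rcases le_or_gt i J with h | h
      · exact hex i h (by omega)
      · exact hJ i h.le θ
    have e2 := df V j₀ θ hj₀1 hgr
    rw [← hC₀] at e2
    have h2 := goodpt ha0 ha₂ hc₂ hq ht ha₀ haa (L := la r) (Z := ‖H (r * pt 1 θ)‖)
      (s := ‖H (r * pt (rr j₀) θ)‖) (T := ‖e (r * pt 1 θ) - e (r * pt (rr j₀) θ)‖)
      (G := μ * ‖g (r * pt 1 θ) - g (r * pt (rr j₀) θ)‖ + C₀) hL0 hZ0 hZL (norm_nonneg _)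
      (norm_nonneg _) (by positivity) (by linarith)
    rw [hGe] at h2
    have h3 : Real.exp (c₂ / la r * ‖e (r * pt 1 θ) - e (r * pt (rr j₀) θ)‖ ^ 2) ≤
        Xx e r c₂ j₀ θ := by
      unfold Xx
      apply Real.exp_le_exp.2
      apply mul_le_mul_of_nonneg_right _ (by positivity)
      apply div_le_div_of_nonneg_left hc₂.le
      · nlinarith
      · have : 0 ≤ (j₀ : ℝ) * Real.log 2 := by positivity
        linarith
    have h4 := Finset.sum_nonneg hT0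
    linarith

end

theorem core2 (c : ℂ) (M E A ε μ a p η a₂ c₂ t : ℝ) (hM : 0 ≤ M) (hE : 0 ≤ E) (_hA : 0 ≤ A)
    (hε0 : 0 ≤ ε) (hμ0 : 0 ≤ μ) (ha0 : 0 < a) (hη0 : 0 < η) (hη1 : η < 1)
    (hap : a / (1 - η) < p) (hp1 : p < 1) (ha₂ : 0 < a₂) (haμ : a₂ * μ < 1) (hc₂ : 0 < c₂)
    (hcM : c₂ * M ^ 2 < 1) (hq : Real.sqrt (a / c₂) + a / a₂ ≤ 1) (ht : 0 < t) :
    ∃ (j₁ : ℕ) (L₁ C : ℝ), 1 ≤ j₁ ∧ 0 < L₁ ∧ 0 ≤ C ∧
    ∀ (Y H Q P g b e : ℂ → ℂ) (u : ℂ) (K r a₀ : ℝ) (j₀ : ℕ),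
      Set1 c M E A ε μ Y H Q P g b e u K r → j₁ ≤ j₀ → L₁ ≤ la r →
      j₀ * Real.log 2 ≤ (1 - η) * la r → 0 ≤ a₀ → a₀ * (1 + t) ^ 2 ≤ a →
      ∫ θ in (0 : ℝ)..(2 * Real.pi), Real.exp (a₀ * ‖H (r * pt 1 θ)‖ ^ 2 / la r) ≤
        (∫ θ in (0 : ℝ)..(2 * Real.pi),
          Real.exp ((1 + 1 / t) ^ 2 * (a₀ * ‖H (r * pt (rr j₀) θ)‖ ^ 2 / la r))) +
        C * (1 + K * Real.exp (-(p - a / (1 - η)) * Real.log 2 / 2) ^ j₀) := by
  have hpi := Real.pi_pos
  have hlog2 : 0 < Real.log 2 := Real.log_pos (by norm_num)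
  have hη' : 0 < 1 - η := by linarith
  obtain ⟨a'', ha''⟩ : ∃ a'', a'' = a / (1 - η) := ⟨_, rfl⟩
  rw [← ha''] at hap ⊢
  have haa : a ≤ a'' := by
    rw [ha'', le_div_iff₀ hη']
    nlinarith
  have ha''0 : 0 < a'' := by linarith
  have hp0 : 0 ≤ p := by linarith
  obtain ⟨ρ₁, Λ₀, C₅, hρ₁0, hρ₁1, hΛ₀, hC₅, hebd⟩ := ebd c M E p c₂ hM hE hp0 hp1 hc₂ hcM
  obtain ⟨j₁, hj₁, hj₁1⟩ : ∃ j₁ : ℕ, (∀ j, j₁ ≤ j → ρ₁ ≤ rr j) ∧ 1 ≤ j₁ := by
    have h1 := tendsto_rr.eventually_const_lt hρ₁1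
    obtain ⟨N, hN⟩ := eventually_atTop.1 h1
    exact ⟨max N 1, fun j hj => (hN j ((le_max_left _ _).trans hj)).le, le_max_right _ _⟩
  obtain ⟨Cg, hCg⟩ : ∃ Cg, Cg = Real.exp (a₂ * (4 * (18 + ε + 2 * A) + 4 + 2 * A)) := ⟨_, rfl⟩
  have hCg0 : 0 < Cg := hCg ▸ Real.exp_pos _
  obtain ⟨a₃, ha₃⟩ : ∃ a₃, a₃ = a₂ * μ := ⟨_, rfl⟩
  have haμ' : a₃ < 1 := by rw [ha₃]; exact haμ
  have ha₃0 : 0 ≤ a₃ := by rw [ha₃]; positivity
  obtain ⟨S₂, hS₂⟩ : ∃ S, S = Real.exp (a₃ * Real.pi) *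
    (81 * Real.pi / Real.cos (a₃ * (Real.pi / 2)) ^ 2) := ⟨_, rfl⟩
  have hS₂0 : 0 < S₂ := by
    have := cos_pos' ha₃0 haμ'
    rw [hS₂]
    positivity
  obtain ⟨v, hv⟩ : ∃ v, v = Real.exp (-(p - a'') * Real.log 2 / 2) := ⟨_, rfl⟩
  have hv0 : 0 < v := hv ▸ Real.exp_pos _
  have hv1 : v < 1 := by
    rw [hv, Real.exp_lt_one_iff]
    have : 0 < (p - a'') * Real.log 2 := mul_pos (by linarith) hlog2
    linarith
  rw [← hv]
  have hvv : ∀ j : ℕ, Real.exp (a'' * (j * Real.log 2)) * Real.exp (-(p * (j * Real.log 2))) =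
      v ^ j * v ^ j := by
    intro j
    rw [hv, ← Real.exp_nat_mul, ← Real.exp_add, ← Real.exp_add]
    congr 1
    ring
  have hsum : Summable fun j : ℕ => ((j : ℝ) * (j + 1)) * v ^ j := by
    have h1 := summable_pow_mul_geometric_of_norm_lt_one 2 (r := v)
        (by rw [Real.norm_of_nonneg hv0.le]; exact hv1)
    have h2 := summable_pow_mul_geometric_of_norm_lt_one 1 (r := v)
        (by rw [Real.norm_of_nonneg hv0.le]; exact hv1)
    refine (h1.add h2).congr fun j => ?_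
    ring
  obtain ⟨Gs, hGs⟩ : ∃ Gs, Gs = ∑' j : ℕ, ((j : ℝ) * (j + 1)) * v ^ j := ⟨_, rfl⟩
  have hGs0 : 0 ≤ Gs := by rw [hGs]; exact tsum_nonneg fun j => by positivity
  obtain ⟨C₆, hC₆⟩ : ∃ C₆, C₆ = C₅ + 2 * Real.pi * (Cg * S₂ + 1) := ⟨_, rfl⟩
  have hC₆0 : 0 ≤ C₆ := by rw [hC₆]; positivity
  refine ⟨j₁, Λ₀ / η, C₅ + Cg * (S₂ * (2 * Real.pi)) + C₆ * Gs, hj₁1, by positivity,
    by positivity, ?_⟩
  intro Y H Q P g b e u K r a₀ j₀ V hj₀ hL₁ hj₀L ha₀ ha₀a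
  have hr0 := V.hr0
  have hr1 := V.hr1
  have hK := V.hK
  have DD := toDA' V.S V.D hε0 hr0 hr1
  have hηL : Λ₀ ≤ η * la r := by
    rw [div_le_iff₀ hη0] at hL₁
    linarith
  have hj₀1 : 1 ≤ j₀ := hj₁1.trans hj₀
  obtain ⟨J, hJ⟩ := exists_J DD
  have hpt := ptall V ha0 hη0 hη1 ha'' hp0 hp1.le ha₂ hc₂ hμ0 hq ht ha₀ ha₀a hj₀1 hj₀L hJ
  rw [← hCg, ← ha₃] at hpt
  -- continuity
  have hT₁c : Continuous fun θ : ℝ =>
      Real.exp ((1 + 1 / t) ^ 2 * (a₀ * ‖H (r * pt (rr j₀) θ)‖ ^ 2 / la r)) := by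
    refine Real.continuous_exp.comp (continuous_const.mul ?_)
    exact (continuous_const.mul ((cj V V.S.dH j₀).norm.pow 2)).div_const _
  have hXc : ∀ j, Continuous (Xx e r c₂ j) := fun j =>
    Real.continuous_exp.comp (continuous_const.mul
      (((c1 V V.D.de).sub (cj V V.D.de j)).norm.pow 2))
  have hGc : ∀ j, Continuous (Gg g r a₃ j) := fun j =>
    Real.continuous_exp.comp (continuous_const.mul ((c1 V V.D.dg).sub (cj V V.D.dg j)).norm)
  have hPc : ∀ j, Continuous fun θ : ℝ => (P (r * pt (rr j) θ)).re := fun j =>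
    continuous_re.comp (cj V V.D.dP j)
  have hWc : ∀ j, Continuous fun θ : ℝ => Real.exp (p * Real.log ‖P (r * pt (rr j) θ)‖) := by
    intro j
    refine Real.continuous_exp.comp (continuous_const.mul ?_)
    exact (cj V V.D.dP j).norm.log fun θ => norm_ne_zero_iff.2 (Pne V (bj V j θ))
  have hTc : ∀ j, Continuous (Tt P g e r a'' a₃ c₂ p η Cg j) := by
    intro j
    unfold Tt
    refine continuous_const.mul (Continuous.add ?_ ?_)
    · split_ifs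
      · exact (continuous_const.mul (hWc j)).mul (hXc j)
      · exact continuous_const
    · exact (continuous_const.mul (hPc j)).mul ((continuous_const.mul (hGc j)).add continuous_const)
  -- the integrals of the terms
  have hterm : ∀ j ∈ Finset.Ico j₀ J, ∫ θ in (0 : ℝ)..(2 * Real.pi),
      Tt P g e r a'' a₃ c₂ p η Cg j θ ≤ C₆ * K * v ^ j₀ * (((j : ℝ) * (j + 1)) * v ^ j) := by
    intro j hj
    have hj1 : 1 ≤ j := hj₀1.trans (Finset.mem_Ico.1 hj).1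
    have hj0 : (0 : ℝ) < j := by exact_mod_cast hj1
    have hρj : ρ₁ ≤ rr j := hj₁ j (hj₀.trans (Finset.mem_Ico.1 hj).1)
    obtain ⟨m1, m2, -⟩ := intMG V ha₃0 haμ' j
    rw [← hS₂] at m1
    obtain ⟨l, hl⟩ : ∃ l, l = (j : ℝ) * Real.log 2 := ⟨_, rfl⟩
    have hl0 : 0 ≤ l := by rw [hl]; positivity
    have hpw : (1 / 2 : ℝ) ^ j = Real.exp (-l) := by
      rw [hl, Real.exp_neg, Real.exp_nat_mul, Real.exp_log (by norm_num), one_div, inv_pow]
    have hpl : Real.exp (-l) ≤ Real.exp (-(p * l)) := by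
      apply Real.exp_le_exp.2
      nlinarith
    have i1 : ∫ θ in (0 : ℝ)..(2 * Real.pi), (if (j : ℝ) * Real.log 2 ≤ (1 - η) * la r then
        (Real.exp (-(p * (j * Real.log 2))) * Real.exp (p * Real.log ‖P (r * pt (rr j) θ)‖)) *
        Xx e r c₂ j θ else 0) ≤ Real.exp (-(p * l)) * (C₅ * K) := by
      split_ifs with hcond
      · have h1 := (intWX V hp0 hp1 hC₅ hη0 hebd hj1 hρj hηL hcond).1
        have h2 : ∀ θ : ℝ, (Real.exp (-(p * (j * Real.log 2))) *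
            Real.exp (p * Real.log ‖P (r * pt (rr j) θ)‖)) * Xx e r c₂ j θ =
            Real.exp (-(p * l)) * (Real.exp (p * Real.log ‖P (r * pt (rr j) θ)‖) *
              Real.exp (c₂ / (la r - j * Real.log 2) *
                ‖e (r * pt 1 θ) - e (r * pt (rr j) θ)‖ ^ 2)) := by
          intro θ
          unfold Xx
          rw [hl]
          ring
        simp only [h2]
        rw [intervalIntegral.integral_const_mul]
        exact mul_le_mul_of_nonneg_left h1 (Real.exp_pos _).le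
      · simp only [intervalIntegral.integral_zero]
        have := Real.exp_pos (-(p * l))
        have : 0 ≤ K := by linarith
        positivity
    have i2 : ∫ θ in (0 : ℝ)..(2 * Real.pi), (1 / 2) ^ j * (P (r * pt (rr j) θ)).re *
        (Cg * Gg g r a₃ j θ + 1) ≤ Real.exp (-(p * l)) * (2 * Real.pi * (Cg * S₂ + 1) * K) := by
      have h2 : ∀ θ : ℝ, (1 / 2) ^ j * (P (r * pt (rr j) θ)).re * (Cg * Gg g r a₃ j θ + 1) =
          (Real.exp (-l) * Cg) * ((P (r * pt (rr j) θ)).re * Gg g r a₃ j θ) +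
          Real.exp (-l) * (P (r * pt (rr j) θ)).re := by
        intro θ
        rw [hpw]
        ring
      simp only [h2]
      have hc1' : Continuous fun θ : ℝ => (Real.exp (-l) * Cg) *
          ((P (r * pt (rr j) θ)).re * Gg g r a₃ j θ) := continuous_const.mul ((hPc j).mul (hGc j))
      have hc2' : Continuous fun θ : ℝ => Real.exp (-l) * (P (r * pt (rr j) θ)).re :=
        continuous_const.mul (hPc j)
      rw [intervalIntegral.integral_add (hc1'.intervalIntegrable _ _)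
        (hc2'.intervalIntegrable _ _), intervalIntegral.integral_const_mul,
        intervalIntegral.integral_const_mul]
      have h3 : Real.exp (-l) * Cg * (∫ θ in (0 : ℝ)..(2 * Real.pi),
          (P (r * pt (rr j) θ)).re * Gg g r a₃ j θ) ≤
          Real.exp (-l) * Cg * (S₂ * (2 * Real.pi * K)) :=
        mul_le_mul_of_nonneg_left m1 (by positivity)
      have h4 := mul_le_mul_of_nonneg_left m2 (Real.exp_pos (-l)).le
      have h5 : Real.exp (-l) * (2 * Real.pi * (Cg * S₂ + 1) * K) ≤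
          Real.exp (-(p * l)) * (2 * Real.pi * (Cg * S₂ + 1) * K) := by
        apply mul_le_mul_of_nonneg_right hpl
        have : 0 ≤ K := by linarith
        positivity
      have e1 : Real.exp (-l) * (2 * Real.pi * (Cg * S₂ + 1) * K) =
          Real.exp (-l) * Cg * (S₂ * (2 * Real.pi * K)) + Real.exp (-l) * (2 * Real.pi * K) := by
        ring
      linarith
    have hci1 : Continuous fun θ : ℝ => (if (j : ℝ) * Real.log 2 ≤ (1 - η) * la r then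
        (Real.exp (-(p * (j * Real.log 2))) * Real.exp (p * Real.log ‖P (r * pt (rr j) θ)‖)) *
        Xx e r c₂ j θ else 0) := by
      split_ifs
      · exact (continuous_const.mul (hWc j)).mul (hXc j)
      · exact continuous_const
    have hci2 : Continuous fun θ : ℝ => (1 / 2) ^ j * (P (r * pt (rr j) θ)).re *
        (Cg * Gg g r a₃ j θ + 1) :=
      (continuous_const.mul (hPc j)).mul ((continuous_const.mul (hGc j)).add continuous_const)
    unfold Tt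
    rw [intervalIntegral.integral_const_mul, intervalIntegral.integral_add
      (hci1.intervalIntegrable _ _) (hci2.intervalIntegrable _ _)]
    have h6 := add_le_add i1 i2
    have hccp := cc_pos hj1
    have h7 : 0 ≤ Real.exp (a'' * (j * Real.log 2)) / cc j := by positivity
    refine (mul_le_mul_of_nonneg_left h6 h7).trans ?_
    have h8 : v ^ j ≤ v ^ j₀ := pow_le_pow_of_le_one hv0.le hv1.le (Finset.mem_Ico.1 hj).1
    have e1 : Real.exp (a'' * (j * Real.log 2)) / cc j *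
        (Real.exp (-(p * l)) * (C₅ * K) + Real.exp (-(p * l)) * (2 * Real.pi * (Cg * S₂ + 1) * K)) =
        (Real.exp (a'' * (j * Real.log 2)) * Real.exp (-(p * (j * Real.log 2)))) *
          (1 / cc j) * (C₆ * K) := by
      rw [hl, hC₆]
      ring
    rw [e1, hvv]
    have e2 : 1 / cc j = (j : ℝ) * (j + 1) := by
      unfold cc
      rw [one_div_one_div]
    rw [e2]
    have hK0 : 0 ≤ K := by linarith
    calc v ^ j * v ^ j * ((j : ℝ) * (j + 1)) * (C₆ * K)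
        = C₆ * K * v ^ j * (((j : ℝ) * (j + 1)) * v ^ j) := by ring
      _ ≤ _ := by gcongr
  have hXj : ∫ θ in (0 : ℝ)..(2 * Real.pi), Xx e r c₂ j₀ θ ≤ C₅ :=
    (intWX V hp0 hp1 hC₅ hη0 hebd hj₀1 (hj₁ j₀ hj₀) hηL hj₀L).2
  have hGj : ∫ θ in (0 : ℝ)..(2 * Real.pi), Gg g r a₃ j₀ θ ≤ S₂ * (2 * Real.pi) := by
    rw [hS₂]
    exact (intMG V ha₃0 haμ' j₀).2.2
  have hsumc : Continuous fun θ => ∑ j ∈ Finset.Ico j₀ J, Tt P g e r a'' a₃ c₂ p η Cg j θ :=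
    continuous_finsetSum _ fun j _ => hTc j
  have hXGc : Continuous fun θ => Xx e r c₂ j₀ θ + Cg * Gg g r a₃ j₀ θ :=
    (hXc j₀).add (continuous_const.mul (hGc j₀))
  have hI1 : ∫ θ in (0 : ℝ)..(2 * Real.pi), Real.exp (a₀ * ‖H (r * pt 1 θ)‖ ^ 2 / la r) ≤
      ∫ θ in (0 : ℝ)..(2 * Real.pi),
        ((Real.exp ((1 + 1 / t) ^ 2 * (a₀ * ‖H (r * pt (rr j₀) θ)‖ ^ 2 / la r)) +
          (Xx e r c₂ j₀ θ + Cg * Gg g r a₃ j₀ θ)) +
        ∑ j ∈ Finset.Ico j₀ J, Tt P g e r a'' a₃ c₂ p η Cg j θ) := by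
    apply intervalIntegral.integral_mono_on (by positivity)
    · apply Continuous.intervalIntegrable
      exact Real.continuous_exp.comp
        ((continuous_const.mul ((c1 V V.S.dH).norm.pow 2)).div_const _)
    · exact ((hT₁c.add hXGc).add hsumc).intervalIntegrable _ _
    · intro θ _
      exact hpt θ
  have hCGc : Continuous fun θ => Cg * Gg g r a₃ j₀ θ := continuous_const.mul (hGc j₀)
  have hT1X : Continuous fun θ =>
      Real.exp ((1 + 1 / t) ^ 2 * (a₀ * ‖H (r * pt (rr j₀) θ)‖ ^ 2 / la r)) +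
        (Xx e r c₂ j₀ θ + Cg * Gg g r a₃ j₀ θ) := hT₁c.add hXGc
  have hsp1 := intervalIntegral.integral_add (μ := volume)
    (hT1X.intervalIntegrable 0 (2 * Real.pi)) (hsumc.intervalIntegrable 0 (2 * Real.pi))
  have hsp2 := intervalIntegral.integral_add (μ := volume)
    (hT₁c.intervalIntegrable 0 (2 * Real.pi)) (hXGc.intervalIntegrable 0 (2 * Real.pi))
  have hsp4 := intervalIntegral.integral_add (μ := volume)
    ((hXc j₀).intervalIntegrable 0 (2 * Real.pi)) (hCGc.intervalIntegrable 0 (2 * Real.pi))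
  have hsp3 : ∫ θ in (0 : ℝ)..(2 * Real.pi),
      ∑ j ∈ Finset.Ico j₀ J, Tt P g e r a'' a₃ c₂ p η Cg j θ =
      ∑ j ∈ Finset.Ico j₀ J, ∫ θ in (0 : ℝ)..(2 * Real.pi), Tt P g e r a'' a₃ c₂ p η Cg j θ :=
    intervalIntegral.integral_finsetSum fun j _ => (hTc j).intervalIntegrable _ _
  rw [intervalIntegral.integral_const_mul] at hsp4
  rw [hsp1, hsp2, hsp3, hsp4] at hI1
  have hS := Finset.sum_le_sum hterm
  rw [← Finset.mul_sum] at hS
  have hS2 : ∑ j ∈ Finset.Ico j₀ J, ((j : ℝ) * (j + 1)) * v ^ j ≤ Gs := by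
    rw [hGs]
    exact hsum.sum_le_tsum _ (fun j _ => by positivity)
  have hK0 : 0 ≤ K := by linarith
  have hS3 : C₆ * K * v ^ j₀ * ∑ j ∈ Finset.Ico j₀ J, ((j : ℝ) * (j + 1)) * v ^ j ≤
      C₆ * K * v ^ j₀ * Gs :=
    mul_le_mul_of_nonneg_left hS2 (by positivity)
  have hG2 := mul_le_mul_of_nonneg_left hGj hCg0.le
  have k1 : 0 ≤ (C₅ + Cg * (S₂ * (2 * Real.pi))) * (K * v ^ j₀) := by positivity
  have k2 : 0 ≤ C₆ * Gs := by positivity
  have k3 : (C₅ + Cg * (S₂ * (2 * Real.pi)) + C₆ * Gs) * (1 + K * v ^ j₀) =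
      C₅ + Cg * (S₂ * (2 * Real.pi)) + C₆ * K * v ^ j₀ * Gs +
      (C₅ + Cg * (S₂ * (2 * Real.pi))) * (K * v ^ j₀) + C₆ * Gs := by ring
  rw [k3]
  have hI3 := hS.trans hS3
  linarith

end Pool.Agent.Run7.h506.MS
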