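import Mathlib
import Pool.Agent.Run7.h506.MS.F2

/-! # The main theorem in disc coordinates -/

set_option autoImplicit false

namespace Pool.Agent.Run7.h506.MS

open Complex Metric Set Filter Topology MeasureTheory
open Pool.Agent.W677.Mar
open Pool.Agent.TH325.SI (la la_nonneg la_pos)
open Q90.SM (Hyp)

/-- the Bloch constant -/
noncomputable def eps (c : ℂ) (M E : ℝ) : ℝ := (hypB c M E).choose

theorem eps_nonneg (c : ℂ) (M E : ℝ) : 0 ≤ eps c M E := (hypB c M E).choose_spec.1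

theorem eps_spec {c : ℂ} {M E : ℝ} {H : ℂ → ℂ} (hH : Hyp c M E H) :
    ∀ w ∈ ball (0 : ℂ) 1, ‖deriv H w‖ * (1 - ‖w‖) ≤ eps c M E := (hypB c M E).choose_spec.2 H hH

theorem par2 {a μ M : ℝ} (ha0 : 0 < a) (ha1 : a < 1) (hμ0 : 0 ≤ μ) (hM : 0 ≤ M)
    (h : μ * a + M * Real.sqrt a < 1) : ∃ t a' η p a₂ c₂ : ℝ, 0 < t ∧ a' = a * (1 + t) ^ 2 ∧ 0 < a' ∧
      0 < η ∧ η < 1 ∧ a' / (1 - η) < p ∧ p < 1 ∧ 0 < a₂ ∧ a₂ * μ < 1 ∧ 0 < c₂ ∧ c₂ * M ^ 2 < 1 ∧
      Real.sqrt (a' / c₂) + a' / a₂ ≤ 1 := by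
  have hsa : 0 < Real.sqrt a := Real.sqrt_pos.2 ha0
  -- the choice of `t`
  obtain ⟨t, ht0, ht1, ht2⟩ : ∃ t : ℝ, 0 < t ∧ a * (1 + t) ^ 2 < 1 ∧
      μ * (a * (1 + t) ^ 2) + M * (Real.sqrt a * (1 + t)) < 1 := by
    have c1 : Tendsto (fun t : ℝ => a * (1 + t) ^ 2) (𝓝[>] 0) (𝓝 (a * (1 + 0) ^ 2)) := by
      apply Tendsto.mono_left _ nhdsWithin_le_nhds
      apply Continuous.tendsto
      fun_prop
    have c2 : Tendsto (fun t : ℝ => μ * (a * (1 + t) ^ 2) + M * (Real.sqrt a * (1 + t))) (𝓝[>] 0)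
        (𝓝 (μ * (a * (1 + 0) ^ 2) + M * (Real.sqrt a * (1 + 0)))) := by
      apply Tendsto.mono_left _ nhdsWithin_le_nhds
      apply Continuous.tendsto
      fun_prop
    have e1 := c1.eventually_lt_const (u := 1) (by norm_num; exact ha1)
    have e2 := c2.eventually_lt_const (u := 1) (by
      rw [add_zero, one_pow, mul_one, mul_one]
      exact h)
    obtain ⟨t, h1, h2, h3⟩ := (e1.and (e2.and self_mem_nhdsWithin)).exists
    exact ⟨t, h3, h1, h2⟩
  obtain ⟨a', ha'⟩ : ∃ a', a' = a * (1 + t) ^ 2 := ⟨_, rfl⟩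
  have ha'0 : 0 < a' := by rw [ha']; positivity
  have hsq : Real.sqrt a' = Real.sqrt a * (1 + t) := by
    rw [ha', Real.sqrt_mul ha0.le, Real.sqrt_sq (by linarith)]
  rw [← ha', ← hsq] at ht2
  rw [← ha'] at ht1
  have hsa' : 0 < Real.sqrt a' := Real.sqrt_pos.2 ha'0
  obtain ⟨q, hq⟩ : ∃ q, q = (M + (1 - μ * a') / Real.sqrt a') / 2 := ⟨_, rfl⟩
  have hMq : M < (1 - μ * a') / Real.sqrt a' := by
    rw [lt_div_iff₀ hsa']
    linarith
  have hq1 : M < q := by rw [hq]; linarith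
  have hq2 : q < (1 - μ * a') / Real.sqrt a' := by rw [hq]; linarith
  have hq0 : 0 < q := by linarith
  rw [lt_div_iff₀ hsa'] at hq2
  have hμa : 0 ≤ μ * a' := by positivity
  have hD : 0 < 1 - q * Real.sqrt a' := by linarith
  have h1a : 0 < 1 + a' := by linarith
  have hη : 1 - (1 - a') / 2 = (1 + a') / 2 := by ring
  have hp : a' / (1 - (1 - a') / 2) < 1 := by
    rw [hη, div_lt_one (by linarith)]
    linarith
  refine ⟨t, a', (1 - a') / 2, (1 + a' / (1 - (1 - a') / 2)) / 2, a' / (1 - q * Real.sqrt a'),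
    1 / q ^ 2, ht0, ha', ha'0, by linarith, by linarith, by linarith, by linarith, by positivity,
    ?_, by positivity, ?_, ?_⟩
  · rw [div_mul_eq_mul_div, div_lt_one hD]
    linarith
  · rw [div_mul_eq_mul_div, one_mul, div_lt_one (by positivity)]
    exact pow_lt_pow_left₀ hq1 hM two_ne_zero
  · have e1 : a' / (1 / q ^ 2) = a' * q ^ 2 := by field_simp
    have e2 : Real.sqrt (a' * q ^ 2) = q * Real.sqrt a' := by
      rw [Real.sqrt_mul ha'0.le, Real.sqrt_sq hq0.le]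
      ring
    have e3 : a' / (a' / (1 - q * Real.sqrt a')) = 1 - q * Real.sqrt a' := by
      field_simp
    rw [e1, e2, e3]
    linarith

/-- **the main theorem in disc coordinates** -/
theorem main_disc2 (c : ℂ) (M E A μ a : ℝ) (hM : 0 ≤ M) (hE : 0 ≤ E) (hA : 0 ≤ A) (hμ0 : 0 ≤ μ)
    (ha0 : 0 < a) (ha1 : a < 1) (hcond : μ * a + M * Real.sqrt a < 1) : ∃ δ C : ℝ, 0 < δ ∧
    ∀ (Y H Q P g b e : ℂ → ℂ) (u : ℂ) (K r : ℝ), 0 < r → r < 1 → Sg Y H →
      DC K A (eps c M E) H Q P g b e u → Hyp c M E e → ‖u‖ ≤ μ → 1 ≤ K →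
      K ≤ (A + 1) * Real.exp (δ * la r) →
      ∫ θ in (0 : ℝ)..(2 * Real.pi), Real.exp (a * ‖H (r * pt 1 θ)‖ ^ 2 / la r) ≤ C := by
  have hpi := Real.pi_pos
  have hlog2 : 0 < Real.log 2 := Real.log_pos (by norm_num)
  obtain ⟨t, a', η, p, a₂, c₂, ht, ha', ha'0, hη0, hη1, hap, hp1, ha₂, haμ, hc₂, hcM, hq⟩ :=
    par2 ha0 ha1 hμ0 hM hcond
  obtain ⟨j₁, L₁, C₁, hj₁1, hL₁0, hC₁0, hC₁⟩ := core2 c M E A (eps c M E) μ a' p η a₂ c₂ t hM hE hA
    (eps_nonneg c M E) hμ0 ha'0 hη0 hη1 hap hp1 ha₂ haμ hc₂ hcM hq ht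
  have hη' : 0 < 1 - η := by linarith
  obtain ⟨cS, hcS⟩ : ∃ cS, cS = (1 + 1 / t) ^ 2 * a := ⟨_, rfl⟩
  have hcS0 : 0 < cS := by rw [hcS]; positivity
  obtain ⟨y, hy⟩ : ∃ y, y = 1 / (2 / (1 - η) + 576 * cS) := ⟨_, rfl⟩
  have hden : 0 < 2 / (1 - η) + 576 * cS := by positivity
  have hy0 : 0 < y := by rw [hy]; positivity
  have hyη : 2 * y ≤ 1 - η := by
    have h1 : y * (2 / (1 - η)) ≤ 1 := by
      rw [hy, div_mul_eq_mul_div, one_mul, div_le_one hden]
      have : 0 ≤ 576 * cS := by positivity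
      linarith
    rw [← mul_div_assoc, div_le_one hη'] at h1
    linarith
  have hyc : y * (576 * cS) ≤ 1 := by
    rw [hy, div_mul_eq_mul_div, one_mul, div_le_one hden]
    have : 0 ≤ 2 / (1 - η) := by positivity
    linarith
  obtain ⟨a'', ha''⟩ : ∃ a'', a'' = a' / (1 - η) := ⟨_, rfl⟩
  rw [← ha''] at hap hC₁
  obtain ⟨L₀, hL₀⟩ : ∃ L₀, L₀ = L₁ + (j₁ + 1) * Real.log 2 / y := ⟨_, rfl⟩
  have hL₀0 : 0 < L₀ := by rw [hL₀]; positivity
  refine ⟨y * (p - a'') / 2, 2 * Real.pi * Real.exp L₀ + 4 * Real.pi + C₁ * (1 + (A + 1)),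
    by
      have : 0 < p - a'' := by linarith
      positivity, ?_⟩
  intro Y H Q P g b e u K r hr0 hr1 S D He hu hK1 hK
  have V : Set1 c M E A (eps c M E) μ Y H Q P g b e u K r :=
    ⟨S, D, He, hu, hr0, hr1, hK1, eps_nonneg c M E, hA⟩
  obtain ⟨L, hL⟩ : ∃ L, L = la r := ⟨_, rfl⟩
  have hL0 : 0 < L := hL ▸ la_pos hr0 hr1
  have hHc := c1 V S.dH
  rw [← hL] at hK ⊢
  rcases lt_or_ge L L₀ with hLL | hLL
  · -- trivial case
    have h1 : ∫ θ in (0 : ℝ)..(2 * Real.pi), Real.exp (a * ‖H (r * pt 1 θ)‖ ^ 2 / L) ≤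
        ∫ θ in (0 : ℝ)..(2 * Real.pi), Real.exp L₀ := by
      apply intervalIntegral.integral_mono_on (by positivity)
      · apply Continuous.intervalIntegrable
        exact Real.continuous_exp.comp ((continuous_const.mul (hHc.norm.pow 2)).div_const L)
      · exact continuous_const.intervalIntegrable _ _
      · intro θ _
        apply Real.exp_le_exp.2
        rw [div_le_iff₀ hL0]
        have h2 := ZL V θ
        rw [← hL] at h2
        have h3 : ‖H (r * pt 1 θ)‖ ^ 2 ≤ L ^ 2 := pow_le_pow_left₀ (norm_nonneg _) h2 2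
        have h4 : a * ‖H (r * pt 1 θ)‖ ^ 2 ≤ 1 * ‖H (r * pt 1 θ)‖ ^ 2 :=
          mul_le_mul_of_nonneg_right ha1.le (by positivity)
        nlinarith
    rw [intervalIntegral.integral_const, sub_zero, smul_eq_mul] at h1
    have h2 : 0 ≤ C₁ * (1 + (A + 1)) := by positivity
    linarith
  · have hLj : (j₁ + 1) * Real.log 2 ≤ y * L := by
      have h1 : (j₁ + 1) * Real.log 2 / y ≤ L := by linarith
      rw [div_le_iff₀ hy0] at h1
      linarith
    have hL₁L : L₁ ≤ L := by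
      have : 0 ≤ (j₁ + 1) * Real.log 2 / y := by positivity
      linarith
    obtain ⟨j₀, hj₀⟩ : ∃ j₀, j₀ = ⌈y * L / Real.log 2⌉₊ := ⟨_, rfl⟩
    have hjlo : y * L ≤ j₀ * Real.log 2 := by
      have := Nat.le_ceil (y * L / Real.log 2)
      rw [← hj₀, div_le_iff₀ hlog2] at this
      exact this
    have hj₁0 : (0 : ℝ) ≤ j₁ := by positivity
    have hlogy : Real.log 2 ≤ y * L := by nlinarith
    have hjhi : j₀ * Real.log 2 ≤ 2 * y * L := by
      have h1 := Nat.ceil_lt_add_one (by positivity : 0 ≤ y * L / Real.log 2)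
      rw [← hj₀] at h1
      have h2 : (j₀ : ℝ) * Real.log 2 ≤ (y * L / Real.log 2 + 1) * Real.log 2 :=
        mul_le_mul_of_nonneg_right h1.le hlog2.le
      have h3 : (y * L / Real.log 2 + 1) * Real.log 2 = y * L + Real.log 2 := by
        field_simp
      linarith
    have hj₁j : j₁ ≤ j₀ := by
      have h1 : (j₁ : ℝ) * Real.log 2 ≤ j₀ * Real.log 2 := by nlinarith
      have h2 : (j₁ : ℝ) ≤ j₀ := le_of_mul_le_mul_right h1 hlog2
      exact_mod_cast h2
    have hj1 : 1 ≤ j₀ := hj₁1.trans hj₁j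
    have hcore := hC₁ Y H Q P g b e u K r a j₀ V hj₁j (by rw [← hL]; exact hL₁L)
      (by
        rw [← hL]
        have := mul_le_mul_of_nonneg_right hyη hL0.le
        linarith) ha0.le (le_of_eq ha'.symm)
    rw [← hL] at hcore
    -- the factor K v^j₀
    have hKv : K * Real.exp (-(p - a'') * Real.log 2 / 2) ^ j₀ ≤ A + 1 := by
      rw [← Real.exp_nat_mul]
      have h1 : (j₀ : ℝ) * (-(p - a'') * Real.log 2 / 2) ≤ -(y * (p - a'') / 2 * L) := by
        have h2 := mul_le_mul_of_nonneg_right hjlo (by linarith : 0 ≤ (p - a'') / 2)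
        have e1 : (j₀ : ℝ) * (-(p - a'') * Real.log 2 / 2) =
            -(j₀ * Real.log 2 * ((p - a'') / 2)) := by ring
        rw [e1]
        have e2 : y * (p - a'') / 2 * L = y * L * ((p - a'') / 2) := by ring
        rw [e2]
        linarith
      calc K * Real.exp ((j₀ : ℝ) * (-(p - a'') * Real.log 2 / 2))
          ≤ ((A + 1) * Real.exp (y * (p - a'') / 2 * L)) *
            Real.exp (-(y * (p - a'') / 2 * L)) :=
            mul_le_mul hK (Real.exp_le_exp.2 h1) (Real.exp_pos _).le (by positivity)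
        _ = A + 1 := by rw [mul_assoc, ← Real.exp_add, add_neg_cancel, Real.exp_zero, mul_one]
    -- the starting scale
    have hrr0 : 0 < rr j₀ := lt_of_lt_of_le (by norm_num) (rr_half hj1)
    have hρ0 : 0 < r * rr j₀ := by positivity
    have hρ1 : r * rr j₀ < 1 := by
      have := rr_lt j₀
      nlinarith
    have hlam : lam ((r * rr j₀) ^ 2) ≤ 2 * y * L := by
      refine le_trans ?_ hjhi
      rw [← neg_log_rr]
      unfold lam
      apply neg_le_neg
      apply Real.log_le_log (by linarith [rr_lt j₀])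
      have h1 : r * rr j₀ ≤ rr j₀ := by nlinarith
      have h2 : (r * rr j₀) ^ 2 ≤ rr j₀ := by
        have := rr_lt j₀
        nlinarith
      linarith
    have hlam0 : 0 < lam ((r * rr j₀) ^ 2) := lam_pos (by positivity)
      (pow_lt_one₀ hρ0.le hρ1 two_ne_zero)
    have hmak := bloch_exp (g := H) (B := 6) (c := cS * (2 * y)) (r := r * rr j₀) S.dH S.H0
      (fun w hw => H_bloch S hw) (by positivity) (by nlinarith) hρ0 hρ1
    have hmak2 : (1 - 4 * (cS * (2 * y)) * 6 ^ 2)⁻¹ ≤ (2 : ℝ) := by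
      rw [inv_le_comm₀ (by nlinarith) (by norm_num)]
      nlinarith
    have hbase : ∫ θ in (0 : ℝ)..(2 * Real.pi),
        Real.exp ((1 + 1 / t) ^ 2 * (a * ‖H (r * pt (rr j₀) θ)‖ ^ 2 / L)) ≤ 2 * Real.pi * 2 := by
      have hc := cj V S.dH j₀
      have hpe : ∀ θ, pt (r * rr j₀) θ = (r : ℂ) * pt (rr j₀) θ := by
        intro θ
        rw [pt_eq (r * rr j₀), pt_eq (rr j₀)]
        push_cast
        ring
      have h1 : ∫ θ in (0 : ℝ)..(2 * Real.pi),
          Real.exp ((1 + 1 / t) ^ 2 * (a * ‖H (r * pt (rr j₀) θ)‖ ^ 2 / L)) ≤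
          ∫ θ in (0 : ℝ)..(2 * Real.pi),
            Real.exp (cS * (2 * y) * ‖H (pt (r * rr j₀) θ)‖ ^ 2 / lam ((r * rr j₀) ^ 2)) := by
        simp only [hpe]
        apply intervalIntegral.integral_mono_on (by positivity)
        · apply Continuous.intervalIntegrable
          exact Real.continuous_exp.comp (continuous_const.mul
            ((continuous_const.mul (hc.norm.pow 2)).div_const L))
        · apply Continuous.intervalIntegrable
          exact Real.continuous_exp.comp ((continuous_const.mul (hc.norm.pow 2)).div_const _)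
        · intro θ _
          apply Real.exp_le_exp.2
          obtain ⟨X, hX⟩ : ∃ X, X = ‖H (r * pt (rr j₀) θ)‖ ^ 2 := ⟨_, rfl⟩
          have hX0 : 0 ≤ X := by rw [hX]; positivity
          rw [← hX]
          have e1 : (1 + 1 / t) ^ 2 * (a * X / L) = (cS * X) * (1 / L) := by
            rw [hcS]
            ring
          have e2 : cS * (2 * y) * X / lam ((r * rr j₀) ^ 2) =
              (cS * X) * (2 * y / lam ((r * rr j₀) ^ 2)) := by ring
          rw [e1, e2]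
          apply mul_le_mul_of_nonneg_left _ (by positivity)
          rw [div_le_div_iff₀ hL0 hlam0]
          linarith
      exact h1.trans (hmak.trans (mul_le_mul_of_nonneg_left hmak2 (by positivity)))
    have h1 : C₁ * (1 + K * Real.exp (-(p - a'') * Real.log 2 / 2) ^ j₀) ≤ C₁ * (1 + (A + 1)) :=
      mul_le_mul_of_nonneg_left (by linarith) hC₁0
    have h2 : 0 ≤ 2 * Real.pi * Real.exp L₀ := by positivity
    linarith

end Pool.Agent.Run7.h506.MS
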