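import Mathlib
import Pool.Agent.Run7.h506.MS.G

/-! # Transfer to the exterior of the unit disc -/

set_option autoImplicit false

namespace Pool.Agent.Run7.h506.MS

open Complex Metric Set Filter Topology MeasureTheory
open Pool.Agent.W677.Mar
open Pool.Agent.TH325.SI (la la_nonneg la_pos em)
open Q90.SM (Hyp IsSig marshall)

/-- the structured part and the Bloch part of `h` -/
def Dec2 (K A μ : ℝ) (c : ℂ) (M E : ℝ) (h : ℂ → ℂ) : Prop :=
  ∃ (n : ℕ) (k : Fin n → ℂ) (P : Fin n → ℂ → ℂ) (α c₁ d d' : ℂ) (p b e : ℂ → ℂ),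
    ∑ j, ‖k j‖ ≤ K ∧ (∀ j, Hol (P j) 1 ∧ ∀ z : ℂ, 1 < ‖z‖ → 0 < (P j z).re) ∧
    ‖α‖ ≤ μ ∧ Hol p c₁ ∧ 0 < c₁.re ∧ (∀ z : ℂ, 1 < ‖z‖ → 0 < (p z).re) ∧
    Hol b d ∧ (∀ z : ℂ, 1 < ‖z‖ → ‖b z‖ ≤ A) ∧
    Hol e d' ∧ (∀ z : ℂ, 1 < ‖z‖ → ‖((1 - ‖z‖⁻¹ ^ 2 : ℝ) : ℂ) * (z * deriv e z) + c‖ ≤
      M + E * (1 - ‖z‖⁻¹ ^ 2)) ∧
    ∀ z : ℂ, 1 < ‖z‖ → z * deriv h z =
      ∑ j, k j * (P j z - 1) + α * (z * deriv p z / p z) + z * deriv b z + z * deriv e z

theorem hat_hyp {c : ℂ} {M E : ℝ} {e : ℂ → ℂ} {d : ℂ} (he : Hol e d)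
    (h : ∀ z : ℂ, 1 < ‖z‖ → ‖((1 - ‖z‖⁻¹ ^ 2 : ℝ) : ℂ) * (z * deriv e z) + c‖ ≤
      M + E * (1 - ‖z‖⁻¹ ^ 2)) : Hyp c M E (fun w => hat e d w - d) := by
  have hd := (hat_diff he).sub_const d
  have h0b : (0 : ℂ) ∈ ball (0 : ℂ) 1 := mem_ball_self one_pos
  have hne : ∀ w ∈ ball (0 : ℂ) 1, w ≠ 0 →
      ‖((1 - ‖w‖ ^ 2 : ℝ) : ℂ) * (w * deriv (fun w => hat e d w - d) w) - c‖ ≤
        M + E * (1 - ‖w‖ ^ 2) := by
    intro w hw hw0
    have h1 := h _ (inv_ext hw hw0)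
    rw [norm_inv, inv_inv] at h1
    have h2 : deriv (fun w => hat e d w - d) w = deriv (hat e d) w := by rw [deriv_sub_const]
    rw [h2, hat_deriv he hw hw0]
    have e1 : ((1 - ‖w‖ ^ 2 : ℝ) : ℂ) * -(w⁻¹ * deriv e w⁻¹) - c =
        -(((1 - ‖w‖ ^ 2 : ℝ) : ℂ) * (w⁻¹ * deriv e w⁻¹) + c) := by ring
    rw [e1, norm_neg]
    exact h1
  refine ⟨hd, by simp only [hat_zero, sub_self], fun w hw => ?_⟩
  by_cases hw0 : w = 0
  · have hd' : ContinuousAt (deriv (fun w => hat e d w - d)) 0 :=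
      (hd.deriv isOpen_ball).continuousOn.continuousAt (isOpen_ball.mem_nhds h0b)
    have hc1 : ContinuousAt (fun w : ℂ => ‖((1 - ‖w‖ ^ 2 : ℝ) : ℂ) *
        (w * deriv (fun w => hat e d w - d) w) - c‖) 0 := by
      apply ContinuousAt.norm
      apply ContinuousAt.sub _ continuousAt_const
      apply ContinuousAt.mul _ (continuousAt_id.mul hd')
      apply Continuous.continuousAt
      fun_prop
    have hc2 : ContinuousAt (fun w : ℂ => M + E * (1 - ‖w‖ ^ 2)) 0 := by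
      apply Continuous.continuousAt
      fun_prop
    rw [hw0]
    refine le_of_tendsto_of_tendsto (hc1.tendsto.mono_left (nhdsWithin_le_nhds (s := {0}ᶜ)))
      (hc2.tendsto.mono_left (nhdsWithin_le_nhds (s := {0}ᶜ))) ?_
    filter_upwards [self_mem_nhdsWithin, nhdsWithin_le_nhds (isOpen_ball.mem_nhds h0b)] with x hx hxb
    exact hne x hxb hx
  · exact hne w hw hw0

theorem toDC2 {K A μ : ℝ} {c : ℂ} {M E : ℝ} {h : ℂ → ℂ} (hH : Hol h 0) (hμ1 : μ ≤ 1)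
    (hD : Dec2 K A μ c M E h) :
    ∃ (Q P g b e : ℂ → ℂ) (u : ℂ), DC (1 + K) A (eps c M E) (hat h 0) Q P g b e u ∧
      Hyp c M E e ∧ ‖u‖ ≤ μ := by
  obtain ⟨n, k, P, α, c₁, d, d', p, b, e, hk, hP, hα, hp, hc, hpp, hb, hbA, he, heε, heq⟩ := hD
  have hHyp := hat_hyp he heε
  have hPd : ∀ j, DifferentiableOn ℂ (hat (P j) 1) (ball 0 1) := fun j => hat_diff (hP j).1
  have hPp : ∀ j, ∀ w ∈ ball (0 : ℂ) 1, 0 < (hat (P j) 1 w).re := fun j w hw =>
    hat_pos (by simp) (hP j).2 hw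
  have hpd := hat_diff hp
  have hpp' : ∀ w ∈ ball (0 : ℂ) 1, 0 < (hat p c₁ w).re := fun w hw => hat_pos hc hpp hw
  have hed := hat_diff he
  refine ⟨fun w => ∑ j, k j * (hat (P j) 1 w - 1), fun w => 1 + ∑ j, (‖k j‖ : ℂ) * hat (P j) 1 w,
    fun w => Complex.log (hat p c₁ w), hat b d, fun w => hat e d' w - d', α,
    ⟨?_, ?_, ?_, hat_diff hb, hed.sub_const _, ?_, ?_, ?_, hα.trans hμ1, ?_, ?_, ?_, ?_, ?_⟩,
    hHyp, hα⟩
  · apply DifferentiableOn.fun_sum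
    intro j _
    exact ((hPd j).sub_const 1).const_mul _
  · apply DifferentiableOn.const_add
    apply DifferentiableOn.fun_sum
    intro j _
    exact (hPd j).const_mul _
  · intro w hw
    exact (((hpd w hw).clog (Or.inl (hpp' w hw))))
  · intro w hw
    simp only [add_re, one_re, re_sum, Complex.re_ofReal_mul]
    have : 0 ≤ ∑ j, ‖k j‖ * (hat (P j) 1 w).re :=
      Finset.sum_nonneg fun j _ => mul_nonneg (norm_nonneg _) (hPp j w hw).le
    linarith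
  · simp only [hat_zero, mul_one]
    refine (norm_add_le _ _).trans ?_
    rw [norm_one]
    have := norm_sum_le (Finset.univ : Finset (Fin n)) (fun j => ((‖k j‖ : ℝ) : ℂ))
    simp only [Complex.norm_real, norm_norm] at this
    linarith
  · intro w hw x hx
    have hn : ‖w‖ < 1 := mem_ball_zero_iff.1 hw
    have hsub := ball_sub' (w := w)
    have e1 : (∑ j, k j * (hat (P j) 1 x - 1)) - ∑ j, k j * (hat (P j) 1 w - 1) =
        ∑ j, k j * (hat (P j) 1 x - hat (P j) 1 w) := by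
      rw [← Finset.sum_sub_distrib]
      refine Finset.sum_congr rfl fun j _ => ?_
      ring
    show ‖(∑ j, k j * (hat (P j) 1 x - 1)) - ∑ j, k j * (hat (P j) 1 w - 1)‖ ≤ _
    rw [e1]
    refine (norm_sum_le _ _).trans ?_
    have h1 : ∀ j, ‖k j * (hat (P j) 1 x - hat (P j) 1 w)‖ ≤ 2 * (‖k j‖ * (hat (P j) 1 w).re) := by
      intro j
      rw [norm_mul]
      have h2 := osc (P := hat (P j) 1) (w := w) (δ := 1 - ‖w‖) (by linarith)
        ((hPd j).mono (hsub hw)) (fun y hy => hPp j y (hsub hw hy)) hx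
      have := mul_le_mul_of_nonneg_left h2 (norm_nonneg (k j))
      linarith
    refine (Finset.sum_le_sum fun j _ => h1 j).trans ?_
    rw [← Finset.mul_sum]
    simp only [add_re, one_re, re_sum, Complex.re_ofReal_mul]
    linarith
  · intro w hw
    have h1 := hpp' w hw
    show |(Complex.log (hat p c₁ w)).im| ≤ Real.pi / 2
    rw [Complex.log_im]
    exact (Complex.abs_arg_lt_pi_div_two_iff.2 (Or.inl h1)).le
  · intro w hw
    exact hat_closed hb hbA hw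
  · simp only [hat_zero, sub_self]
  · exact eps_spec hHyp
  · intro w hw
    by_cases hw0 : w = 0
    · rw [hw0]
      simp [hat_zero]
    · have hz := inv_ext hw hw0
      have h1 := heq _ hz
      have dp := hat_hasDeriv hp hw hw0
      have hp0 : p w⁻¹ ≠ 0 := by
        intro h0
        have := hpp _ hz
        rw [h0] at this
        simp at this
      have hdlog : deriv (fun w => Complex.log (hat p c₁ w)) w =
          (deriv p w⁻¹ * -(w ^ 2)⁻¹) / hat p c₁ w :=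
        (dp.clog (Or.inl (hpp' w hw))).deriv
      have hde : deriv (fun w => hat e d' w - d') w = deriv (hat e d') w := by
        rw [deriv_sub_const]
      have h3 := hat_deriv hH hw hw0
      have h4 := hat_deriv hb hw hw0
      have h5 := hat_deriv he hw hw0
      rw [hde, hdlog, hat_ne p c₁ hw0]
      have e1 : ∑ j, k j * (hat (P j) 1 w - 1) = ∑ j, k j * (P j w⁻¹ - 1) :=
        Finset.sum_congr rfl fun j _ => by rw [hat_ne _ _ hw0]
      rw [e1]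
      have e2 : w * (α * (deriv p w⁻¹ * -(w ^ 2)⁻¹ / p w⁻¹) + deriv (hat b d) w +
          deriv (hat e d') w) = -(α * (w⁻¹ * deriv p w⁻¹ / p w⁻¹)) + w * deriv (hat b d) w +
          w * deriv (hat e d') w := by
        field_simp
      rw [e2, h3, h4, h5, h1]
      ring

/-- the main theorem, exterior version -/
theorem main_ext2 (c : ℂ) (M E A μ a : ℝ) (hM : 0 ≤ M) (hE : 0 ≤ E) (hA : 0 ≤ A) (hμ0 : 0 ≤ μ)
    (hμ1 : μ ≤ 1) (ha0 : 0 < a) (ha1 : a < 1) (hcond : μ * a + M * Real.sqrt a < 1) :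
    ∃ δ C : ℝ, 0 < δ ∧ ∀ (R : ℝ) (ψ h : ℂ → ℂ), 1 < R → IsSig ψ h →
      Dec2 (A * (R ^ 2 / (R ^ 2 - 1)) ^ δ) A μ c M E h → marshall a R h ≤ C := by
  have hpi := Real.pi_pos
  obtain ⟨δ, C, hδ, hC⟩ := main_disc2 c M E A μ a hM hE hA hμ0 ha0 ha1 hcond
  refine ⟨δ, (2 * Real.pi)⁻¹ * C, hδ, ?_⟩
  intro R ψ h hR hS hD
  obtain ⟨S, hx, -⟩ := Q90.SM.ext_all ψ h hS
  rw [hx a R hR]
  have hR0 : 0 < R := by linarith
  have hR2 : 0 < R ^ 2 - 1 := by nlinarith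
  obtain ⟨q, hq⟩ : ∃ q, q = R ^ 2 / (R ^ 2 - 1) := ⟨_, rfl⟩
  have hq1 : 1 < q := by
    rw [hq, one_lt_div hR2]
    linarith
  rw [← hq] at hD
  have hqp : 1 ≤ q ^ δ := Real.one_le_rpow hq1.le hδ.le
  obtain ⟨Q, P, g, b, e, u, D, He, hu⟩ := toDC2 ⟨hS.2.2.2.1, hS.2.2.2.2.2⟩ hμ1 hD
  obtain ⟨r, hr⟩ : ∃ r, r = R⁻¹ := ⟨_, rfl⟩
  have hr0 : 0 < r := by rw [hr]; positivity
  have hr1 : r < 1 := by rw [hr]; exact inv_lt_one_of_one_lt₀ hR
  have hla : la r = Real.log q := by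
    have : 1 - r ^ 2 = q⁻¹ := by
      rw [hq, hr]
      field_simp
    rw [la, this, Real.log_inv, neg_neg]
  have hK : 1 + A * q ^ δ ≤ (A + 1) * Real.exp (δ * la r) := by
    rw [hla, mul_comm δ, ← Real.rpow_def_of_pos (by linarith)]
    nlinarith
  have hK1 : 1 ≤ 1 + A * q ^ δ := by
    have : 0 ≤ A * q ^ δ := by positivity
    linarith
  have h1 := hC _ _ Q P g b e u _ r hr0 hr1 S D He hu hK1 hK
  rw [← hr]
  unfold Pool.Agent.TH325.SI.em
  apply mul_le_mul_of_nonneg_left _ (by positivity)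
  refine le_trans (le_of_eq ?_) h1
  apply intervalIntegral.integral_congr
  intro θ _
  simp only
  have e1 : circleMap 0 r θ = (r : ℂ) * pt 1 θ := pt_eq r θ
  rw [e1]
  congr 1
  ring

end Pool.Agent.Run7.h506.MS
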