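import Mathlib
import Pool.Agent.Run7.h506.MS.H

/-! # Holomorphic families -/

set_option autoImplicit false

namespace Pool.Agent.Run7.h506.MS

open Complex Metric Set Filter Topology MeasureTheory
open Pool.Agent.W677.Mar
open Q90.SM (Hyp IsSig marshall)
open Q14.SM (deriv_param sig_deriv2)

/-- holomorphic dependence of `h'` on the parameter (as `Q14.SM.fam`, without the normalisation
`Ψ 0 = id`) -/
theorem fam2 {Ψ h : ℂ → ℂ → ℂ} (hs : ∀ l ∈ ball (0:ℂ) 1, IsSig (Ψ l) (h l))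
    (hΨ : ∀ z : ℂ, 1 < ‖z‖ → DifferentiableOn ℂ (fun l => Ψ l z) (ball 0 1)) {z₀ : ℂ}
    (hz₀ : 1 < ‖z₀‖) : DifferentiableOn ℂ (fun l => deriv (h l) z₀) (ball 0 1) := by
  -- a ball around `z₀`
  obtain ⟨r₁, hr1, hr2⟩ : ∃ r₁ : ℝ, 1 < r₁ ∧ r₁ < ‖z₀‖ := exists_between hz₀
  set ρ := ‖z₀‖ - r₁ with hρdef
  have hρ : 0 < ρ := by linarith
  have hball : ∀ z ∈ ball z₀ ρ, r₁ < ‖z‖ := by
    intro z hz
    have h1 : ‖z₀‖ - ‖z‖ ≤ ‖z₀ - z‖ := norm_sub_norm_le _ _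
    have h2 : ‖z₀ - z‖ < ρ := by
      rw [← dist_eq_norm, dist_comm]
      exact hz
    linarith
  have hext : ∀ z ∈ ball z₀ ρ, 1 < ‖z‖ := fun z hz => hr1.trans (hball z hz)
  -- the uniform bound of the derivative
  obtain ⟨B₀, hB₀⟩ : ∃ B₀ : ℝ, B₀ = -Real.log (1 - (r₁⁻¹) ^ 2) := ⟨_, rfl⟩
  have hhb : ∀ l ∈ ball (0 : ℂ) 1, ∀ z ∈ ball z₀ ρ, ‖h l z‖ ≤ B₀ := by
    intro l hl z hz
    have hsl := hs l hl
    have hS := toSg hsl.1 hsl.2.1 hsl.2.2.1 hsl.2.2.2.1 hsl.2.2.2.2.1 hsl.2.2.2.2.2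
    have hz1 := hext z hz
    have hz0 : z ≠ 0 := by
      rintro rfl
      rw [norm_zero] at hz1
      linarith
    have hmem : z⁻¹ ∈ ball (0 : ℂ) 1 := by
      rw [mem_ball_zero_iff, norm_inv]
      exact inv_lt_one_of_one_lt₀ hz1
    have h1 := goluzin hS hmem
    rw [hat_ne _ _ (inv_ne_zero hz0), inv_inv] at h1
    refine h1.trans ?_
    rw [hB₀]
    apply neg_le_neg
    have h2 : ‖z⁻¹‖ ≤ r₁⁻¹ := by
      rw [norm_inv]
      exact inv_anti₀ (by linarith) (hball z hz).le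
    have h3 : r₁⁻¹ < 1 := inv_lt_one_of_one_lt₀ hr1
    have h4 : 0 < r₁⁻¹ := by positivity
    apply Real.log_le_log
    · nlinarith
    · have : ‖z⁻¹‖ ^ 2 ≤ r₁⁻¹ ^ 2 := by gcongr
      linarith
  have hψ' : ∀ l ∈ ball (0 : ℂ) 1, ∀ z ∈ ball z₀ ρ, ‖deriv (Ψ l) z‖ ≤ Real.exp B₀ := by
    intro l hl z hz
    rw [← (hs l hl).2.2.2.2.1 z (hext z hz)]
    rw [Complex.norm_exp]
    exact Real.exp_le_exp.2 ((Complex.re_le_norm _).trans (hhb l hl z hz))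
  have hdiff : ∀ l ∈ ball (0 : ℂ) 1, ∀ z₁ ρ₁, ball z₁ ρ₁ ⊆ ball z₀ ρ →
      DifferentiableOn ℂ (Ψ l) (ball z₁ ρ₁) := by
    intro l hl z₁ ρ₁ hsub
    exact (hs l hl).1.mono fun z hz => hext z (hsub hz)
  -- first derivative
  have hD1 : ∀ z₁ ∈ ball z₀ (ρ / 2), DifferentiableOn ℂ (fun l => deriv (Ψ l) z₁) (ball 0 1) := by
    intro z₁ hz₁
    have hsub : ball z₁ (ρ / 2) ⊆ ball z₀ ρ := by
      intro y hy
      have h1 : dist y z₀ ≤ dist y z₁ + dist z₁ z₀ := dist_triangle _ _ _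
      have h2 : dist y z₁ < ρ / 2 := hy
      have h3 : dist z₁ z₀ < ρ / 2 := hz₁
      rw [mem_ball]
      linarith
    exact deriv_param (B := Real.exp B₀) (by positivity)
      (fun l hl => hdiff l hl _ _ hsub)
      (fun z hz => hΨ z (hext z (hsub hz)))
      (fun l hl z hz => hψ' l hl z (hsub hz))
  -- second derivative
  have hsub2 : ball z₀ (ρ / 2) ⊆ ball z₀ ρ := ball_subset_ball (by linarith)
  have hD2 : DifferentiableOn ℂ (fun l => deriv (deriv (Ψ l)) z₀) (ball 0 1) := by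
    refine deriv_param (ρ := ρ / 4) (B := Real.exp B₀ / (ρ / 4)) (by positivity) ?_ ?_ ?_
    · intro l hl
      refine ((hdiff l hl z₀ ρ subset_rfl).deriv isOpen_ball).mono ?_
      exact ball_subset_ball (by linarith)
    · intro z hz
      exact hD1 z (ball_subset_ball (by linarith) hz)
    · intro l hl z hz
      have hz' : dist z z₀ < ρ / 4 := hz
      have hsub : closedBall z (ρ / 4) ⊆ ball z₀ ρ := by
        intro y hy
        have h1 : dist y z₀ ≤ dist y z + dist z z₀ := dist_triangle _ _ _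
        have h2 : dist y z ≤ ρ / 4 := hy
        rw [mem_ball]
        linarith
      refine norm_deriv_le_of_forall_mem_sphere_norm_le (by positivity) ?_ ?_
      · refine DifferentiableOn.diffContOnCl ?_
        rw [closure_ball _ (by positivity)]
        exact ((hdiff l hl z₀ ρ subset_rfl).deriv isOpen_ball).mono hsub
      · intro y hy
        exact hψ' l hl y (hsub (sphere_subset_closedBall hy))
  have hq : ∀ l ∈ ball (0 : ℂ) 1, deriv (h l) z₀ = deriv (deriv (Ψ l)) z₀ / deriv (Ψ l) z₀ := by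
    intro l hl
    rw [sig_deriv2 (hs l hl) hz₀, ← (hs l hl).2.2.2.2.1 z₀ hz₀]
    exact (mul_div_cancel_left₀ _ (Complex.exp_ne_zero _)).symm
  have h1 : DifferentiableOn ℂ (fun l => deriv (deriv (Ψ l)) z₀ / deriv (Ψ l) z₀) (ball 0 1) := by
    refine hD2.div (hD1 z₀ (mem_ball_self (by positivity))) ?_
    intro l hl
    rw [← (hs l hl).2.2.2.2.1 z₀ hz₀]
    exact Complex.exp_ne_zero _
  exact h1.congr fun l hl => hq l hl

/-- the radius -/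
noncomputable def Mk (k : ℝ) : ℝ := 8 * k / (1 + Real.sqrt (1 - k ^ 2))

theorem Mk_nonneg {k : ℝ} (hk : 0 ≤ k) : 0 ≤ Mk k := by
  unfold Mk
  have := Real.sqrt_nonneg (1 - k ^ 2)
  positivity

/-- the Schwarz lemma for a disc of radius 4, with an arbitrary value at `0` -/
theorem pick2 {W : ℂ → ℂ} {c₀ : ℂ} (hW : DifferentiableOn ℂ W (ball 0 1)) {s : ℝ} (hs : s < 4)
    (hb : ∀ l ∈ ball (0:ℂ) 1, ‖W l - c₀‖ ≤ s) {l : ℂ} {k : ℝ} (hl : ‖l‖ ≤ k) (hk : k < 1) :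
    ‖W l - W 0‖ ≤ Mk k := by
  have hk0 : 0 ≤ k := (norm_nonneg l).trans hl
  obtain ⟨C, hC⟩ : ∃ C : ℝ, C = ‖c₀ - W 0‖ := ⟨_, rfl⟩
  have hC0 : 0 ≤ C := hC ▸ norm_nonneg _
  have hC4 : C < 4 := by
    rw [hC, norm_sub_rev]
    exact (hb 0 (mem_ball_self one_pos)).trans_lt hs
  obtain ⟨ω, hω1, hω2⟩ : ∃ ω : ℂ, ‖ω‖ = 1 ∧ ω * (c₀ - W 0) = (C : ℂ) := by
    by_cases h0 : c₀ - W 0 = 0
    · refine ⟨1, norm_one, ?_⟩
      rw [hC, h0]
      simp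
    · have h1 : ‖c₀ - W 0‖ ≠ 0 := norm_ne_zero_iff.2 h0
      refine ⟨(starRingEnd ℂ) (c₀ - W 0) / (‖c₀ - W 0‖ : ℂ), ?_, ?_⟩
      · rw [norm_div, Complex.norm_conj, Complex.norm_real, norm_norm, div_self h1]
      · rw [hC, div_mul_eq_mul_div, Complex.conj_mul']
        have : ((‖c₀ - W 0‖ : ℝ) : ℂ) ≠ 0 := by exact_mod_cast h1
        field_simp
  have hp := Q90.SM.pick C 4 (by norm_num) (by rw [abs_of_nonneg hC0]; exact hC4)
    (fun l => ω * (W l - W 0)) ((hW.sub_const _).const_mul _) (by simp) (by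
      intro m hm
      have e1 : ω * (W m - W 0) - (C : ℂ) = ω * (W m - c₀) := by rw [← hω2]; ring
      rw [e1, norm_mul, hω1, one_mul]
      exact (hb m hm).trans hs.le) l k hl hk
  have hkC : 0 ≤ k * C := by positivity
  have hkC4 : k * C < 4 := by nlinarith
  have hD : 0 < (4:ℝ) ^ 2 - k ^ 2 * C ^ 2 := by nlinarith
  have hn : ‖W l - W 0‖ = ‖ω * (W l - W 0)‖ := by rw [norm_mul, hω1, one_mul]
  rw [hn]
  have h1 : ‖ω * (W l - W 0)‖ ≤ k ^ 2 * (4 ^ 2 - C ^ 2) * C / (4 ^ 2 - k ^ 2 * C ^ 2) +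
      k * (4 ^ 2 - C ^ 2) * 4 / (4 ^ 2 - k ^ 2 * C ^ 2) := by
    have h2 := norm_add_le (ω * (W l - W 0) -
      ((k ^ 2 * (4 ^ 2 - C ^ 2) * C / (4 ^ 2 - k ^ 2 * C ^ 2) : ℝ) : ℂ))
      ((k ^ 2 * (4 ^ 2 - C ^ 2) * C / (4 ^ 2 - k ^ 2 * C ^ 2) : ℝ) : ℂ)
    rw [sub_add_cancel, Complex.norm_real] at h2
    have h3 : 0 ≤ k ^ 2 * (4 ^ 2 - C ^ 2) * C / (4 ^ 2 - k ^ 2 * C ^ 2) := by
      have : 0 ≤ (4:ℝ) ^ 2 - C ^ 2 := by nlinarith
      positivity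
    rw [Real.norm_of_nonneg h3] at h2
    linarith
  refine h1.trans ?_
  have hs1 : 0 ≤ 1 - k ^ 2 := by nlinarith
  obtain ⟨σ, hσ⟩ : ∃ σ, σ = Real.sqrt (1 - k ^ 2) := ⟨_, rfl⟩
  have hσ0 : 0 ≤ σ := hσ ▸ Real.sqrt_nonneg _
  have hσ2 : σ ^ 2 = 1 - k ^ 2 := by rw [hσ]; exact Real.sq_sqrt hs1
  unfold Mk
  rw [← hσ, ← add_div, div_le_div_iff₀ hD (by positivity)]
  have e1 : 8 * k * (4 ^ 2 - k ^ 2 * C ^ 2) -
      (k ^ 2 * (4 ^ 2 - C ^ 2) * C + k * (4 ^ 2 - C ^ 2) * 4) * (1 + σ) =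
      (4 + k * C) * (k * (8 * (4 - k * C) - (16 - C ^ 2) * (1 + σ))) := by ring
  have e2 : 0 ≤ k * (8 * (4 - k * C) - (16 - C ^ 2) * (1 + σ)) := by
    -- `(1 - σ) (...) = (4 (1 - σ) - k C)² / (1 + σ) ...`
    have hσ1 : σ ≤ 1 := by nlinarith
    have h3 : (1 + σ) * (8 * (4 - k * C) - (16 - C ^ 2) * (1 + σ)) =
        (4 * k - (1 + σ) * C) ^ 2 := by
      have : k ^ 2 = 1 - σ ^ 2 := by linarith
      have e3 : (4 * k - (1 + σ) * C) ^ 2 = 16 * k ^ 2 - 8 * k * (1 + σ) * C + (1 + σ) ^ 2 * C ^ 2 := by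
        ring
      rw [e3, this]
      ring
    have h4 : 0 ≤ 8 * (4 - k * C) - (16 - C ^ 2) * (1 + σ) := by
      have h5 : 0 ≤ (1 + σ) * (8 * (4 - k * C) - (16 - C ^ 2) * (1 + σ)) := by
        rw [h3]
        positivity
      exact nonneg_of_mul_nonneg_right h5 (by positivity)
    positivity
  have e3 : 0 ≤ (4 + k * C) * (k * (8 * (4 - k * C) - (16 - C ^ 2) * (1 + σ))) :=
    mul_nonneg (by positivity) e2
  linarith

/-- **stability in holomorphic families** -/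
theorem fam_dec {Ψ h : ℂ → ℂ → ℂ} (hs : ∀ l ∈ ball (0:ℂ) 1, IsSig (Ψ l) (h l))
    (hΨ : ∀ z : ℂ, 1 < ‖z‖ → DifferentiableOn ℂ (fun l => Ψ l z) (ball 0 1)) {K A μ : ℝ} {c : ℂ}
    {M E : ℝ} (hD : Dec2 K A μ c M E (h 0)) {l : ℂ} {k : ℝ} (hl : ‖l‖ ≤ k) (hk : k < 1) :
    Dec2 K A μ c (M + Mk k) E (h l) := by
  obtain ⟨n, κ, P, α, c₁, d, d', p, b, e, hκ, hP, hα, hp, hc, hpp, hb, hbA, he, heε, heq⟩ := hD
  have hlb : l ∈ ball (0:ℂ) 1 := mem_ball_zero_iff.2 (by linarith)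
  have h0b : (0:ℂ) ∈ ball (0:ℂ) 1 := mem_ball_self one_pos
  have hHl : Hol (h l) 0 := ⟨(hs l hlb).2.2.2.1, (hs l hlb).2.2.2.2.2⟩
  have hH0 : Hol (h 0) 0 := ⟨(hs 0 h0b).2.2.2.1, (hs 0 h0b).2.2.2.2.2⟩
  have hder : ∀ z : ℂ, 1 < ‖z‖ → deriv (fun z => e z + (h l z - h 0 z)) z =
      deriv e z + (deriv (h l) z - deriv (h 0) z) := by
    intro z hz
    have hU := isOpen_ext.mem_nhds (show z ∈ {z : ℂ | 1 < ‖z‖} from hz)
    exact ((he.1.differentiableAt hU).hasDerivAt.add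
      ((hHl.1.differentiableAt hU).hasDerivAt.sub (hH0.1.differentiableAt hU).hasDerivAt)).deriv
  refine ⟨n, κ, P, α, c₁, d, d' + (0 - 0), p, b, fun z => e z + (h l z - h 0 z), hκ, hP, hα, hp, hc,
    hpp, hb, hbA, ⟨he.1.add (hHl.1.sub hH0.1), he.2.add (hHl.2.sub hH0.2)⟩, ?_, ?_⟩
  · intro z hz
    rw [hder z hz]
    have hz0 : z ≠ 0 := by
      rintro rfl
      rw [norm_zero] at hz
      linarith
    have hzi : z⁻¹ ∈ ball (0:ℂ) 1 := by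
      rw [mem_ball_zero_iff, norm_inv]
      exact inv_lt_one_of_one_lt₀ hz
    have hx0 : 0 ≤ 1 - ‖z‖⁻¹ ^ 2 := by
      have h1 : ‖z‖⁻¹ < 1 := inv_lt_one_of_one_lt₀ hz
      have h2 : 0 ≤ ‖z‖⁻¹ := by positivity
      nlinarith
    have hW := pick2 (W := fun m => ((1 - ‖z‖⁻¹ ^ 2 : ℝ) : ℂ) * -(z * deriv (h m) z))
      (c₀ := 2 * ((‖z‖⁻¹ : ℝ) : ℂ) ^ 2)
      ((((fam2 hs hΨ hz).const_mul z).neg).const_mul _) (s := 4 * ‖z‖⁻¹)
      (by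
        have : ‖z‖⁻¹ < 1 := inv_lt_one_of_one_lt₀ hz
        linarith) (by
        intro m hm
        have hsm := hs m hm
        have hS := toSg hsm.1 hsm.2.1 hsm.2.2.1 hsm.2.2.2.1 hsm.2.2.2.2.1 hsm.2.2.2.2.2
        have h1 := kbound hS hzi
        rw [hat_deriv ⟨hsm.2.2.2.1, hsm.2.2.2.2.2⟩ hzi (inv_ne_zero hz0), inv_inv, norm_inv] at h1
        exact h1) hl hk
    have h1 := heε z hz
    have e1 : ((1 - ‖z‖⁻¹ ^ 2 : ℝ) : ℂ) * (z * (deriv e z + (deriv (h l) z - deriv (h 0) z))) + c =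
        (((1 - ‖z‖⁻¹ ^ 2 : ℝ) : ℂ) * (z * deriv e z) + c) -
        (((1 - ‖z‖⁻¹ ^ 2 : ℝ) : ℂ) * -(z * deriv (h l) z) -
          ((1 - ‖z‖⁻¹ ^ 2 : ℝ) : ℂ) * -(z * deriv (h 0) z)) := by ring
    rw [e1]
    have h2 := norm_sub_le (((1 - ‖z‖⁻¹ ^ 2 : ℝ) : ℂ) * (z * deriv e z) + c)
      (((1 - ‖z‖⁻¹ ^ 2 : ℝ) : ℂ) * -(z * deriv (h l) z) -
          ((1 - ‖z‖⁻¹ ^ 2 : ℝ) : ℂ) * -(z * deriv (h 0) z))
    linarith
  · intro z hz
    rw [hder z hz]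
    have h1 := heq z hz
    have e1 : z * deriv (h l) z = z * deriv (h 0) z + z * (deriv (h l) z - deriv (h 0) z) := by ring
    rw [e1, h1]
    ring

end Pool.Agent.Run7.h506.MS
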