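import Mathlib
import Pool.Agent.Run7.h506.MS.I

/-! # Examples of structured maps -/

set_option autoImplicit false

namespace Pool.Agent.Run7.h506.MS

open Complex Metric Set Filter Topology MeasureTheory
open Pool.Agent.W677.Mar
open Q90.SM (Hyp IsSig marshall)
open Q14.SM (deriv_param sig_deriv2)

theorem ev_ext : ∀ᶠ z : ℂ in Bornology.cobounded ℂ, 1 < ‖z‖ :=
  tendsto_norm_cobounded_atTop.eventually_gt_atTop 1

theorem hol_const (c : ℂ) : Hol (fun _ => c) c := ⟨differentiableOn_const _, tendsto_const_nhds⟩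

/-- `z h'(z) → 0` at infinity -/
theorem zderiv_tendsto {h : ℂ → ℂ} {c : ℂ} (hh : Hol h c) :
    Tendsto (fun z => z * deriv h z) (Bornology.cobounded ℂ) (𝓝 0) := by
  have hd := (hat_diff hh).deriv isOpen_ball
  have hc : ContinuousAt (deriv (hat h c)) 0 :=
    hd.continuousOn.continuousAt (isOpen_ball.mem_nhds (mem_ball_self one_pos))
  have h1 : Tendsto (fun w : ℂ => -(w * deriv (hat h c) w)) (𝓝 0) (𝓝 0) := by
    have h3 : Tendsto (fun w : ℂ => -(w * deriv (hat h c) w)) (𝓝 0)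
        (𝓝 (-(0 * deriv (hat h c) 0))) := (tendsto_id.mul hc.tendsto).neg
    rw [zero_mul, neg_zero] at h3
    exact h3
  have h2 : Tendsto (fun z : ℂ => -(z⁻¹ * deriv (hat h c) z⁻¹)) (Bornology.cobounded ℂ) (𝓝 0) :=
    h1.comp tendsto_inv₀_cobounded
  refine h2.congr' ?_
  filter_upwards [ev_ext] with z hz
  have hz0 : z ≠ 0 := by
    rintro rfl
    rw [norm_zero] at hz
    linarith
  have hzi : z⁻¹ ∈ ball (0:ℂ) 1 := by
    rw [mem_ball_zero_iff, norm_inv]
    exact inv_lt_one_of_one_lt₀ hz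
  have := hat_deriv hh hzi (inv_ne_zero hz0)
  rw [inv_inv] at this
  rw [this, neg_neg]

theorem IsSig.hol' {ψ h : ℂ → ℂ} (hS : IsSig ψ h) : Hol h 0 := ⟨hS.2.2.2.1, hS.2.2.2.2.2⟩

/-- a decomposition without `b` and `e` -/
theorem dec_simple {n : ℕ} {K A μ : ℝ} {h : ℂ → ℂ} (hA : 0 ≤ A) (k : Fin n → ℂ)
    (P : Fin n → ℂ → ℂ) (α c₁ : ℂ) (p : ℂ → ℂ) (hk : ∑ j, ‖k j‖ ≤ K)
    (hP : ∀ j, Hol (P j) 1 ∧ ∀ z : ℂ, 1 < ‖z‖ → 0 < (P j z).re) (hα : ‖α‖ ≤ μ) (hp : Hol p c₁)
    (hc : 0 < c₁.re) (hpp : ∀ z : ℂ, 1 < ‖z‖ → 0 < (p z).re)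
    (heq : ∀ z : ℂ, 1 < ‖z‖ → z * deriv h z =
      ∑ j, k j * (P j z - 1) + α * (z * deriv p z / p z)) : Dec2 K A μ 0 0 0 h := by
  refine ⟨n, k, P, α, c₁, 0, 0, p, fun _ => 0, fun _ => 0, hk, hP, hα, hp, hc, hpp, hol_const 0,
    ?_, hol_const 0, ?_, ?_⟩
  · intro z _
    rw [norm_zero]
    exact hA
  · intro z _
    simp
  · intro z hz
    rw [heq z hz]
    simp

/-- maps with convex complement -/
theorem dec_convex {ψ h : ℂ → ℂ} (hS : IsSig ψ h)
    (hc : ∀ z : ℂ, 1 < ‖z‖ → 0 < (1 + z * deriv h z).re) {K A : ℝ} (hK : 1 ≤ K) (hA : 0 ≤ A) :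
    Dec2 K A 0 0 0 0 h := by
  have hh := IsSig.hol' hS
  apply dec_simple (n := 1) hA (fun _ => 1) (fun _ z => 1 + z * deriv h z) 0 1 (fun _ => 1)
  · simp
    exact hK
  · intro _
    refine ⟨⟨?_, ?_⟩, hc⟩
    · exact (differentiableOn_id.mul (hh.1.deriv isOpen_ext)).const_add 1
    · have := (zderiv_tendsto hh).const_add 1
      rw [add_zero] at this
      exact this
  · simp
  · exact hol_const 1
  · simp
  · intro z _
    simp
  · intro z _
    simp

/-- `h' = (ψ')'/ψ'` -/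
theorem dh_eq {ψ h : ℂ → ℂ} (hS : IsSig ψ h) {z : ℂ} (hz : 1 < ‖z‖) :
    deriv h z = deriv (deriv ψ) z / deriv ψ z := by
  rw [sig_deriv2 hS hz, ← hS.2.2.2.2.1 z hz]
  exact (mul_div_cancel_left₀ _ (Complex.exp_ne_zero _)).symm

theorem one_sub_re {ζ z : ℂ} (hζ : ‖ζ‖ ≤ 1) (hz : 1 < ‖z‖) : 0 < (1 - ζ / z).re := by
  have h1 : ‖ζ / z‖ < 1 := by
    rw [norm_div, div_lt_one (by linarith)]
    linarith
  have h2 : (ζ / z).re ≤ ‖ζ / z‖ := re_le_norm _
  rw [sub_re, one_re]
  linarith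

/-- Schwarz-Christoffel products -/
theorem dec_sc {ψ h : ℂ → ℂ} (hS : IsSig ψ h) {n : ℕ} (ζ κ : Fin n → ℂ) (hζ : ∀ j, ‖ζ j‖ ≤ 1)
    (hψ : ∀ z : ℂ, 1 < ‖z‖ → deriv ψ z = ∏ j, (1 - ζ j / z) ^ (κ j)) {K A : ℝ}
    (hK : ∑ j, ‖κ j‖ ≤ K) (hA : 0 ≤ A) : Dec2 K A 0 0 0 0 h := by
  have hK' : ∑ j, ‖κ j / 2‖ ≤ K := by
    refine le_trans (Finset.sum_le_sum fun j _ => ?_) hK
    rw [norm_div]
    have h2 : ‖(2 : ℂ)‖ = 2 := by norm_num
    rw [h2]
    linarith [norm_nonneg (κ j)]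
  apply dec_simple (n := n) hA (fun j => κ j / 2) (fun j z => (z + ζ j) / (z - ζ j)) 0 1
    (fun _ => 1) hK'
  · intro j
    have hne : ∀ z : ℂ, 1 < ‖z‖ → z - ζ j ≠ 0 := by
      intro z hz h0
      rw [sub_eq_zero] at h0
      rw [h0] at hz
      linarith [hζ j]
    refine ⟨⟨?_, ?_⟩, ?_⟩
    · exact (differentiableOn_id.add_const _).div (differentiableOn_id.sub_const _) hne
    · have h1 : Tendsto (fun z : ℂ => (1 + ζ j * z⁻¹) / (1 - ζ j * z⁻¹)) (Bornology.cobounded ℂ)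
          (𝓝 ((1 + ζ j * 0) / (1 - ζ j * 0))) := by
        have h2 : Tendsto (fun z : ℂ => z⁻¹) (Bornology.cobounded ℂ) (𝓝 0) := tendsto_inv₀_cobounded
        exact ((h2.const_mul _).const_add 1).div ((h2.const_mul _).const_sub 1) (by simp)
      rw [mul_zero, add_zero, sub_zero, div_one] at h1
      refine h1.congr' ?_
      filter_upwards [ev_ext] with z hz
      have hz0 : z ≠ 0 := by
        rintro rfl
        rw [norm_zero] at hz
        linarith
      have h3 := hne z hz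
      have h4 : 1 - ζ j * z⁻¹ ≠ 0 := by
        intro h0
        apply h3
        have : z - ζ j = z * (1 - ζ j * z⁻¹) := by field_simp
        rw [this, h0, mul_zero]
      rw [div_eq_div_iff h4 h3]
      field_simp
    · intro z hz
      have h3 := hne z hz
      have h4 : 0 < normSq (z - ζ j) := normSq_pos.2 h3
      rw [div_re]
      have h5 : (z + ζ j).re * (z - ζ j).re / normSq (z - ζ j) +
          (z + ζ j).im * (z - ζ j).im / normSq (z - ζ j) =
          (‖z‖ ^ 2 - ‖ζ j‖ ^ 2) / normSq (z - ζ j) := by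
        rw [← normSq_eq_norm_sq, ← normSq_eq_norm_sq, normSq_apply z, normSq_apply (ζ j)]
        simp only [add_re, sub_re, add_im, sub_im]
        field_simp
        ring
      rw [h5]
      apply div_pos _ h4
      have := hζ j
      have := norm_nonneg (ζ j)
      nlinarith
  · simp
  · exact hol_const 1
  · simp
  · intro z _
    simp
  · intro z hz
    have hz0 : z ≠ 0 := by
      rintro rfl
      rw [norm_zero] at hz
      linarith
    have hder : ∀ j, HasDerivAt (fun z : ℂ => (1 - ζ j / z) ^ (κ j))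
        (κ j * (1 - ζ j / z) ^ (κ j - 1) * (ζ j / z ^ 2)) z := by
      intro j
      have h1 : HasDerivAt (fun z : ℂ => 1 - ζ j / z) (ζ j / z ^ 2) z := by
        have := ((hasDerivAt_inv hz0).const_mul (ζ j)).const_sub 1
        refine (this.congr_deriv ?_).congr_of_eventuallyEq ?_
        · ring
        · exact Eventually.of_forall fun x => by simp only [div_eq_mul_inv]
      exact h1.cpow_const (Or.inl (one_sub_re (hζ j) hz))
    have hne : ∀ j, (1 - ζ j / z) ^ (κ j) ≠ 0 := by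
      intro j h0
      rw [Complex.cpow_eq_zero_iff] at h0
      have := one_sub_re (hζ j) hz
      rw [h0.1] at this
      simp at this
    have hev : deriv ψ =ᶠ[𝓝 z] fun z => ∏ j, (1 - ζ j / z) ^ (κ j) := by
      filter_upwards [isOpen_ext.mem_nhds (show z ∈ {z : ℂ | 1 < ‖z‖} from hz)] with x hx
      exact hψ x hx
    have hld : deriv h z = ∑ j, κ j * (ζ j / z ^ 2) / (1 - ζ j / z) := by
      rw [dh_eq hS hz]
      have h1 : deriv (deriv ψ) z / deriv ψ z = logDeriv (fun z => ∏ j, (1 - ζ j / z) ^ (κ j)) z := by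
        rw [logDeriv_apply, hev.deriv_eq, hψ z hz]
      rw [h1]
      have h2 := logDeriv_prod (s := Finset.univ) (f := fun j (z : ℂ) => (1 - ζ j / z) ^ (κ j))
        (x := z) (fun j _ => hne j) (fun j _ => (hder j).differentiableAt)
      refine h2.trans (Finset.sum_congr rfl fun j _ => ?_)
      rw [logDeriv_apply, (hder j).deriv]
      have h3 : (1 - ζ j / z) ≠ 0 := by
        intro h0
        have := one_sub_re (hζ j) hz
        rw [h0] at this
        simp at this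
      rw [Complex.cpow_sub _ _ h3, Complex.cpow_one]
      have h4 := hne j
      obtain ⟨y, hy⟩ : ∃ y, y = 1 - ζ j / z := ⟨_, rfl⟩
      rw [← hy] at h3 h4 ⊢
      field_simp
    rw [hld, zero_mul, add_zero, Finset.mul_sum]
    refine Finset.sum_congr rfl fun j _ => ?_
    have h3 : (1 - ζ j / z) ≠ 0 := by
      intro h0
      have := one_sub_re (hζ j) hz
      rw [h0] at this
      simp at this
    have h4 : z - ζ j ≠ 0 := by
      intro h0
      apply h3
      have : 1 - ζ j / z = (z - ζ j) / z := by field_simp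
      rw [this, h0, zero_div]
    have e1 : 1 - ζ j / z = (z - ζ j) / z := by field_simp
    rw [e1]
    field_simp
    ring

/-- spirallike complements -/
theorem dec_spiral {ψ h : ℂ → ℂ} (hS : IsSig ψ h) {w₀ τ : ℂ} (hτ : 0 < τ.re)
    (hp : ∀ z : ℂ, 1 < ‖z‖ → 0 < (τ * (z * deriv ψ z / (ψ z - w₀))).re) {K A : ℝ} (hK : 1 ≤ K)
    (hA : 0 ≤ A) : Dec2 K A 1 0 0 0 h := by
  have hτ0 : τ ≠ 0 := by
    intro h0
    rw [h0] at hτ
    simp at hτ
  have hne : ∀ z : ℂ, 1 < ‖z‖ → ψ z - w₀ ≠ 0 := by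
    intro z hz h0
    have := hp z hz
    rw [h0, div_zero, mul_zero] at this
    simp at this
  have hz0 : ∀ z : ℂ, 1 < ‖z‖ → z ≠ 0 := by
    rintro z hz rfl
    rw [norm_zero] at hz
    linarith
  have hψd := hS.1
  have hdψ : DifferentiableOn ℂ (deriv ψ) {z : ℂ | 1 < ‖z‖} := hψd.deriv isOpen_ext
  have hψ0 : ∀ z : ℂ, 1 < ‖z‖ → deriv ψ z ≠ 0 := by
    intro z hz
    rw [← hS.2.2.2.2.1 z hz]
    exact Complex.exp_ne_zero _
  have hd1 : Tendsto (deriv ψ) (Bornology.cobounded ℂ) (𝓝 1) := by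
    have h1 := (Complex.continuous_exp.tendsto 0).comp hS.2.2.2.2.2
    rw [Complex.exp_zero] at h1
    refine h1.congr' ?_
    filter_upwards [ev_ext] with z hz
    exact hS.2.2.2.2.1 z hz
  have hinv : Tendsto (fun z : ℂ => z⁻¹) (Bornology.cobounded ℂ) (𝓝 0) := tendsto_inv₀_cobounded
  have hq1 : Tendsto (fun z => (ψ z - w₀) / z) (Bornology.cobounded ℂ) (𝓝 1) := by
    obtain ⟨b, hb⟩ := hS.2.2.1
    have h2 := ((hb.sub_const w₀).mul hinv).add_const 1
    rw [mul_zero, zero_add] at h2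
    refine h2.congr' ?_
    filter_upwards [ev_ext] with z hz
    have := hz0 z hz
    field_simp
    ring
  set p : ℂ → ℂ := fun z => τ * (z * deriv ψ z / (ψ z - w₀)) with hpdef
  have hpHol : Hol p τ := by
    refine ⟨((differentiableOn_id.mul hdψ).div (hψd.sub_const _) hne).const_mul _, ?_⟩
    have h1 := (hd1.div hq1 one_ne_zero).const_mul τ
    rw [div_one, mul_one] at h1
    refine h1.congr' ?_
    filter_upwards [ev_ext] with z hz
    have := hz0 z hz
    have := hne z hz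
    simp only [hpdef, Pi.div_apply]
    field_simp
  have hre : (τ.re : ℂ) ≠ 0 := by exact_mod_cast hτ.ne'
  have hPre : ∀ z : ℂ, ((p z - τ.im * I) / (τ.re : ℂ)).re = (p z).re / τ.re := by
    intro z
    rw [div_ofReal_re]
    simp
  apply dec_simple (n := 1) hA (fun _ => (τ.re : ℂ) / τ)
    (fun _ z => (p z - τ.im * I) / (τ.re : ℂ)) 1 τ p
  · simp only [Finset.univ_unique, Finset.sum_const, Finset.card_singleton, one_smul]
    rw [norm_div, Complex.norm_real, Real.norm_of_nonneg hτ.le]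
    have h1 : τ.re ≤ ‖τ‖ := re_le_norm _
    have h2 : τ.re / ‖τ‖ ≤ 1 := by
      rw [div_le_one (norm_pos_iff.2 hτ0)]
      exact h1
    exact h2.trans hK
  · intro _
    refine ⟨⟨(hpHol.1.sub_const _).div_const _, ?_⟩, ?_⟩
    · have h1 := (hpHol.2.sub_const ((τ.im : ℂ) * I)).div_const (τ.re : ℂ)
      have e1 : (τ - τ.im * I) / (τ.re : ℂ) = 1 := by
        have : τ - τ.im * I = τ.re := by
          apply Complex.ext <;> simp
        rw [this, div_self hre]
      rw [e1] at h1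
      exact h1
    · intro z hz
      rw [hPre]
      exact div_pos (hp z hz) hτ
  · simp
  · exact hpHol
  · exact hτ
  · exact hp
  · intro z hz
    have hU : z ∈ {z : ℂ | 1 < ‖z‖} := hz
    have d1 : HasDerivAt ψ (deriv ψ z) z := (hψd.differentiableAt (isOpen_ext.mem_nhds hU)).hasDerivAt
    have d2 : HasDerivAt (deriv ψ) (deriv (deriv ψ) z) z :=
      (hdψ.differentiableAt (isOpen_ext.mem_nhds hU)).hasDerivAt
    have d3 := ((((hasDerivAt_id z).mul d2).div (d1.sub_const w₀) (hne z hz)).const_mul τ).deriv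
    have d3' : deriv p z = τ * (((1 * deriv ψ z + z * deriv (deriv ψ) z) * (ψ z - w₀) -
        z * deriv ψ z * deriv ψ z) / (ψ z - w₀) ^ 2) := d3
    rw [d3', dh_eq hS hz]
    simp only [Finset.univ_unique, Finset.sum_const, Finset.card_singleton, one_smul, hpdef]
    have h1 := hz0 z hz
    have h2 := hne z hz
    have h3 := hψ0 z hz
    have e1 : τ = τ.re + τ.im * I := by
      apply Complex.ext <;> simp
    have e2 : (τ.re : ℂ) / τ * ((τ * (z * deriv ψ z / (ψ z - w₀)) - τ.im * I) / (τ.re : ℂ) - 1) =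
        z * deriv ψ z / (ψ z - w₀) - 1 := by
      have e3 : (τ * (z * deriv ψ z / (ψ z - w₀)) - τ.im * I) / (τ.re : ℂ) - 1 =
          (τ * (z * deriv ψ z / (ψ z - w₀)) - τ) / (τ.re : ℂ) := by
        have : (τ : ℂ) = τ.re + τ.im * I := e1
        rw [eq_div_iff hre, sub_mul, div_mul_cancel₀ _ hre]
        nth_rewrite 5 [this]
        ring
      rw [e3]
      field_simp
    rw [e2]
    field_simp
    ring

end Pool.Agent.Run7.h506.MS
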